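import Mathlib

/-!
Arithmetic of the Pythagorean condition `i² + s² = 2 q i`.
-/

namespace Pool.Agent.Helper61.Nodal

/-- `i` is a gap of `q`: `q - i` is a leg of a Pythagorean triple with hypotenuse `q` -/
def InI (q i : ℕ) : Prop := ∃ s : ℕ, i ^ 2 + s ^ 2 = 2 * q * i

lemma InI_parity {q i : ℕ} (hq : 1 ≤ q) (hi : 1 ≤ i) (h : InI q i) {r : ℕ} (hr : r.Prime)
    (hr3 : r % 4 = 3) : Even (padicValNat r (2 * q) + padicValNat r i) := by
  have : Fact r.Prime := ⟨hr⟩
  obtain ⟨s, hs⟩ := h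
  have h1 := (Nat.eq_sq_add_sq_iff (n := 2 * q * i)).mp ⟨i, s, hs.symm⟩
  rw [← padicValNat.mul (by omega) (by omega)]
  by_cases hd : r ∣ 2 * q * i
  · apply h1 r _ hr3
    rw [Nat.mem_primeFactors]
    exact ⟨hr, hd, by positivity⟩
  · rw [padicValNat.eq_zero_of_not_dvd hd]
    exact Even.zero

lemma exists_prime_three_mod (n : ℕ) : ∃ r > n, r.Prime ∧ r % 4 = 3 := by
  obtain ⟨r, hr, hp, hm⟩ := Nat.forall_exists_prime_gt_and_modEq n (q := 4) (a := 3) (by norm_num)
    (by norm_num)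
  refine ⟨r, hr, hp, ?_⟩
  unfold Nat.ModEq at hm
  omega

lemma crt_aux (b : ℕ) (K : List (ℕ × ℤ)) (hK : ∀ x ∈ K, 1 ≤ x.1 ∧ x.1 ≤ b) :
    ∃ M : ℕ, 1 ≤ M ∧ ∃ m0 : ℤ, ∀ m : ℤ, (M : ℤ) ∣ m - m0 → ∀ x ∈ K,
      ∃ r : ℕ, r.Prime ∧ r % 4 = 3 ∧ b < r ∧ (r : ℤ) ∣ m * x.1 + x.2 ∧
        ¬ ((r : ℤ) ^ 2 ∣ m * x.1 + x.2) := by
  induction K with
  | nil => exact ⟨1, le_rfl, 0, fun m _ x hx => by simp at hx⟩
  | cons a K ih =>
    obtain ⟨M, hM, m0, h⟩ := ih (fun x hx => hK x (List.mem_cons_of_mem _ hx))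
    obtain ⟨l, e⟩ := a
    have hl := hK (l, e) List.mem_cons_self
    simp only at hl
    obtain ⟨r, hrb, hrp, hr3⟩ := exists_prime_three_mod (max b M)
    have hrb' : b < r := lt_of_le_of_lt (le_max_left _ _) hrb
    have hrM : M < r := lt_of_le_of_lt (le_max_right _ _) hrb
    have hcop : IsCoprime ((M : ℤ) * l) ((r : ℤ) ^ 2) := by
      apply IsCoprime.pow_right
      apply IsCoprime.mul_left
      · rw [Nat.isCoprime_iff_coprime]
        exact (Nat.coprime_comm.mp ((Nat.Prime.coprime_iff_not_dvd hrp).mpr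
          (fun hd => by have := Nat.le_of_dvd (by omega) hd; omega)))
      · rw [Nat.isCoprime_iff_coprime]
        exact (Nat.coprime_comm.mp ((Nat.Prime.coprime_iff_not_dvd hrp).mpr
          (fun hd => by have := Nat.le_of_dvd (by omega) hd; omega)))
    obtain ⟨u, v, huv⟩ := hcop
    refine ⟨M * r ^ 2, ?_, m0 + M * (u * (r - e - m0 * l)), ?_⟩
    · have : 1 ≤ r ^ 2 := Nat.one_le_pow _ _ hrp.pos
      nlinarith
    · intro m hm x hx
      push_cast at hm
      rcases List.mem_cons.mp hx with rfl | hx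
      · refine ⟨r, hrp, hr3, hrb', ?_⟩
        have h1 : ((r : ℤ) ^ 2) ∣ m * l + e - r := by
          obtain ⟨k, hk⟩ := hm
          have h2 : m * l + e - r = (r : ℤ) ^ 2 * (M * k * l - v * (r - e - m0 * l)) := by
            have h3 : m = m0 + M * (u * (r - e - m0 * l)) + M * r ^ 2 * k := by linarith
            rw [h3]
            linear_combination (r - e - m0 * l : ℤ) * huv
          exact ⟨_, h2⟩
        constructor
        · have h2 : (r : ℤ) ∣ m * l + e - r := (Dvd.intro_left _ (by ring : (r : ℤ) * r = r ^ 2)).trans h1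
          have h3 : m * l + e = (m * l + e - r) + r := by ring
          rw [h3]
          exact dvd_add h2 dvd_rfl
        · intro h2
          have h3 : ((r : ℤ) ^ 2) ∣ r := by
            have h4 := dvd_sub h2 h1
            have h5 : m * ((l, e) : ℕ × ℤ).1 + ((l, e) : ℕ × ℤ).2 - (m * l + e - r) = (r : ℤ) := by
              simp only
              ring
            rwa [h5] at h4
          have h5 : (r ^ 2 : ℕ) ∣ r := by exact_mod_cast h3
          have h6 := Nat.le_of_dvd hrp.pos h5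
          have h7 := hrp.two_le
          nlinarith
      · apply h m _ x hx
        obtain ⟨k, hk⟩ := hm
        exact ⟨r ^ 2 * k + u * (r - e - m0 * l), by linear_combination hk⟩

theorem arith (b : ℕ) : ∃ m : ℕ, b < m ∧ ∀ q : ℕ, 1 ≤ q →
    (∀ i, 1 ≤ i → i ≤ b → ¬ InI q i) ∨
    (∀ l : ℕ, 1 ≤ l → l ≤ b → ∀ e : ℤ, -(b : ℤ) ≤ e → e ≤ b → ∀ n : ℕ, (n : ℤ) = m * l + e →
      ¬ InI q n) := by
  classical
  set K : List (ℕ × ℤ) := ((Finset.Icc 1 b) ×ˢ (Finset.Icc (-(b : ℤ)) b)).toList with hKdef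
  obtain ⟨M, hM, m0, h⟩ := crt_aux b K (by
    intro x hx
    rw [hKdef, Finset.mem_toList, Finset.mem_product, Finset.mem_Icc] at hx
    exact hx.1)
  have hM' : (1 : ℤ) ≤ M := by exact_mod_cast hM
  set m : ℕ := (m0 % M).toNat + M * (b + 1) with hm
  have hmod : 0 ≤ m0 % (M : ℤ) := Int.emod_nonneg _ (by omega)
  have hmz : (m : ℤ) = m0 % M + M * (b + 1) := by
    rw [hm]
    push_cast
    rw [Int.toNat_of_nonneg hmod]
  have hbm : b < m := by
    have : (b : ℤ) < m := by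
      rw [hmz]
      nlinarith
    exact_mod_cast this
  refine ⟨m, hbm, fun q hq => ?_⟩
  have hdvd : (M : ℤ) ∣ m - m0 := by
    rw [hmz]
    refine ⟨(b + 1) - m0 / M, ?_⟩
    have := Int.emod_add_mul_ediv m0 M
    linear_combination this
  by_contra hcon
  push Not at hcon
  obtain ⟨⟨i, hi1, hib, hi⟩, l, hl1, hlb, e, he1, he2, n, hn, hn2⟩ := hcon
  obtain ⟨r, hrp, hr3, hrb, hrd, hrnd⟩ := h m hdvd (l, e) (by
    rw [hKdef, Finset.mem_toList, Finset.mem_product, Finset.mem_Icc, Finset.mem_Icc]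
    exact ⟨⟨hl1, hlb⟩, he1, he2⟩)
  simp only at hrd hrnd
  rw [← hn] at hrd hrnd
  have : Fact r.Prime := ⟨hrp⟩
  have hrd' : r ∣ n := by exact_mod_cast hrd
  have hrnd' : ¬ r ^ 2 ∣ n := by exact_mod_cast hrnd
  have hn0 : n ≠ 0 := by
    rintro rfl
    exact hrnd' (dvd_zero _)
  have hv : padicValNat r n = 1 := by
    have h1 : 1 ≤ padicValNat r n := by
      rw [← padicValNat_dvd_iff_le hn0, pow_one]
      exact hrd'
    have h2 : ¬ 2 ≤ padicValNat r n := by
      rw [← padicValNat_dvd_iff_le hn0]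
      exact hrnd'
    omega
  have hvi : padicValNat r i = 0 := by
    apply padicValNat.eq_zero_of_not_dvd
    intro hd
    have := Nat.le_of_dvd (by omega) hd
    omega
  have e1 := InI_parity hq (by omega) hn2 hrp hr3
  have e2 := InI_parity hq hi1 hi hrp hr3
  rw [hv] at e1
  rw [hvi] at e2
  rw [Nat.even_add] at e1 e2
  simp at e1 e2
  exact absurd e2 (by simpa using e1)

end Pool.Agent.Helper61.Nodal
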