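import Mathlib

/-!
Two paths in the closed upper half plane whose end points interlace on the real line must meet.
-/

namespace Pool.Agent.Helper61.Nodal

open Complex Set Filter Topology

/-- a nonvanishing continuous function on the plane has a continuous logarithm -/
lemma exists_log (F : ℝ × ℝ → ℂ) (hF : Continuous F) (h0 : ∀ x, F x ≠ 0) :
    ∃ L : ℝ × ℝ → ℂ, Continuous L ∧ ∀ x, Complex.exp (L x) = F x := by
  have hsc : IsSimplyConnected (univ : Set (ℝ × ℝ)) := by
    have : SimplyConnectedSpace (ℝ × ℝ) := inferInstance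
    exact (Homeomorph.Set.univ (ℝ × ℝ)).toHomotopyEquiv.simplyConnectedSpace
  obtain ⟨L, hL, hL2⟩ := Complex.exists_continuousOn_eqOn_exp_comp hsc isOpen_univ
    hF.continuousOn (by rintro ⟨x, _, hx⟩; exact h0 x hx)
  exact ⟨L, continuousOn_univ.mp hL, fun x => hL2 (mem_univ x)⟩

/-- if `sin φ ≥ 0` along a path then `φ` stays in one interval `[2kπ, (2k+1)π]` -/
lemma sin_nonneg_path {φ : ℝ → ℝ} (hφ : ContinuousOn φ (Icc 0 1))
    (h : ∀ t ∈ Icc (0 : ℝ) 1, 0 ≤ Real.sin (φ t)) :
    ∃ k : ℤ, ∀ t ∈ Icc (0 : ℝ) 1, 2 * k * Real.pi ≤ φ t ∧ φ t ≤ (2 * k + 1) * Real.pi := by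
  have hpi := Real.pi_pos
  set k : ℤ := ⌊φ 0 / (2 * Real.pi)⌋ with hk
  have h1 : (k : ℝ) ≤ φ 0 / (2 * Real.pi) := Int.floor_le _
  have h2 : φ 0 / (2 * Real.pi) < k + 1 := Int.lt_floor_add_one _
  rw [le_div_iff₀ (by positivity)] at h1
  rw [div_lt_iff₀ (by positivity)] at h2
  -- sin is negative on ((2k-1)π, 2kπ) and ((2k+1)π,(2k+2)π)
  have hneg : ∀ (n : ℤ) (x : ℝ), (2 * n + 1) * Real.pi < x → x < (2 * n + 2) * Real.pi →
      Real.sin x < 0 := by
    intro n x hx1 hx2
    have h3 : Real.sin x = Real.sin (x - (n + 1 : ℤ) * (2 * Real.pi)) :=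
      (Real.sin_sub_int_mul_two_pi x (n + 1)).symm
    rw [h3]
    apply Real.sin_neg_of_neg_of_neg_pi_lt
    · push_cast; linarith
    · push_cast; linarith
  have h0 : φ 0 ≤ (2 * k + 1) * Real.pi := by
    by_contra hcon
    push Not at hcon
    have := hneg k (φ 0) hcon (by linarith)
    have h3 := h 0 (by simp)
    linarith
  have h0' : 2 * k * Real.pi ≤ φ 0 := by linarith
  refine ⟨k, fun t ht => ?_⟩
  have hsub : Icc (0 : ℝ) t ⊆ Icc 0 1 := Icc_subset_Icc le_rfl ht.2
  constructor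
  · by_contra hcon
    push Not at hcon
    -- take a value between max (φ t) ((2k-1)π) and 2kπ
    set v := (max (φ t) ((2 * k - 1) * Real.pi) + 2 * k * Real.pi) / 2 with hv
    have hm : max (φ t) ((2 * k - 1) * Real.pi) < 2 * k * Real.pi := max_lt hcon (by linarith)
    have hv1 : φ t ≤ v := by have := le_max_left (φ t) ((2 * k - 1) * Real.pi); linarith
    have hv2 : (2 * k - 1) * Real.pi < v := by
      have := le_max_right (φ t) ((2 * k - 1) * Real.pi); linarith
    have hv3 : v < 2 * k * Real.pi := by linarith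
    have hmem : v ∈ Icc (φ t) (φ 0) := ⟨hv1, by linarith⟩
    obtain ⟨s, hs, hs2⟩ := intermediate_value_Icc' ht.1 (hφ.mono hsub) hmem
    have h3 := h s (hsub hs)
    rw [hs2] at h3
    have h4 := hneg (k - 1) v (by push_cast; linarith) (by push_cast; linarith)
    linarith
  · by_contra hcon
    push Not at hcon
    set v := (min (φ t) ((2 * k + 2) * Real.pi) + (2 * k + 1) * Real.pi) / 2 with hv
    have hm : (2 * k + 1) * Real.pi < min (φ t) ((2 * k + 2) * Real.pi) := lt_min hcon (by linarith)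
    have hv1 : v ≤ φ t := by have := min_le_left (φ t) ((2 * k + 2) * Real.pi); linarith
    have hv2 : v < (2 * k + 2) * Real.pi := by
      have := min_le_right (φ t) ((2 * k + 2) * Real.pi); linarith
    have hv3 : (2 * k + 1) * Real.pi < v := by linarith
    have hmem : v ∈ Icc (φ 0) (φ t) := ⟨by linarith, hv1⟩
    obtain ⟨s, hs, hs2⟩ := intermediate_value_Icc ht.1 (hφ.mono hsub) hmem
    have h3 := h s (hsub hs)
    rw [hs2] at h3
    have h4 := hneg k v hv3 hv2
    linarith

/-- argument change along a path in the closed upper half plane -/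
lemma arg_change {L : ℝ → ℂ} (hL : ContinuousOn L (Icc 0 1))
    (h : ∀ t ∈ Icc (0 : ℝ) 1, 0 ≤ (Complex.exp (L t)).im) (h0 : (Complex.exp (L 0)).re < 0)
    (h0' : (Complex.exp (L 0)).im = 0) (h1' : (Complex.exp (L 1)).im = 0) :
    (0 < (Complex.exp (L 1)).re → (L 1).im = (L 0).im - Real.pi) ∧
      ((Complex.exp (L 1)).re < 0 → (L 1).im = (L 0).im) := by
  have hpi := Real.pi_pos
  have hφ : ContinuousOn (fun t => (L t).im) (Icc 0 1) :=
    Complex.continuous_im.comp_continuousOn hL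
  have hexp : ∀ t, 0 < Real.exp (L t).re := fun t => Real.exp_pos _
  have hsin : ∀ t ∈ Icc (0 : ℝ) 1, 0 ≤ Real.sin ((fun t => (L t).im) t) := by
    intro t ht
    have h3 := h t ht
    rw [Complex.exp_im] at h3
    exact nonneg_of_mul_nonneg_right h3 (hexp t)
  obtain ⟨k, hk⟩ := sin_nonneg_path hφ hsin
  have hk0 := hk 0 (by simp)
  have hk1 := hk 1 (by simp)
  rw [Complex.exp_re] at h0
  rw [Complex.exp_im] at h0' h1'
  rw [Complex.exp_re]
  have hcos0 : Real.cos (L 0).im < 0 := by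
    by_contra hcon
    push Not at hcon
    have := mul_nonneg (hexp 0).le hcon
    linarith
  have hsin0 : Real.sin (L 0).im = 0 := by
    rcases mul_eq_zero.mp h0' with h3 | h3
    · exact absurd h3 (hexp 0).ne'
    · exact h3
  have hsin1 : Real.sin (L 1).im = 0 := by
    rcases mul_eq_zero.mp h1' with h3 | h3
    · exact absurd h3 (hexp 1).ne'
    · exact h3
  obtain ⟨n0, hn0⟩ := Real.sin_eq_zero_iff.mp hsin0
  obtain ⟨n1, hn1⟩ := Real.sin_eq_zero_iff.mp hsin1
  -- n0 ∈ {2k, 2k+1}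
  have hb0 : 2 * k ≤ n0 ∧ n0 ≤ 2 * k + 1 := by
    rw [← hn0] at hk0
    constructor
    · have h3 : ((2 * k : ℤ) : ℝ) ≤ n0 := by push_cast; exact le_of_mul_le_mul_right hk0.1 hpi
      exact_mod_cast h3
    · have h3 : (n0 : ℝ) ≤ ((2 * k + 1 : ℤ) : ℝ) := by
        push_cast; exact le_of_mul_le_mul_right hk0.2 hpi
      exact_mod_cast h3
  have hb1 : 2 * k ≤ n1 ∧ n1 ≤ 2 * k + 1 := by
    rw [← hn1] at hk1
    constructor
    · have h3 : ((2 * k : ℤ) : ℝ) ≤ n1 := by push_cast; exact le_of_mul_le_mul_right hk1.1 hpi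
      exact_mod_cast h3
    · have h3 : (n1 : ℝ) ≤ ((2 * k + 1 : ℤ) : ℝ) := by
        push_cast; exact le_of_mul_le_mul_right hk1.2 hpi
      exact_mod_cast h3
  have hcosE : Real.cos ((2 * k : ℤ) * Real.pi) = 1 := by
    rw [show (((2 * k : ℤ) : ℝ)) * Real.pi = (k : ℝ) * (2 * Real.pi) by push_cast; ring]
    exact Real.cos_int_mul_two_pi k
  have hcosO : Real.cos ((2 * k + 1 : ℤ) * Real.pi) = -1 := by
    rw [show (((2 * k + 1 : ℤ) : ℝ)) * Real.pi = (k : ℝ) * (2 * Real.pi) + Real.pi by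
      push_cast; ring]
    rw [Real.cos_add_pi, Real.cos_int_mul_two_pi]
  have hn0' : n0 = 2 * k + 1 := by
    rcases (show n0 = 2 * k ∨ n0 = 2 * k + 1 by omega) with h3 | h3
    · rw [← hn0, h3, hcosE] at hcos0
      linarith
    · exact h3
  constructor
  · intro h4
    have hcos1 : 0 < Real.cos (L 1).im := by
      by_contra hcon
      push Not at hcon
      have := mul_nonpos_of_nonneg_of_nonpos (hexp 1).le hcon
      linarith
    have hn1' : n1 = 2 * k := by
      rcases (show n1 = 2 * k ∨ n1 = 2 * k + 1 by omega) with h3 | h3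
      · exact h3
      · rw [← hn1, h3, hcosO] at hcos1
        linarith
    rw [← hn0, ← hn1, hn0', hn1']
    push_cast
    ring
  · intro h4
    have hcos1 : Real.cos (L 1).im < 0 := by
      by_contra hcon
      push Not at hcon
      have := mul_nonneg (hexp 1).le hcon
      linarith
    have hn1' : n1 = 2 * k + 1 := by
      rcases (show n1 = 2 * k ∨ n1 = 2 * k + 1 by omega) with h3 | h3
      · rw [← hn1, h3, hcosE] at hcos1
        linarith
      · exact h3
    rw [← hn0, ← hn1, hn0', hn1']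

/-- **Crossing lemma in the half plane.** -/
theorem crossing {γ δ : ℝ → ℂ} (hγ : ContinuousOn γ (Icc 0 1)) (hδ : ContinuousOn δ (Icc 0 1))
    (hγi : ∀ s ∈ Icc (0 : ℝ) 1, 0 ≤ (γ s).im) (hδi : ∀ s ∈ Icc (0 : ℝ) 1, 0 ≤ (δ s).im)
    {t1 t2 t3 t4 : ℝ} (h12 : t1 < t2) (h23 : t2 < t3) (h34 : t3 < t4)
    (hγ0 : γ 0 = t1) (hγ1 : γ 1 = t3) (hδ0 : δ 0 = t2) (hδ1 : δ 1 = t4) :
    ∃ s ∈ Icc (0 : ℝ) 1, ∃ t ∈ Icc (0 : ℝ) 1, γ s = δ t := by
  by_contra hcon
  push Not at hcon
  set pr : ℝ → ℝ := fun s => (projIcc (0 : ℝ) 1 zero_le_one s : ℝ) with hpr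
  have hprc : Continuous pr := continuous_subtype_val.comp continuous_projIcc
  have hprm : ∀ s, pr s ∈ Icc (0 : ℝ) 1 := fun s => (projIcc (0 : ℝ) 1 zero_le_one s).2
  have hpre : ∀ s ∈ Icc (0 : ℝ) 1, pr s = s := fun s hs => by
    simp only [hpr]; rw [projIcc_of_mem zero_le_one hs]
  have hpr0 : pr 0 = 0 := hpre 0 (by simp)
  have hpr1 : pr 1 = 1 := hpre 1 (by simp)
  have hγc : Continuous (fun s => γ (pr s)) := hγ.comp_continuous hprc hprm
  have hδc : Continuous (fun s => δ (pr s)) := hδ.comp_continuous hprc hprm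
  set F : ℝ × ℝ → ℂ := fun x => γ (pr x.1) - δ (pr x.2) with hF
  have hFc : Continuous F := (hγc.comp continuous_fst).sub (hδc.comp continuous_snd)
  have hF0 : ∀ x, F x ≠ 0 := fun x => sub_ne_zero.mpr (hcon _ (hprm _) _ (hprm _))
  obtain ⟨L, hLc, hL⟩ := exists_log F hFc hF0
  -- the four edges
  have e1 := arg_change (L := fun s => L (s, 0)) (hLc.comp (by fun_prop)).continuousOn
    (by
      intro t ht
      rw [hL]
      simp only [hF, hpr0, hδ0, sub_im, ofReal_im, sub_zero]
      exact hγi _ (hprm _))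
    (by rw [hL]; simp only [hF, hpr0, hδ0, hγ0, sub_re, ofReal_re]; linarith)
    (by rw [hL]; simp [hF, hpr0, hδ0, hγ0])
    (by rw [hL]; simp [hF, hpr0, hpr1, hδ0, hγ1])
  have e1' := e1.1 (by rw [hL]; simp only [hF, hpr0, hpr1, hδ0, hγ1, sub_re, ofReal_re]; linarith)
  -- edge s = 1: use `-conj`-type trick: multiply by -1, i.e. add iπ
  have e2 := arg_change (L := fun t => L (1, t) + Real.pi * I)
    ((hLc.comp (by fun_prop)).add continuous_const).continuousOn
    (by
      intro t ht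
      rw [Complex.exp_add, hL, Complex.exp_pi_mul_I]
      simp only [hF, hpr1, hγ1, mul_neg, mul_one, neg_im, sub_im, ofReal_im, zero_sub, neg_neg]
      exact hδi _ (hprm _))
    (by
      rw [Complex.exp_add, hL, Complex.exp_pi_mul_I]
      simp only [hF, hpr0, hpr1, hγ1, hδ0, mul_neg, mul_one, neg_re, sub_re, ofReal_re]
      linarith)
    (by
      rw [Complex.exp_add, hL, Complex.exp_pi_mul_I]
      simp [hF, hpr0, hpr1, hδ0, hγ1])
    (by
      rw [Complex.exp_add, hL, Complex.exp_pi_mul_I]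
      simp [hF, hpr1, hδ1, hγ1])
  have e2' := e2.1 (by
    rw [Complex.exp_add, hL, Complex.exp_pi_mul_I]
    simp only [hF, hpr1, hγ1, hδ1, mul_neg, mul_one, neg_re, sub_re, ofReal_re]
    linarith)
  have e3 := arg_change (L := fun s => L (s, 1)) (hLc.comp (by fun_prop)).continuousOn
    (by
      intro t ht
      rw [hL]
      simp only [hF, hpr1, hδ1, sub_im, ofReal_im, sub_zero]
      exact hγi _ (hprm _))
    (by rw [hL]; simp only [hF, hpr0, hpr1, hδ1, hγ0, sub_re, ofReal_re]; linarith)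
    (by rw [hL]; simp [hF, hpr0, hpr1, hδ1, hγ0])
    (by rw [hL]; simp [hF, hpr1, hδ1, hγ1])
  have e3' := e3.2 (by rw [hL]; simp only [hF, hpr1, hδ1, hγ1, sub_re, ofReal_re]; linarith)
  -- edge s = 0: `γ(pr 0) - δ(pr t)` lies in the lower half plane, from negative to negative;
  -- conjugate
  have e4 := arg_change (L := fun t => (starRingEnd ℂ) (L (0, t)))
    (Complex.continuous_conj.comp (hLc.comp (by fun_prop))).continuousOn
    (by
      intro t ht
      rw [Complex.exp_conj, hL]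
      simp only [hF, hpr0, hγ0, Complex.conj_im, sub_im, ofReal_im, zero_sub, neg_neg]
      exact hδi _ (hprm _))
    (by
      rw [Complex.exp_conj, hL]
      simp only [hF, hpr0, hγ0, hδ0, Complex.conj_re, sub_re, ofReal_re]
      linarith)
    (by
      rw [Complex.exp_conj, hL]
      simp [hF, hpr0, hδ0, hγ0])
    (by
      rw [Complex.exp_conj, hL]
      simp [hF, hpr0, hpr1, hδ1, hγ0])
  have e4' := e4.2 (by
    rw [Complex.exp_conj, hL]
    simp only [hF, hpr0, hpr1, hγ0, hδ1, Complex.conj_re, sub_re, ofReal_re]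
    linarith)
  simp only [Complex.conj_im, add_im, mul_im, ofReal_re, I_im, mul_one, ofReal_im, I_re,
    mul_zero, add_zero] at e1' e2' e3' e4'
  have hpi := Real.pi_pos
  linarith

end Pool.Agent.Helper61.Nodal
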