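import Pool.Agent.Helper61.Nodal.Fourier

/-!
Fejér kernels, the polynomials `∏ (cos x - cos φ_i)` and averages.
-/

namespace Pool.Agent.Helper61.Nodal

open Complex Set Filter Topology

/-- expansion of a trigonometric polynomial -/
lemma Trig_expand {D N : ℕ} (hN : 2 * D < N) {F : ℝ → ℂ} (hF : F ∈ Trig D) (x : ℝ) :
    F x = ∑ m ∈ Finset.Icc (-(D : ℤ)) D, coef N m F * ee m x := by
  unfold Trig at hF
  induction hF using Submodule.span_induction with
  | zero => simp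
  | add f g _ _ hf hg =>
    rw [Pi.add_apply, hf, hg, ← Finset.sum_add_distrib]
    apply Finset.sum_congr rfl
    intro m _
    rw [map_add, add_mul]
  | smul c f _ hf =>
    rw [Pi.smul_apply, hf, smul_eq_mul, Finset.mul_sum]
    apply Finset.sum_congr rfl
    intro m _
    rw [map_smul, smul_eq_mul, mul_assoc]
  | mem f hf =>
    obtain ⟨l, hl, rfl⟩ := hf
    simp only [Set.mem_ofPred_eq] at hl
    have habs := abs_le.mp hl
    rw [Finset.sum_eq_single l]
    · rw [coef_ee (by simp; omega), if_pos rfl, one_mul]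
    · intro m hm hml
      rw [Finset.mem_Icc] at hm
      rw [coef_ee (by rw [abs_lt]; constructor <;> omega), if_neg (Ne.symm hml), zero_mul]
    · intro h
      exact absurd (Finset.mem_Icc.mpr habs) h

/-- polynomials in `e^{-ix}` of degree at most `D` -/
noncomputable def Neg (D : ℕ) : Submodule ℂ (ℝ → ℂ) :=
  Submodule.span ℂ (ee '' {l : ℤ | -(D : ℤ) ≤ l ∧ l ≤ 0})

lemma ee_mem_Neg {D : ℕ} {l : ℤ} (h1 : -(D : ℤ) ≤ l) (h2 : l ≤ 0) : ee l ∈ Neg D :=
  Submodule.subset_span ⟨l, ⟨h1, h2⟩, rfl⟩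

lemma Neg_mono {D D' : ℕ} (h : D ≤ D') : Neg D ≤ Neg D' := by
  apply Submodule.span_mono
  apply Set.image_mono
  intro l hl
  simp only [Set.mem_ofPred_eq] at hl ⊢
  have : (D : ℤ) ≤ D' := by exact_mod_cast h
  constructor
  · linarith [hl.1]
  · exact hl.2

lemma Neg_mul {D D' : ℕ} {F G : ℝ → ℂ} (hF : F ∈ Neg D) (hG : G ∈ Neg D') :
    F * G ∈ Neg (D + D') := by
  have h1 : F * G ∈ Neg D * Neg D' := Submodule.mul_mem_mul hF hG
  have h2 : Neg D * Neg D' ≤ Neg (D + D') := by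
    unfold Neg
    rw [Submodule.span_mul_span]
    apply Submodule.span_mono
    rintro _ ⟨_, ⟨l, hl, rfl⟩, _, ⟨l', hl', rfl⟩, rfl⟩
    refine ⟨l + l', ?_, ?_⟩
    · simp only [Set.mem_ofPred_eq] at hl hl' ⊢
      push_cast
      constructor <;> linarith [hl.1, hl.2, hl'.1, hl'.2]
    · rw [ee_add]
  exact h2 h1

lemma comb_Neg_mul {D D' N : ℕ} (hN : D + D' < N) {F G : ℝ → ℂ} (hF : F ∈ Neg D)
    (hG : G ∈ Neg D') : comb N 0 (F * G) = comb N 0 F * comb N 0 G := by
  unfold Neg at hF hG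
  induction hF using Submodule.span_induction with
  | zero => simp
  | add f g _ _ hf hg => rw [add_mul, map_add, hf, hg, map_add, add_mul]
  | smul c f _ hf => rw [smul_mul_assoc, map_smul, hf, map_smul, smul_mul_assoc]
  | mem f hf =>
    obtain ⟨l, hl, rfl⟩ := hf
    induction hG using Submodule.span_induction with
    | zero => simp
    | add f g _ _ hf hg => rw [mul_add, map_add, hf, hg, map_add, mul_add]
    | smul c f _ hf => rw [mul_smul_comm, map_smul, hf, map_smul, mul_smul_comm]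
    | mem f hf =>
      obtain ⟨m, hm, rfl⟩ := hf
      simp only [Set.mem_ofPred_eq] at hl hm
      have a1 : |l| < N := by rw [abs_lt]; constructor <;> omega
      have a2 : |m| < N := by rw [abs_lt]; constructor <;> omega
      have a3 : |l + m| < N := by rw [abs_lt]; constructor <;> omega
      rw [← ee_add, comb_ee_small 0 a1, comb_ee_small 0 a2, comb_ee_small 0 a3]
      by_cases h1 : l = 0
      · by_cases h2 : m = 0
        · simp [h1, h2]
        · simp [h1, h2]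
      · rw [if_neg (by omega), if_neg h1, zero_mul]

lemma comb_one {N : ℕ} (hN : N ≠ 0) (θ : ℝ) : comb N θ 1 = 1 := by
  rw [← ee_zero]
  have := comb_ee_mul hN θ 0
  rw [mul_zero, ee_zero_apply] at this
  exact this

lemma comb_Neg_prod {ι : Type*} (s : Finset ι) (D : ℕ) (G : ι → ℝ → ℂ)
    (hG : ∀ i ∈ s, G i ∈ Neg D) :
    (∏ i ∈ s, G i) ∈ Neg (s.card * D) ∧
      ∀ N : ℕ, s.card * D < N → comb N 0 (∏ i ∈ s, G i) = ∏ i ∈ s, comb N 0 (G i) := by
  classical
  induction s using Finset.induction_on with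
  | empty =>
    constructor
    · rw [Finset.prod_empty, ← ee_zero]
      exact ee_mem_Neg (by simp) le_rfl
    · intro N hN
      rw [Finset.prod_empty, Finset.prod_empty, comb_one (by omega)]
  | insert a s ha ih =>
    obtain ⟨ih1, ih2⟩ := ih (fun i hi => hG i (Finset.mem_insert_of_mem hi))
    have hGa := hG a (Finset.mem_insert_self a s)
    constructor
    · rw [Finset.prod_insert ha, Finset.card_insert_of_notMem ha]
      have := Neg_mul hGa ih1
      rwa [show D + s.card * D = (s.card + 1) * D by ring] at this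
    · intro N hN
      rw [Finset.card_insert_of_notMem ha] at hN
      rw [Finset.prod_insert ha, Finset.prod_insert ha,
        comb_Neg_mul (by rw [show D + s.card * D = (s.card + 1) * D by ring]; exact hN) hGa ih1,
        ih2 N (by nlinarith)]

/-- real average over the `N`-grid -/
noncomputable def ravg (N : ℕ) (f : ℝ → ℝ) : ℝ :=
  (1 / (N : ℝ)) * ∑ k ∈ Finset.range N, f (2 * Real.pi * k / N)

lemma ravg_mono {N : ℕ} {f g : ℝ → ℝ} (h : ∀ x, f x ≤ g x) : ravg N f ≤ ravg N g := by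
  unfold ravg
  gcongr
  exact h _

lemma ravg_add (N : ℕ) (f g : ℝ → ℝ) : ravg N (fun x => f x + g x) = ravg N f + ravg N g := by
  unfold ravg
  rw [Finset.sum_add_distrib]
  ring

lemma ravg_const_mul (N : ℕ) (c : ℝ) (f : ℝ → ℝ) :
    ravg N (fun x => c * f x) = c * ravg N f := by
  unfold ravg
  rw [← Finset.mul_sum]
  ring

lemma ravg_const {N : ℕ} (hN : N ≠ 0) (c : ℝ) : ravg N (fun _ => c) = c := by
  unfold ravg
  rw [Finset.sum_const, Finset.card_range, nsmul_eq_mul]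
  have : (N : ℝ) ≠ 0 := by exact_mod_cast hN
  field_simp

lemma ravg_sum {ι : Type*} (N : ℕ) (s : Finset ι) (f : ι → ℝ → ℝ) :
    ravg N (fun x => ∑ i ∈ s, f i x) = ∑ i ∈ s, ravg N (f i) := by
  unfold ravg
  rw [Finset.sum_comm, Finset.mul_sum]

lemma comb_ofReal (N : ℕ) (f : ℝ → ℝ) : comb N 0 (fun x => (f x : ℂ)) = (ravg N f : ℂ) := by
  rw [comb_apply, ravg]
  push_cast
  congr 1
  apply Finset.sum_congr rfl
  intro k _
  rw [zero_add]

lemma norm_comb_le (N : ℕ) (F : ℝ → ℂ) : ‖comb N 0 F‖ ≤ ravg N (fun x => ‖F x‖) := by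
  rw [comb_apply, ravg, norm_mul]
  have h2 : ‖(1 / (N : ℂ))‖ = 1 / N := by simp
  rw [h2]
  gcongr
  refine (norm_sum_le _ _).trans ?_
  apply le_of_eq
  apply Finset.sum_congr rfl
  intro k _
  rw [zero_add]

/-- Cauchy–Schwarz for the average -/
lemma ravg_sq_le {N : ℕ} (f : ℝ → ℝ) : (ravg N f) ^ 2 ≤ ravg N (fun x => (f x) ^ 2) := by
  by_cases hN : N = 0
  · subst hN; simp [ravg]
  unfold ravg
  have hN' : (0 : ℝ) < N := by positivity
  have h := sq_sum_le_card_mul_sum_sq (s := Finset.range N)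
    (f := fun k : ℕ => f (2 * Real.pi * k / N))
  rw [Finset.card_range] at h
  rw [mul_pow]
  calc (1 / (N : ℝ)) ^ 2 * (∑ k ∈ Finset.range N, f (2 * Real.pi * k / N)) ^ 2
      ≤ (1 / (N : ℝ)) ^ 2 * (N * ∑ k ∈ Finset.range N, f (2 * Real.pi * k / N) ^ 2) := by gcongr
    _ = _ := by field_simp

lemma ravg_le_sqrt {N : ℕ} {f : ℝ → ℝ} {B : ℝ} (hB : ravg N (fun x => (f x) ^ 2) ≤ B) :
    ravg N f ≤ Real.sqrt B :=
  Real.le_sqrt_of_sq_le ((ravg_sq_le f).trans hB)

/-- `Q(x) = ∏_{i<j} (cos x - cos φ_i)` -/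
noncomputable def QQ (j : ℕ) (φ : ℕ → ℝ) (x : ℝ) : ℝ :=
  ∏ i ∈ Finset.range j, (Real.cos x - Real.cos (φ i))

/-- complex version -/
noncomputable def QC (j : ℕ) (φ : ℕ → ℝ) : ℝ → ℂ := fun x => ((QQ j φ x : ℝ) : ℂ)

lemma QC_mem (j : ℕ) (φ : ℕ → ℝ) : QC j φ ∈ Trig j := by
  induction j with
  | zero =>
    have : QC 0 φ = 1 := by
      funext x
      simp [QC, QQ]
    rw [this]
    exact one_mem_Trig 0
  | succ j ih =>
    have h : QC (j + 1) φ = QC j φ * (fun x => ((Real.cos x - Real.cos (φ j) : ℝ) : ℂ)) := by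
      funext x
      simp only [QC, QQ, Finset.prod_range_succ, Complex.ofReal_mul, Pi.mul_apply]
    rw [h]
    apply Trig_mul ih
    have h1 := (Trig 1).sub_mem (cos_mem_Trig (le_refl 1)) (const_mem_Trig 1 (Real.cos (φ j) : ℂ))
    convert h1 using 1
    funext x
    simp

lemma QQ_abs_le (j : ℕ) (φ : ℕ → ℝ) (x : ℝ) : |QQ j φ x| ≤ 2 ^ j := by
  unfold QQ
  rw [Finset.abs_prod]
  calc ∏ i ∈ Finset.range j, |Real.cos x - Real.cos (φ i)| ≤ ∏ i ∈ Finset.range j, (2 : ℝ) := by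
        apply Finset.prod_le_prod
        · intro i _; exact abs_nonneg _
        · intro i _
          rw [abs_le]
          constructor <;>
          linarith [Real.cos_le_one x, Real.neg_one_le_cos x, Real.cos_le_one (φ i),
            Real.neg_one_le_cos (φ i)]
    _ = 2 ^ j := by simp

lemma norm_QC_le (j : ℕ) (φ : ℕ → ℝ) (x : ℝ) : ‖QC j φ x‖ ≤ 2 ^ j := by
  rw [QC, Complex.norm_real]
  exact QQ_abs_le j φ x

lemma QC_factor (j : ℕ) (φ : ℕ → ℝ) (x : ℝ) :
    QC j φ x = (1 / 2) ^ j * ee j x * ∏ i ∈ Finset.range j,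
      ((1 - ee (-1) x * ee 1 (φ i)) * (1 - ee (-1) x * ee 1 (-φ i))) := by
  induction j with
  | zero => simp [QC, QQ, ee]
  | succ j ih =>
    have h : QC (j + 1) φ x = QC j φ x * ((Real.cos x : ℂ) - Real.cos (φ j)) := by
      simp only [QC, QQ, Finset.prod_range_succ, Complex.ofReal_mul, Complex.ofReal_sub]
    rw [h, ih, Finset.prod_range_succ]
    have hx : (Real.cos x : ℂ) = (ee 1 x + ee (-1) x) / 2 := by
      have := cos_eq_ee 1 x
      simpa using this
    have hφ : (Real.cos (φ j) : ℂ) = (ee 1 (φ j) + ee (-1) (φ j)) / 2 := by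
      have := cos_eq_ee 1 (φ j)
      simpa using this
    rw [hx, hφ, ee_neg_arg]
    have e1 : ee ((j + 1 : ℕ) : ℤ) x = ee j x * ee 1 x := by
      rw [← ee_add_apply]; push_cast; rfl
    have e2 : ee 1 x * ee (-1) x = 1 := by
      rw [← ee_add_apply]; simp [ee]
    have e3 : ee 1 (φ j) * ee (-1) (φ j) = 1 := by
      rw [← ee_add_apply]; simp [ee]
    rw [e1, pow_succ]
    have key : (ee 1 x + ee (-1) x) / 2 - (ee 1 (φ j) + ee (-1) (φ j)) / 2 =
        1 / 2 * ee 1 x * ((1 - ee (-1) x * ee 1 (φ j)) * (1 - ee (-1) x * ee (-1) (φ j))) := by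
      have : ee 1 x * ((1 - ee (-1) x * ee 1 (φ j)) * (1 - ee (-1) x * ee (-1) (φ j))) =
        ee 1 x - (ee 1 x * ee (-1) x) * (ee 1 (φ j) + ee (-1) (φ j)) +
        (ee 1 x * ee (-1) x) * ee (-1) x * (ee 1 (φ j) * ee (-1) (φ j)) := by ring
      rw [mul_assoc, this, e2, e3]
      ring
    rw [key]
    ring

lemma one_sub_mem_Neg (c : ℂ) : ((1 : ℝ → ℂ) - c • ee (-1)) ∈ Neg 1 := by
  apply (Neg 1).sub_mem
  · rw [← ee_zero]; exact ee_mem_Neg (by simp) le_rfl
  · exact (Neg 1).smul_mem _ (ee_mem_Neg (by simp) (by simp))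

lemma comb_one_sub {N : ℕ} (hN : 1 < N) (c : ℂ) : comb N 0 ((1 : ℝ → ℂ) - c • ee (-1)) = 1 := by
  rw [map_sub, map_smul, comb_one (by omega), comb_ee_small 0 (by simp; omega)]
  simp

/-- the index set of the `2j` linear factors -/
def idx (j : ℕ) : Finset (ℕ × Bool) := Finset.range j ×ˢ Finset.univ

/-- unimodular constants -/
noncomputable def cst (φ : ℕ → ℝ) (i : ℕ × Bool) : ℂ := ee 1 (if i.2 then φ i.1 else - φ i.1)

lemma norm_cst (φ : ℕ → ℝ) (i : ℕ × Bool) : ‖cst φ i‖ = 1 := norm_ee _ _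

lemma card_idx (j : ℕ) : (idx j).card = 2 * j := by
  unfold idx
  rw [Finset.card_product]
  simp [mul_comm]

lemma QC_factor' (j : ℕ) (φ : ℕ → ℝ) (x : ℝ) :
    QC j φ x = (1 / 2) ^ j * ee j x * ∏ i ∈ idx j, (1 - cst φ i * ee (-1) x) := by
  rw [QC_factor, idx, Finset.prod_product]
  congr 1
  apply Finset.prod_congr rfl
  intro i _
  rw [Fintype.prod_bool]
  simp only [cst, if_true, Bool.false_eq_true, if_false]
  ring

/-- top coefficient of `Q` -/
lemma coef_QC_top {j N : ℕ} (hN : 2 * j + 1 < N) (φ : ℕ → ℝ) :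
    coef N j (QC j φ) = (1 / 2) ^ j := by
  rw [coef_apply]
  have h : QC j φ * ee (-j) = ((1 / 2 : ℂ) ^ j) • ∏ i ∈ idx j, ((1 : ℝ → ℂ) - cst φ i • ee (-1)) := by
    funext x
    rw [Pi.mul_apply, QC_factor', Pi.smul_apply, Finset.prod_apply, smul_eq_mul]
    simp only [Pi.sub_apply, Pi.one_apply, Pi.smul_apply, smul_eq_mul]
    have e2 : ee j x * ee (-j) x = 1 := by
      rw [← ee_add_apply]; simp [ee]
    calc (1 / 2 : ℂ) ^ j * ee j x * (∏ i ∈ idx j, (1 - cst φ i * ee (-1) x)) * ee (-j) x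
        = (1 / 2 : ℂ) ^ j * (ee j x * ee (-j) x) * (∏ i ∈ idx j, (1 - cst φ i * ee (-1) x)) := by
          ring
      _ = _ := by rw [e2, mul_one]
  rw [h, map_smul]
  obtain ⟨_, h2⟩ := comb_Neg_prod (idx j) 1 (fun i => (1 : ℝ → ℂ) - cst φ i • ee (-1))
    (fun i _ => one_sub_mem_Neg _)
  rw [h2 N (by rw [card_idx]; omega)]
  rw [Finset.prod_congr rfl (fun i _ => comb_one_sub (by omega) _)]
  simp

/-- Fejér kernel -/
noncomputable def fej (L : ℕ) : ℝ → ℂ := fun x =>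
  ∑ l ∈ Finset.Icc (-(L : ℤ)) L, ((1 - |(l : ℝ)| / L : ℝ) : ℂ) * ee l x

lemma dirichlet_sq (L : ℕ) (x : ℝ) :
    (∑ l ∈ Finset.range L, ee l x) * (∑ l ∈ Finset.range L, ee (-(l : ℤ)) x) =
      ∑ l ∈ Finset.Icc (-(L : ℤ)) L, (((L : ℝ) - |(l : ℝ)| : ℝ) : ℂ) * ee l x := by
  induction L with
  | zero => simp
  | succ L ih =>
    rw [Finset.sum_range_succ, Finset.sum_range_succ]
    have hIcc : Finset.Icc (-((L + 1 : ℕ) : ℤ)) ((L + 1 : ℕ) : ℤ) =
        insert (-((L + 1 : ℕ) : ℤ)) (insert ((L + 1 : ℕ) : ℤ) (Finset.Icc (-(L : ℤ)) L)) := by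
      ext y
      simp only [Finset.mem_Icc, Finset.mem_insert]
      push_cast
      constructor
      · intro h; omega
      · intro h; omega
    rw [hIcc, Finset.sum_insert, Finset.sum_insert]
    rotate_left
    · simp
    · simp only [Finset.mem_insert, Finset.mem_Icc]; push_cast; omega
    have z1 : (((L + 1 : ℕ) : ℝ) - |((-((L + 1 : ℕ) : ℤ) : ℤ) : ℝ)|) = 0 := by
      push_cast
      rw [abs_of_nonpos (by linarith)]
      ring
    have z2 : (((L + 1 : ℕ) : ℝ) - |((((L + 1 : ℕ) : ℤ) : ℤ) : ℝ)|) = 0 := by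
      push_cast
      rw [abs_of_nonneg (by positivity)]
      ring
    rw [z1, z2]
    simp only [Complex.ofReal_zero, zero_mul, zero_add]
    -- the Dirichlet kernel
    have hD : ∀ M : ℕ, ∑ l ∈ Finset.Icc (-(M : ℤ)) M, ee l x =
        1 + ∑ l ∈ Finset.range M, (ee ((l : ℤ) + 1) x + ee (-((l : ℤ) + 1)) x) := by
      intro M
      induction M with
      | zero => simp [ee_zero_apply]
      | succ M ihM =>
        have hIcc : Finset.Icc (-((M + 1 : ℕ) : ℤ)) ((M + 1 : ℕ) : ℤ) =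
            insert (-((M + 1 : ℕ) : ℤ)) (insert ((M + 1 : ℕ) : ℤ)
              (Finset.Icc (-(M : ℤ)) M)) := by
          ext y
          simp only [Finset.mem_Icc, Finset.mem_insert]
          push_cast
          constructor
          · intro h; omega
          · intro h; omega
        rw [hIcc, Finset.sum_insert, Finset.sum_insert, ihM, Finset.sum_range_succ]
        · push_cast; ring
        · simp
        · simp only [Finset.mem_insert, Finset.mem_Icc]; push_cast; omega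
    have hsplit : ∑ l ∈ Finset.Icc (-(L : ℤ)) L, ((((L + 1 : ℕ) : ℝ) - |(l : ℝ)| : ℝ) : ℂ) * ee l x
        = ∑ l ∈ Finset.Icc (-(L : ℤ)) L, (((L : ℝ) - |(l : ℝ)| : ℝ) : ℂ) * ee l x +
          ∑ l ∈ Finset.Icc (-(L : ℤ)) L, ee l x := by
      rw [← Finset.sum_add_distrib]
      apply Finset.sum_congr rfl
      intro l _
      push_cast
      ring
    rw [hsplit, ← ih, hD L]
    have hP : ee L x * ee (-L) x = 1 := by
      rw [← ee_add_apply]; simp [ee]
    have hA : (∑ l ∈ Finset.range L, ee l x) * ee (-L) x =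
        ∑ l ∈ Finset.range L, ee (-((l : ℤ) + 1)) x := by
      rw [Finset.sum_mul, ← Finset.sum_range_reflect]
      apply Finset.sum_congr rfl
      intro l hl
      rw [Finset.mem_range] at hl
      rw [← ee_add_apply]
      congr 1
      omega
    have hB : ee L x * (∑ l ∈ Finset.range L, ee (-(l : ℤ)) x) =
        ∑ l ∈ Finset.range L, ee ((l : ℤ) + 1) x := by
      rw [Finset.mul_sum, ← Finset.sum_range_reflect]
      apply Finset.sum_congr rfl
      intro l hl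
      rw [Finset.mem_range] at hl
      rw [← ee_add_apply]
      congr 1
      omega
    rw [Finset.sum_add_distrib, ← hA, ← hB, ← hP]
    ring

lemma fej_eq {L : ℕ} (hL : L ≠ 0) (x : ℝ) :
    fej L x = (((1 / (L : ℝ)) * ‖∑ l ∈ Finset.range L, ee l x‖ ^ 2 : ℝ) : ℂ) := by
  have hL' : (L : ℂ) ≠ 0 := by exact_mod_cast hL
  have h1 : (starRingEnd ℂ) (∑ l ∈ Finset.range L, ee l x) =
      ∑ l ∈ Finset.range L, ee (-(l : ℤ)) x := by
    rw [map_sum]
    exact Finset.sum_congr rfl (fun l _ => conj_ee _ _)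
  have h2 := dirichlet_sq L x
  rw [← h1, Complex.mul_conj, Complex.normSq_eq_norm_sq] at h2
  push_cast at h2 ⊢
  rw [h2, Finset.mul_sum, fej]
  apply Finset.sum_congr rfl
  intro l _
  push_cast
  field_simp

/-- real Fejér kernel -/
noncomputable def fejR (L : ℕ) (x : ℝ) : ℝ := (1 / (L : ℝ)) * ‖∑ l ∈ Finset.range L, ee l x‖ ^ 2

lemma fejR_nonneg (L : ℕ) (x : ℝ) : 0 ≤ fejR L x := by
  unfold fejR; positivity

/-- the test function `Q(x) K_L(x - x0)` -/
noncomputable def tst (j : ℕ) (φ : ℕ → ℝ) (L : ℕ) (x0 : ℝ) : ℝ → ℂ :=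
  fun x => ((QQ j φ x * fejR L (x - x0) : ℝ) : ℂ)

lemma tst_eq (j : ℕ) (φ : ℕ → ℝ) {L : ℕ} (hL : L ≠ 0) (x0 : ℝ) :
    tst j φ L x0 = ∑ l ∈ Finset.Icc (-(L : ℤ)) L,
      (((1 - |(l : ℝ)| / L : ℝ) : ℂ) * ee (-l) x0) • (QC j φ * ee l) := by
  funext x
  rw [tst, Complex.ofReal_mul, fejR, ← fej_eq hL, fej, Finset.mul_sum, Finset.sum_apply]
  apply Finset.sum_congr rfl
  intro l _
  rw [Pi.smul_apply, Pi.mul_apply, smul_eq_mul, sub_eq_add_neg x x0, ee_add_arg, ee_neg_arg, QC]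
  ring

lemma tst_mem (j : ℕ) (φ : ℕ → ℝ) {L : ℕ} (hL : L ≠ 0) (x0 : ℝ) :
    tst j φ L x0 ∈ Trig (j + L) := by
  rw [tst_eq j φ hL]
  apply Submodule.sum_mem
  intro l hl
  rw [Finset.mem_Icc] at hl
  apply Submodule.smul_mem
  apply Trig_mul (QC_mem j φ)
  exact ee_mem_Trig (abs_le.mpr hl)

lemma coef_tst (j : ℕ) (φ : ℕ → ℝ) {L : ℕ} (hL : L ≠ 0) (x0 : ℝ) (N : ℕ) (i : ℤ) :
    coef N i (tst j φ L x0) = ∑ l ∈ Finset.Icc (-(L : ℤ)) L,
      (((1 - |(l : ℝ)| / L : ℝ) : ℂ) * ee (-l) x0) * coef N (i - l) (QC j φ) := by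
  rw [tst_eq j φ hL, map_sum]
  apply Finset.sum_congr rfl
  intro l _
  rw [map_smul, coef_mul_ee, smul_eq_mul]

/-- the Fejér mean approximates `e_{-i}(x0) Q(x0)` -/
lemma coef_tst_approx (j : ℕ) (φ : ℕ → ℝ) {L : ℕ} (hL : L ≠ 0) (x0 : ℝ) {N : ℕ} (i : ℕ)
    (hi : i + j ≤ L) (hN : L + i + j < N) :
    ‖coef N i (tst j φ L x0) - ee (-i) x0 * QC j φ x0‖ ≤
      (2 * j + 1) * (i + j) * 2 ^ j / L := by
  have hLr : (0 : ℝ) < L := by positivity
  have h1 : ee (-i) x0 * QC j φ x0 = ∑ l ∈ Finset.Icc ((i : ℤ) - j) (i + j),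
      ee (-l) x0 * coef N (i - l) (QC j φ) := by
    rw [Trig_expand (N := N) (D := j) (by omega) (QC_mem j φ) x0, Finset.mul_sum]
    apply Finset.sum_bij' (fun m _ => (i : ℤ) - m) (fun l _ => (i : ℤ) - l)
    · intro m hm; rw [Finset.mem_Icc] at hm ⊢; omega
    · intro m hm; rw [Finset.mem_Icc] at hm ⊢; omega
    · intro m _; ring
    · intro m _; ring
    · intro m hm
      rw [sub_sub_cancel, show -((i : ℤ) - m) = -i + m by ring, ee_add_apply]
      ring
  have h2 : coef N i (tst j φ L x0) = ∑ l ∈ Finset.Icc ((i : ℤ) - j) (i + j),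
      (((1 - |(l : ℝ)| / L : ℝ) : ℂ) * ee (-l) x0) * coef N (i - l) (QC j φ) := by
    rw [coef_tst j φ hL]
    symm
    apply Finset.sum_subset
    · intro l hl
      rw [Finset.mem_Icc] at hl ⊢
      omega
    · intro l hl hl'
      rw [Finset.mem_Icc] at hl hl'
      rw [coef_eq_zero (D := j) (QC_mem j φ), mul_zero]
      · rw [lt_abs]; omega
      · have : |(i : ℤ) - l| ≤ i + L := by rw [abs_le]; omega
        omega
  rw [h1, h2, ← Finset.sum_sub_distrib]
  refine (norm_sum_le _ _).trans ?_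
  have h3 : ∀ l ∈ Finset.Icc ((i : ℤ) - j) (i + j),
      ‖(((1 - |(l : ℝ)| / L : ℝ) : ℂ) * ee (-l) x0) * coef N (i - l) (QC j φ) -
        ee (-l) x0 * coef N (i - l) (QC j φ)‖ ≤ (i + j) * 2 ^ j / L := by
    intro l hl
    rw [Finset.mem_Icc] at hl
    have h4 : (((1 - |(l : ℝ)| / L : ℝ) : ℂ) * ee (-l) x0) * coef N (i - l) (QC j φ) -
        ee (-l) x0 * coef N (i - l) (QC j φ) =
        ((-(|(l : ℝ)| / L) : ℝ) : ℂ) * (ee (-l) x0 * coef N (i - l) (QC j φ)) := by
      push_cast; ring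
    rw [h4, norm_mul, norm_mul, norm_ee, one_mul, Complex.norm_real, norm_neg, Real.norm_eq_abs,
      abs_of_nonneg (by positivity)]
    have h5 : |(l : ℝ)| ≤ i + j := by
      have : |l| ≤ i + j := by rw [abs_le]; constructor <;> omega
      exact_mod_cast this
    have h6 : ‖coef N (i - l) (QC j φ)‖ ≤ 2 ^ j := norm_coef_le (norm_QC_le j φ)
    calc |(l : ℝ)| / L * ‖coef N (i - l) (QC j φ)‖ ≤ (i + j) / L * 2 ^ j := by gcongr
      _ = _ := by ring
  refine (Finset.sum_le_sum h3).trans ?_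
  rw [Finset.sum_const, nsmul_eq_mul, Int.card_Icc]
  have h7 : (((i : ℤ) + j + 1 - (i - j)).toNat : ℝ) = 2 * j + 1 := by
    have : ((i : ℤ) + j + 1 - (i - j)).toNat = 2 * j + 1 := by omega
    rw [this]; push_cast; ring
  rw [h7]
  apply le_of_eq
  ring

end Pool.Agent.Helper61.Nodal
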