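import Pool.Agent.Helper61.Nodal.Fejer

/-!
First order estimate.
-/

namespace Pool.Agent.Helper61.Nodal

open Complex Set Filter Topology

/-- cosine polynomial -/
noncomputable def WW (q : ℕ) (w : ℕ → ℝ) (x : ℝ) : ℝ :=
  ∑ p ∈ Finset.range (q + 1), w p * Real.cos (p * x)

lemma comb_re_nonneg {N : ℕ} {θ : ℝ} {F : ℝ → ℂ} (h : ∀ x, 0 ≤ (F x).re) :
    0 ≤ (comb N θ F).re := by
  rw [comb_apply]
  have : (1 / (N : ℂ)) = ((1 / (N : ℝ) : ℝ) : ℂ) := by push_cast; rfl
  rw [this, Complex.re_ofReal_mul, Complex.re_sum]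
  exact mul_nonneg (by positivity) (Finset.sum_nonneg (fun k _ => h _))

lemma comb_WW_re {q D N : ℕ} (hq : 2 * D < q) (hN : 2 * D < N) (w : ℕ → ℝ) (θ : ℝ) {f : ℝ → ℝ}
    (hF : (fun x => (f x : ℂ)) ∈ Trig D) :
    (comb q θ (fun x => ((WW q w x * f x : ℝ) : ℂ))).re =
      ∑ i ∈ Finset.range (D + 1), w i * (coef N i (fun x => (f x : ℂ))).re +
      (ee 1 θ * ∑ i ∈ Finset.range (D + 1), (w (q - i) : ℂ) * coef N i (fun x => (f x : ℂ))).re := by
  have h := comb_mul hq hN w θ hF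
  have h1 : ((fun x => ((∑ p ∈ Finset.range (q + 1), w p * Real.cos (p * x) : ℝ) : ℂ)) *
      fun x => (f x : ℂ)) = (fun x => ((WW q w x * f x : ℝ) : ℂ)) := by
    funext x
    rw [Pi.mul_apply, WW, Complex.ofReal_mul]
  rw [h1] at h
  rw [h, Complex.add_re, Complex.re_sum, Complex.re_sum, Finset.mul_sum, Complex.re_sum]
  congr 1
  · apply Finset.sum_congr rfl
    intro i _
    rw [coef_neg_eq_conj (fun x => Complex.ofReal_im _)]
    have : ((w i : ℂ) / 2) = ((w i / 2 : ℝ) : ℂ) := by push_cast; rfl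
    rw [this, Complex.re_ofReal_mul, Complex.add_re, Complex.conj_re]
    ring
  · apply Finset.sum_congr rfl
    intro i _
    rw [coef_neg_eq_conj (fun x => Complex.ofReal_im _), ← conj_ee, ← map_mul]
    have : ((w (q - i) : ℂ) / 2) = ((w (q - i) / 2 : ℝ) : ℂ) := by push_cast; rfl
    rw [this, Complex.re_ofReal_mul, Complex.add_re, Complex.conj_re, mul_left_comm,
      Complex.re_ofReal_mul]
    ring

/-- the first order inequality -/
lemma pos_ineq {q D N : ℕ} (hq : 2 * D < q) (hN : 2 * D < N) {w : ℕ → ℝ} {f : ℝ → ℝ}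
    (hF : (fun x => (f x : ℂ)) ∈ Trig D) (hpos : ∀ x, 0 ≤ WW q w x * f x) :
    ‖∑ i ∈ Finset.range (D + 1), (w (q - i) : ℂ) * coef N i (fun x => (f x : ℂ))‖ ≤
      ∑ i ∈ Finset.range (D + 1), w i * (coef N i (fun x => (f x : ℂ))).re := by
  set Z := ∑ i ∈ Finset.range (D + 1), (w (q - i) : ℂ) * coef N i (fun x => (f x : ℂ)) with hZ
  have h := comb_WW_re hq hN w (Real.pi - Complex.arg Z) hF
  have h0 : 0 ≤ (comb q (Real.pi - Complex.arg Z) (fun x => ((WW q w x * f x : ℝ) : ℂ))).re :=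
    comb_re_nonneg (fun x => by rw [Complex.ofReal_re]; exact hpos x)
  rw [h, ← hZ] at h0
  have h2 : ee 1 (Real.pi - Complex.arg Z) * Z = -(‖Z‖ : ℂ) := by
    have h3 : Z = ‖Z‖ * Complex.exp (Complex.arg Z * I) := (Complex.norm_mul_exp_arg_mul_I Z).symm
    have h4 : ee 1 (Real.pi - Complex.arg Z) * Complex.exp (Complex.arg Z * I) = -1 := by
      rw [ee_apply, ← Complex.exp_add]
      have : ((1 : ℤ) : ℂ) * ((Real.pi - Complex.arg Z : ℝ) : ℂ) * I + Complex.arg Z * I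
          = Real.pi * I := by
        push_cast; ring
      rw [this, Complex.exp_pi_mul_I]
    calc ee 1 (Real.pi - Complex.arg Z) * Z
        = ee 1 (Real.pi - Complex.arg Z) * (‖Z‖ * Complex.exp (Complex.arg Z * I)) := by
          rw [← h3]
      _ = ‖Z‖ * (ee 1 (Real.pi - Complex.arg Z) * Complex.exp (Complex.arg Z * I)) := by ring
      _ = _ := by rw [h4]; ring
  rw [h2, Complex.neg_re, Complex.ofReal_re] at h0
  linarith

/-- averaged geometric sums -/
noncomputable def kap (n : ℕ) (c : ℂ) : ℝ → ℂ :=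
  ∑ l ∈ Finset.range n, (((1 - (l : ℝ) / n : ℝ) : ℂ) * c ^ l) • ee (-(l : ℤ))

/-- the error term -/
noncomputable def del (n : ℕ) (c : ℂ) (x : ℝ) : ℂ :=
  (1 / (n : ℂ)) * ∑ l ∈ Finset.range n, (c * ee (-1) x) ^ (l + 1)

lemma kap_apply (n : ℕ) (c : ℂ) (x : ℝ) :
    kap n c x = ∑ l ∈ Finset.range n, ((1 - (l : ℝ) / n : ℝ) : ℂ) * (c * ee (-1) x) ^ l := by
  rw [kap, Finset.sum_apply]
  apply Finset.sum_congr rfl
  intro l _
  rw [Pi.smul_apply, smul_eq_mul, mul_pow, ee_neg_nat_eq_pow]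
  ring

lemma kap_mem (n : ℕ) (c : ℂ) : kap n c ∈ Neg n := by
  unfold kap
  apply Submodule.sum_mem
  intro l hl
  rw [Finset.mem_range] at hl
  apply Submodule.smul_mem
  apply ee_mem_Neg <;> omega

lemma comb_kap {n N : ℕ} (hn : n ≠ 0) (hN : n < N) (c : ℂ) : comb N 0 (kap n c) = 1 := by
  unfold kap
  rw [map_sum, Finset.sum_eq_single 0]
  · rw [map_smul]
    simp only [Nat.cast_zero, zero_div, sub_zero, Complex.ofReal_one, pow_zero, mul_one, neg_zero,
      one_smul]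
    rw [ee_zero, comb_one (by omega)]
  · intro l hl hl0
    rw [Finset.mem_range] at hl
    rw [map_smul, comb_ee_small 0 (by rw [abs_lt]; constructor <;> omega), if_neg (by omega),
      smul_zero]
  · intro h
    exact absurd (Finset.mem_range.mpr (by omega)) h

lemma kap_mul {n : ℕ} (hn : n ≠ 0) (c : ℂ) (x : ℝ) :
    (1 - c * ee (-1) x) * kap n c x = 1 - del n c x := by
  rw [kap_apply, del]
  set z := c * ee (-1) x
  have hn' : (n : ℂ) ≠ 0 := by exact_mod_cast hn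
  have key : ∀ m : ℕ, (1 - z) * ∑ l ∈ Finset.range m, ((m : ℂ) - l) * z ^ l =
      m - ∑ l ∈ Finset.range m, z ^ (l + 1) := by
    intro m
    induction m with
    | zero => simp
    | succ m ih =>
      have h1 : ∑ l ∈ Finset.range (m + 1), (((m + 1 : ℕ) : ℂ) - l) * z ^ l =
          ∑ l ∈ Finset.range m, ((m : ℂ) - l) * z ^ l + ∑ l ∈ Finset.range (m + 1), z ^ l := by
        rw [Finset.sum_range_succ, Finset.sum_range_succ (fun l => z ^ l), ← add_assoc,
          ← Finset.sum_add_distrib]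
        congr 1
        · apply Finset.sum_congr rfl
          intro l _
          push_cast; ring
        · push_cast; ring
      rw [h1, mul_add, ih, mul_comm (1 - z) (∑ l ∈ Finset.range (m + 1), z ^ l),
        geom_sum_mul_neg, Finset.sum_range_succ (fun l => z ^ (l + 1))]
      push_cast
      ring
  have h2 : ∑ l ∈ Finset.range n, ((1 - (l : ℝ) / n : ℝ) : ℂ) * z ^ l =
      (1 / (n : ℂ)) * ∑ l ∈ Finset.range n, ((n : ℂ) - l) * z ^ l := by
    rw [Finset.mul_sum]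
    apply Finset.sum_congr rfl
    intro l _
    push_cast
    field_simp
  rw [h2, mul_left_comm, key n]
  field_simp

lemma norm_kap_le (n : ℕ) {c : ℂ} (hc : ‖c‖ = 1) (x : ℝ) : ‖kap n c x‖ ≤ n := by
  rw [kap_apply]
  refine (norm_sum_le _ _).trans ?_
  have : ∀ l ∈ Finset.range n, ‖((1 - (l : ℝ) / n : ℝ) : ℂ) * (c * ee (-1) x) ^ l‖ ≤ 1 := by
    intro l hl
    rw [Finset.mem_range] at hl
    rw [norm_mul, norm_pow, norm_mul, norm_ee, hc, mul_one, one_pow, mul_one, Complex.norm_real,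
      Real.norm_eq_abs, abs_le]
    have hn : (0 : ℝ) < n := by
      have : 0 < n := by omega
      exact_mod_cast this
    have h1 : (l : ℝ) / n ≤ 1 := by
      rw [div_le_one hn]
      exact_mod_cast hl.le
    have h2 : 0 ≤ (l : ℝ) / n := by positivity
    constructor <;> linarith
  refine (Finset.sum_le_sum this).trans ?_
  simp

lemma norm_del_le (n : ℕ) {c : ℂ} (hc : ‖c‖ = 1) (x : ℝ) : ‖del n c x‖ ≤ 1 := by
  rw [del, norm_mul]
  by_cases hn : n = 0
  · subst hn; simp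
  have hn' : (0 : ℝ) < n := by positivity
  have h1 : ‖∑ l ∈ Finset.range n, (c * ee (-1) x) ^ (l + 1)‖ ≤ n := by
    refine (norm_sum_le _ _).trans ?_
    have : ∀ l ∈ Finset.range n, ‖(c * ee (-1) x) ^ (l + 1)‖ ≤ 1 := by
      intro l _
      rw [norm_pow, norm_mul, norm_ee, hc, mul_one, one_pow]
    refine (Finset.sum_le_sum this).trans ?_
    simp
  have h2 : ‖(1 / (n : ℂ))‖ = 1 / n := by simp
  rw [h2]
  calc 1 / (n : ℝ) * _ ≤ 1 / n * n := by gcongr
    _ = 1 := by field_simp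

lemma ravg_del {n N : ℕ} (hn : n ≠ 0) (hN : n < N) {c : ℂ} (hc : ‖c‖ = 1) :
    ravg N (fun x => ‖del n c x‖ ^ 2) = 1 / n := by
  have hn' : (n : ℂ) ≠ 0 := by exact_mod_cast hn
  have h1 : comb N 0 (fun x => ((‖del n c x‖ ^ 2 : ℝ) : ℂ)) = 1 / n := by
    have h2 : (fun x => ((‖del n c x‖ ^ 2 : ℝ) : ℂ)) = (1 / (n : ℂ) ^ 2) •
        ∑ l ∈ Finset.range n, ∑ m ∈ Finset.range n,
          (c ^ (l + 1) * (starRingEnd ℂ) c ^ (m + 1)) • ee ((m : ℤ) - l) := by
      funext x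
      rw [← Complex.normSq_eq_norm_sq, ← Complex.mul_conj, del, map_mul, map_sum]
      rw [Pi.smul_apply, Finset.sum_apply, smul_eq_mul]
      have h3 : (starRingEnd ℂ) (1 / (n : ℂ)) = 1 / n := by simp
      rw [h3, mul_mul_mul_comm, Finset.sum_mul_sum]
      congr 1
      · field_simp
      · apply Finset.sum_congr rfl
        intro l _
        rw [Finset.sum_apply]
        apply Finset.sum_congr rfl
        intro m _
        rw [Pi.smul_apply, smul_eq_mul, map_pow, map_mul, conj_ee, neg_neg, mul_pow, mul_pow,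
          ← ee_neg_nat_eq_pow, ← ee_eq_pow]
        have h4 : ee ((m : ℤ) - l) x = ee (-((l + 1 : ℕ) : ℤ)) x * ee ((m + 1 : ℕ) : ℤ) x := by
          rw [← ee_add_apply]
          congr 1
          push_cast; ring
        rw [h4]
        ring
    rw [h2, map_smul, map_sum]
    have h5 : ∀ l ∈ Finset.range n, comb N 0 (∑ m ∈ Finset.range n,
          (c ^ (l + 1) * (starRingEnd ℂ) c ^ (m + 1)) • ee ((m : ℤ) - l)) = 1 := by
      intro l hl
      rw [Finset.mem_range] at hl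
      rw [map_sum, Finset.sum_eq_single l]
      · rw [map_smul, comb_ee_small 0 (by rw [abs_lt]; constructor <;> omega), if_pos (by omega),
          smul_eq_mul, mul_one, ← mul_pow, Complex.mul_conj, Complex.normSq_eq_norm_sq, hc]
        simp
      · intro m hm hml
        rw [Finset.mem_range] at hm
        rw [map_smul, comb_ee_small 0 (by rw [abs_lt]; constructor <;> omega), if_neg (by omega),
          smul_zero]
      · intro h
        exact absurd (Finset.mem_range.mpr hl) h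
    rw [Finset.sum_congr rfl h5]
    simp only [Finset.sum_const, Finset.card_range, nsmul_eq_mul, mul_one, smul_eq_mul]
    field_simp
  rw [comb_ofReal] at h1
  have h2 : ((1 : ℂ) / n) = ((1 / n : ℝ) : ℂ) := by push_cast; rfl
  rw [h2] at h1
  exact_mod_cast h1

lemma ravg_cos_sq {p N : ℕ} (hp : p ≠ 0) (hN : 2 * p < N) :
    ravg N (fun x => |Real.cos (p * x)| ^ 2) = 1 / 2 := by
  have h1 : comb N 0 (fun x => ((|Real.cos (p * x)| ^ 2 : ℝ) : ℂ)) = 1 / 2 := by
    have h2 : (fun x => ((|Real.cos (p * x)| ^ 2 : ℝ) : ℂ)) =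
        (1 / 4 : ℂ) • (ee (2 * p) + ee (-(2 * p))) + (1 / 2 : ℂ) • (1 : ℝ → ℂ) := by
      funext x
      rw [sq_abs, Complex.ofReal_pow, cos_eq_ee]
      simp only [Pi.add_apply, Pi.smul_apply, Pi.one_apply, smul_eq_mul]
      have e1 : ee (2 * p) x = ee p x * ee p x := by rw [← ee_add_apply]; congr 1; ring
      have e2 : ee (-(2 * p)) x = ee (-p) x * ee (-p) x := by
        rw [← ee_add_apply]; congr 1; ring
      have e3 : ee p x * ee (-p) x = 1 := by rw [← ee_add_apply]; simp [ee]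
      rw [e1, e2]
      linear_combination (1 / 2) * e3
    rw [h2, map_add, map_smul, map_smul, map_add, comb_one (by omega),
      comb_ee_small 0 (by rw [abs_lt]; constructor <;> omega), if_neg (by omega),
      comb_ee_small 0 (by rw [abs_lt]; constructor <;> omega), if_neg (by omega)]
    simp
  rw [comb_ofReal] at h1
  have h2 : ((1 : ℂ) / 2) = ((1 / 2 : ℝ) : ℂ) := by push_cast; rfl
  rw [h2] at h1
  exact_mod_cast h1

lemma prod_one_add_le {ι : Type*} (s : Finset ι) (d : ι → ℝ) (h0 : ∀ i, 0 ≤ d i)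
    (h1 : ∀ i, d i ≤ 1) :
    ∏ i ∈ s, (1 + d i) ≤ 1 + 2 ^ s.card * ∑ i ∈ s, d i := by
  classical
  induction s using Finset.induction_on with
  | empty => simp
  | insert a s ha ih =>
    rw [Finset.prod_insert ha, Finset.sum_insert ha, Finset.card_insert_of_notMem ha, pow_succ]
    have h2 : ∏ i ∈ s, (1 + d i) ≤ 2 ^ s.card := by
      calc ∏ i ∈ s, (1 + d i) ≤ ∏ i ∈ s, (2 : ℝ) := by
            apply Finset.prod_le_prod
            · intro i _; linarith [h0 i]
            · intro i _; linarith [h1 i]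
        _ = 2 ^ s.card := by simp
    have h3 : 0 ≤ ∑ i ∈ s, d i := Finset.sum_nonneg (fun i _ => h0 i)
    have h4 : (0 : ℝ) < 2 ^ s.card := by positivity
    have h5 : d a * ∏ i ∈ s, (1 + d i) ≤ d a * 2 ^ s.card := by
      apply mul_le_mul_of_nonneg_left h2 (h0 a)
    have h6 : 0 ≤ 2 ^ s.card * ∑ i ∈ s, d i := by positivity
    have h7 : 0 ≤ d a * 2 ^ s.card := mul_nonneg (h0 a) h4.le
    nlinarith

/-- the pairing function -/
noncomputable def Phi (q D N : ℕ) (w : ℕ → ℝ) (j : ℕ) (φ : ℕ → ℝ) (L : ℕ) (x0 : ℝ) : ℂ :=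
  ∑ i ∈ Finset.range (D + 1), (w (q - i) : ℂ) * coef N i (tst j φ L x0)

lemma Phi_eq (q D N : ℕ) (w : ℕ → ℝ) (j : ℕ) (φ : ℕ → ℝ) {L : ℕ} (hL : L ≠ 0) :
    (Phi q D N w j φ L) * ee (-j) = ∑ i ∈ Finset.range (D + 1),
      ∑ l ∈ Finset.Icc (-(L : ℤ)) L,
      ((w (q - i) : ℂ) * (((1 - |(l : ℝ)| / L : ℝ) : ℂ) * coef N (i - l) (QC j φ))) •
        ee (-l - j) := by
  funext x
  rw [Pi.mul_apply, Phi, Finset.sum_mul, Finset.sum_apply]
  apply Finset.sum_congr rfl
  intro i _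
  rw [coef_tst j φ hL, Finset.mul_sum, Finset.sum_mul, Finset.sum_apply]
  apply Finset.sum_congr rfl
  intro l _
  rw [Pi.smul_apply, smul_eq_mul, sub_eq_add_neg (-l), ee_add_apply]
  ring

lemma Phi_mem {q D N : ℕ} (w : ℕ → ℝ) {j : ℕ} (φ : ℕ → ℝ) {L : ℕ} (hL : L ≠ 0)
    (hN : D + L + j < N) :
    (Phi q D N w j φ L) * ee (-j) ∈ Neg (L + j) := by
  rw [Phi_eq _ _ _ _ _ _ hL]
  apply Submodule.sum_mem
  intro i hi
  apply Submodule.sum_mem
  intro l hl
  rw [Finset.mem_range] at hi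
  rw [Finset.mem_Icc] at hl
  by_cases h : (j : ℤ) < |(i : ℤ) - l|
  · rw [coef_eq_zero (QC_mem j φ) h]
    · simp
    · have : |(i : ℤ) - l| ≤ D + L := by rw [abs_le]; omega
      omega
  · push Not at h
    rw [abs_le] at h
    apply Submodule.smul_mem
    apply ee_mem_Neg <;> push_cast <;> omega

lemma comb_Phi {q D N : ℕ} (w : ℕ → ℝ) {j : ℕ} (φ : ℕ → ℝ) {L : ℕ} (hL : L ≠ 0) (hjL : j ≤ L)
    (hN : D + L + 2 * j + 1 < N) :
    comb N 0 ((Phi q D N w j φ L) * ee (-j)) =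
      (w q : ℂ) * (((1 - (j : ℝ) / L : ℝ) : ℂ) * (1 / 2) ^ j) := by
  rw [Phi_eq _ _ _ _ _ _ hL, map_sum]
  have h1 : ∀ i ∈ Finset.range (D + 1), comb N 0 (∑ l ∈ Finset.Icc (-(L : ℤ)) L,
      ((w (q - i) : ℂ) * (((1 - |(l : ℝ)| / L : ℝ) : ℂ) * coef N (i - l) (QC j φ))) •
        ee (-l - j)) =
      (w (q - i) : ℂ) * (((1 - (j : ℝ) / L : ℝ) : ℂ) * coef N (i + j) (QC j φ)) := by
    intro i hi
    rw [map_sum, Finset.sum_eq_single (-(j : ℤ))]
    · rw [map_smul, comb_ee_small 0 (by rw [abs_lt]; constructor <;> omega), if_pos (by ring),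
        smul_eq_mul, mul_one, sub_neg_eq_add]
      congr 4
      push_cast
      rw [abs_neg, abs_of_nonneg (by positivity)]
    · intro l hl hl'
      rw [Finset.mem_Icc] at hl
      rw [map_smul, comb_ee_small 0 (by rw [abs_lt]; constructor <;> omega), if_neg (by omega),
        smul_zero]
    · intro h
      exact absurd (Finset.mem_Icc.mpr (by omega)) h
  rw [Finset.sum_congr rfl h1, Finset.sum_eq_single 0]
  · rw [Nat.cast_zero, zero_add, coef_QC_top (by omega), Nat.sub_zero]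
  · intro i hi hi0
    rw [Finset.mem_range] at hi
    rw [coef_eq_zero (QC_mem j φ)]
    · simp
    · rw [lt_abs]; omega
    · have : |(i : ℤ) + j| ≤ D + j := by rw [abs_le]; omega
      omega
  · intro h
    exact absurd (Finset.mem_range.mpr (by omega)) h

theorem first_order (j : ℕ) : ∃ D0 : ℕ, ∀ (q : ℕ) (w : ℕ → ℝ) (p1 : ℕ) (φ : ℕ → ℝ),
    2 * D0 < q → 1 ≤ p1 → p1 ≤ j → (∀ i ≤ D0, i ≠ p1 → w i = 0) →
    (∀ x, 0 ≤ WW q w x * QQ j φ x) → |w q| ≤ 9 / 10 * |w p1| := by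
  by_cases hj : j = 0
  · exact ⟨0, fun q w p1 φ _ h1 h2 => by omega⟩
  set M : ℕ := 4 ^ j * 40 * j + 1 with hM
  set n : ℕ := M ^ 2 with hn
  have hM0 : 0 < M := by omega
  have hn0 : n ≠ 0 := by positivity
  set L : ℕ := 25 * 4 ^ j * (2 * j + 1) * (2 * j) * n ^ (2 * j) + 20 * j + 1 with hL
  have hL0 : L ≠ 0 := by omega
  have hjL : 20 * j ≤ L := by omega
  refine ⟨j + L, fun q w p1 φ hq hp1 hp1j hw hpos => ?_⟩
  set D := j + L with hD
  set N : ℕ := 4 * (L + j) + 2 * j * n + n + 10 with hN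
  have hLr : (0 : ℝ) < L := by positivity
  have hnr : (0 : ℝ) < n := by positivity
  -- pointwise bound of Phi
  have hE : ((2 : ℝ) * j + 1) * (p1 + j) * 2 ^ j / L * n ^ (2 * j) * 2 ^ j ≤ 1 / 25 := by
    rw [div_mul_eq_mul_div, div_mul_eq_mul_div, div_le_iff₀ hLr]
    have h1 : (p1 : ℝ) + j ≤ 2 * j := by
      have : (p1 : ℝ) ≤ j := by exact_mod_cast hp1j
      linarith
    have h2 : (25 * 4 ^ j * (2 * j + 1) * (2 * j) * n ^ (2 * j) : ℝ) ≤ L := by
      rw [hL]; push_cast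
      have : (0 : ℝ) ≤ 20 * j + 1 := by positivity
      linarith
    have h3 : (2 : ℝ) ^ j * 2 ^ j = 4 ^ j := by rw [← mul_pow]; norm_num
    calc ((2 : ℝ) * j + 1) * (p1 + j) * 2 ^ j * n ^ (2 * j) * 2 ^ j
        = ((2 : ℝ) * j + 1) * (p1 + j) * n ^ (2 * j) * (2 ^ j * 2 ^ j) := by ring
      _ = ((2 : ℝ) * j + 1) * (p1 + j) * n ^ (2 * j) * 4 ^ j := by rw [h3]
      _ ≤ ((2 : ℝ) * j + 1) * (2 * j) * n ^ (2 * j) * 4 ^ j := by gcongr
      _ = 1 / 25 * (25 * 4 ^ j * (2 * j + 1) * (2 * j) * n ^ (2 * j)) := by ring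
      _ ≤ _ := by gcongr
  set E : ℝ := ((2 : ℝ) * j + 1) * (p1 + j) * 2 ^ j / L with hEdef
  have hE0 : 0 ≤ E := by positivity
  have hPhi : ∀ x0, ‖Phi q D N w j φ L x0‖ ≤ |w p1| * (|Real.cos (p1 * x0)| * |QQ j φ x0| + E) := by
    intro x0
    have h1 := pos_ineq (N := N) (w := w) hq (by omega) (tst_mem j φ hL0 x0) (by
      intro x
      rw [← mul_assoc]
      exact mul_nonneg (hpos x) (fejR_nonneg L _))
    refine h1.trans ?_
    rw [Finset.sum_eq_single p1]
    rotate_left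
    · intro i hi hip
      rw [Finset.mem_range] at hi
      rw [hw i (by omega) hip, zero_mul]
    · intro h
      exact absurd (Finset.mem_range.mpr (by omega)) h
    refine (le_abs_self _).trans ?_
    rw [abs_mul]
    apply mul_le_mul_of_nonneg_left _ (abs_nonneg _)
    have h2 := coef_tst_approx j φ hL0 x0 (N := N) p1 (by omega) (by omega)
    have h3 : (coef N p1 (tst j φ L x0)).re =
        (ee (-p1) x0 * QC j φ x0).re + (coef N p1 (tst j φ L x0) - ee (-p1) x0 * QC j φ x0).re := by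
      rw [Complex.sub_re]; ring
    have h4 : (ee (-p1) x0 * QC j φ x0).re = Real.cos (p1 * x0) * QQ j φ x0 := by
      rw [QC, mul_comm, Complex.re_ofReal_mul, mul_comm]
      congr 1
      rw [ee_apply]
      have : (((-(p1 : ℤ) : ℤ) : ℂ)) * (x0 : ℂ) * I = ((-(p1 * x0) : ℝ) : ℂ) * I := by
        push_cast; ring
      rw [this, Complex.exp_ofReal_mul_I_re, Real.cos_neg]
    have h5 := (Complex.abs_re_le_norm _).trans h2
    change |(coef N p1 (tst j φ L x0)).re| ≤ _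
    rw [h3, h4]
    refine (abs_add_le _ _).trans ?_
    rw [abs_mul]
    linarith
  -- the multiplier
  set k : ℝ → ℂ := ∏ i ∈ idx j, kap n (cst φ i) with hk
  obtain ⟨hk1, hk2⟩ := comb_Neg_prod (idx j) n (fun i => kap n (cst φ i))
    (fun i _ => kap_mem n _)
  rw [card_idx] at hk1 hk2
  have hkavg : comb N 0 k = 1 := by
    rw [hk, hk2 N (by omega)]
    rw [Finset.prod_congr rfl (fun i _ => comb_kap hn0 (by omega) _)]
    simp
  have hmain : comb N 0 ((Phi q D N w j φ L) * ee (-j) * k) =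
      (w q : ℂ) * (((1 - (j : ℝ) / L : ℝ) : ℂ) * (1 / 2) ^ j) := by
    rw [comb_Neg_mul (D := L + j) (D' := 2 * j * n) (by omega) (Phi_mem w φ hL0 (by omega)) hk1,
      hkavg, mul_one, comb_Phi w φ hL0 (by omega) (by omega)]
  have hknorm : ∀ x, ‖k x‖ ≤ n ^ (2 * j) := by
    intro x
    rw [hk, Finset.prod_apply, norm_prod]
    calc ∏ i ∈ idx j, ‖kap n (cst φ i) x‖ ≤ ∏ i ∈ idx j, (n : ℝ) := by
          apply Finset.prod_le_prod
          · intro i _; exact norm_nonneg _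
          · intro i _; exact norm_kap_le n (norm_cst φ i) x
      _ = n ^ (2 * j) := by rw [Finset.prod_const, card_idx]
  have hQk : ∀ x, |QQ j φ x| * ‖k x‖ ≤
      (1 / 2) ^ j * (1 + 4 ^ j * ∑ i ∈ idx j, ‖del n (cst φ i) x‖) := by
    intro x
    have h1 : |QQ j φ x| = ‖QC j φ x‖ := by rw [QC, Complex.norm_real, Real.norm_eq_abs]
    rw [h1, ← norm_mul, QC_factor', hk, Finset.prod_apply]
    rw [mul_assoc, ← Finset.prod_mul_distrib, norm_mul, norm_mul, norm_ee, mul_one,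
      Finset.prod_congr rfl (fun i _ => kap_mul hn0 (cst φ i) x), norm_prod]
    have h2 : ‖(1 / 2 : ℂ) ^ j‖ = (1 / 2) ^ j := by simp
    rw [h2]
    apply mul_le_mul_of_nonneg_left _ (by positivity)
    calc ∏ i ∈ idx j, ‖1 - del n (cst φ i) x‖ ≤ ∏ i ∈ idx j, (1 + ‖del n (cst φ i) x‖) := by
          apply Finset.prod_le_prod
          · intro i _; exact norm_nonneg _
          · intro i _
            refine (norm_sub_le _ _).trans ?_
            rw [norm_one]
      _ ≤ 1 + 2 ^ (idx j).card * ∑ i ∈ idx j, ‖del n (cst φ i) x‖ :=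
          prod_one_add_le _ _ (fun i => norm_nonneg _) (fun i => norm_del_le n (norm_cst φ i) x)
      _ = _ := by
          rw [card_idx, pow_mul]; norm_num
  -- combine
  have hpt : ∀ x, ‖((Phi q D N w j φ L) * ee (-j) * k) x‖ ≤
      |w p1| * ((1 / 2) ^ j * (|Real.cos (p1 * x)| + 4 ^ j * ∑ i ∈ idx j, ‖del n (cst φ i) x‖) +
        E * n ^ (2 * j)) := by
    intro x
    rw [Pi.mul_apply, Pi.mul_apply, norm_mul, norm_mul, norm_ee, mul_one]
    have hc0 := abs_nonneg (Real.cos (p1 * x))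
    have hc1 := Real.abs_cos_le_one (p1 * x)
    have hS : 0 ≤ ∑ i ∈ idx j, ‖del n (cst φ i) x‖ := Finset.sum_nonneg (fun i _ => norm_nonneg _)
    calc ‖Phi q D N w j φ L x‖ * ‖k x‖
        ≤ (|w p1| * (|Real.cos (p1 * x)| * |QQ j φ x| + E)) * ‖k x‖ := by
          gcongr; exact hPhi x
      _ = |w p1| * (|Real.cos (p1 * x)| * (|QQ j φ x| * ‖k x‖) + E * ‖k x‖) := by ring
      _ ≤ |w p1| * (|Real.cos (p1 * x)| *
            ((1 / 2) ^ j * (1 + 4 ^ j * ∑ i ∈ idx j, ‖del n (cst φ i) x‖)) +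
            E * n ^ (2 * j)) := by
          have := hQk x
          have := hknorm x
          gcongr
      _ ≤ _ := by
          apply mul_le_mul_of_nonneg_left _ (abs_nonneg _)
          have h9 : |Real.cos (p1 * x)| * (1 + 4 ^ j * ∑ i ∈ idx j, ‖del n (cst φ i) x‖) ≤
              |Real.cos (p1 * x)| + 4 ^ j * ∑ i ∈ idx j, ‖del n (cst φ i) x‖ := by
            have : 0 ≤ 4 ^ j * ∑ i ∈ idx j, ‖del n (cst φ i) x‖ := by positivity
            nlinarith
          have h10 : (0 : ℝ) ≤ (1 / 2) ^ j := by positivity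
          nlinarith [mul_le_mul_of_nonneg_left h9 h10]
  have havg := (norm_comb_le N ((Phi q D N w j φ L) * ee (-j) * k)).trans (ravg_mono hpt)
  rw [hmain] at havg
  have hN0 : N ≠ 0 := by omega
  have hr : ravg N (fun x => |w p1| * ((1 / 2) ^ j * (|Real.cos (p1 * x)| +
      4 ^ j * ∑ i ∈ idx j, ‖del n (cst φ i) x‖) + E * n ^ (2 * j))) ≤
      |w p1| * ((1 / 2) ^ j * (Real.sqrt (1 / 2) + 4 ^ j * (2 * j * Real.sqrt (1 / n))) +
        E * n ^ (2 * j)) := by
    rw [ravg_const_mul]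
    apply mul_le_mul_of_nonneg_left _ (abs_nonneg _)
    rw [ravg_add, ravg_const_mul, ravg_add, ravg_const_mul, ravg_sum, ravg_const hN0]
    have h1 : ravg N (fun x => |Real.cos (p1 * x)|) ≤ Real.sqrt (1 / 2) :=
      ravg_le_sqrt (ravg_cos_sq (by omega) (by omega)).le
    have h2 : ∀ i ∈ idx j, ravg N (fun x => ‖del n (cst φ i) x‖) ≤ Real.sqrt (1 / n) :=
      fun i _ => ravg_le_sqrt (ravg_del hn0 (by omega) (norm_cst φ i)).le
    have h3 : ∑ i ∈ idx j, ravg N (fun x => ‖del n (cst φ i) x‖) ≤ 2 * j * Real.sqrt (1 / n) := by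
      refine (Finset.sum_le_sum h2).trans ?_
      rw [Finset.sum_const, card_idx, nsmul_eq_mul]
      push_cast
      rfl
    gcongr
  have h3 := havg.trans hr
  have hM1 : Real.sqrt (1 / n) = 1 / M := by
    rw [hn]
    push_cast
    rw [show (1 : ℝ) / (M : ℝ) ^ 2 = (1 / M) ^ 2 by rw [one_div_pow], Real.sqrt_sq (by positivity)]
  have h4 : (4 : ℝ) ^ j * (2 * j * Real.sqrt (1 / n)) ≤ 1 / 20 := by
    rw [hM1, ← mul_assoc, mul_one_div, div_le_iff₀ (by positivity), hM]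
    push_cast
    linarith
  have h5 : Real.sqrt (1 / 2) ≤ 708 / 1000 := by
    rw [Real.sqrt_le_left (by norm_num)]
    norm_num
  have h6 : ‖(w q : ℂ) * (((1 - (j : ℝ) / L : ℝ) : ℂ) * (1 / 2) ^ j)‖ =
      |w q| * ((1 - (j : ℝ) / L) * (1 / 2) ^ j) := by
    have h7 : (j : ℝ) / L ≤ 1 := by
      rw [div_le_one hLr]
      have : j ≤ L := by omega
      exact_mod_cast this
    rw [norm_mul, norm_mul, Complex.norm_real, Complex.norm_real, Real.norm_eq_abs,
      Real.norm_eq_abs, abs_of_nonneg (show (0 : ℝ) ≤ 1 - (j : ℝ) / L by linarith)]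
    simp
  rw [h6] at h3
  have h8 : (j : ℝ) / L ≤ 1 / 20 := by
    rw [div_le_div_iff₀ hLr (by norm_num)]
    have : (20 * j : ℝ) ≤ L := by exact_mod_cast hjL
    linarith
  -- multiply by 2^j
  have h2j : ((1 : ℝ) / 2) ^ j * 2 ^ j = 1 := by rw [← mul_pow]; norm_num
  have h9 : |w q| * (1 - (j : ℝ) / L) ≤ |w p1| * (Real.sqrt (1 / 2) +
      4 ^ j * (2 * j * Real.sqrt (1 / n)) + E * n ^ (2 * j) * 2 ^ j) := by
    have h10 := mul_le_mul_of_nonneg_right h3 (show (0 : ℝ) ≤ 2 ^ j by positivity)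
    calc |w q| * (1 - (j : ℝ) / L) = |w q| * ((1 - (j : ℝ) / L) * (1 / 2) ^ j) * 2 ^ j := by
          rw [mul_assoc, mul_assoc, h2j, mul_one]
      _ ≤ _ := h10
      _ = |w p1| * (((1 / 2) ^ j * 2 ^ j) * (Real.sqrt (1 / 2) +
            4 ^ j * (2 * j * Real.sqrt (1 / n))) + E * n ^ (2 * j) * 2 ^ j) := by ring
      _ = _ := by rw [h2j, one_mul]
  have h11 : Real.sqrt (1 / 2) + 4 ^ j * (2 * j * Real.sqrt (1 / n)) + E * n ^ (2 * j) * 2 ^ j ≤
      708 / 1000 + 1 / 20 + 1 / 25 := by linarith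
  have h12 := h9.trans (mul_le_mul_of_nonneg_left h11 (abs_nonneg (w p1)))
  have h13 : |w q| * (19 / 20) ≤ |w q| * (1 - (j : ℝ) / L) := by
    apply mul_le_mul_of_nonneg_left _ (abs_nonneg _)
    linarith
  have h14 := abs_nonneg (w q)
  have h15 := abs_nonneg (w p1)
  linarith

end Pool.Agent.Helper61.Nodal
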