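import Mathlib

/-!
Discrete Fourier analysis of trigonometric polynomials via combs
`comb N θ F = (1/N) ∑_{k<N} F((θ+2πk)/N)`.
-/

namespace Pool.Agent.Helper61.Nodal

open Complex Set Filter Topology

/-- the exponential `e_n(x) = exp(i n x)` -/
noncomputable def ee (n : ℤ) : ℝ → ℂ := fun x => Complex.exp ((n : ℂ) * (x : ℂ) * I)

lemma ee_apply (n : ℤ) (x : ℝ) : ee n x = Complex.exp ((n : ℂ) * (x : ℂ) * I) := rfl

lemma ee_add (m n : ℤ) : ee (m + n) = ee m * ee n := by
  funext x
  simp only [ee, Pi.mul_apply, ← Complex.exp_add]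
  congr 1
  push_cast
  ring

lemma ee_add_apply (m n : ℤ) (x : ℝ) : ee (m + n) x = ee m x * ee n x := by
  rw [ee_add]; rfl

lemma ee_zero : ee 0 = 1 := by
  funext x
  simp [ee]

lemma ee_zero_apply (x : ℝ) : ee 0 x = 1 := by rw [ee_zero]; rfl

lemma norm_ee (n : ℤ) (x : ℝ) : ‖ee n x‖ = 1 := by
  rw [ee_apply]
  have : (n : ℂ) * (x : ℂ) * I = ((n * x : ℝ) : ℂ) * I := by push_cast; ring
  rw [this]
  exact Complex.norm_exp_ofReal_mul_I _

lemma ee_ne_zero (n : ℤ) (x : ℝ) : ee n x ≠ 0 := Complex.exp_ne_zero _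

lemma conj_ee (n : ℤ) (x : ℝ) : (starRingEnd ℂ) (ee n x) = ee (-n) x := by
  rw [ee_apply, ee_apply, ← Complex.exp_conj]
  congr 1
  simp

lemma ee_add_arg (n : ℤ) (x y : ℝ) : ee n (x + y) = ee n x * ee n y := by
  simp only [ee_apply, ← Complex.exp_add]
  congr 1
  push_cast
  ring

lemma ee_neg_arg (n : ℤ) (x : ℝ) : ee n (-x) = ee (-n) x := by
  simp only [ee_apply]
  congr 1
  push_cast
  ring

lemma ee_eq_pow (n : ℕ) (x : ℝ) : ee n x = (ee 1 x) ^ n := by
  simp only [ee_apply, ← Complex.exp_nat_mul]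
  congr 1
  push_cast
  ring

lemma ee_neg_nat_eq_pow (n : ℕ) (x : ℝ) : ee (-(n : ℤ)) x = (ee (-1) x) ^ n := by
  simp only [ee_apply, ← Complex.exp_nat_mul]
  congr 1
  push_cast
  ring

lemma continuous_ee (n : ℤ) : Continuous (ee n) := by
  unfold ee
  fun_prop

/-- cosine in terms of exponentials -/
lemma cos_eq_ee (p : ℕ) (x : ℝ) : ((Real.cos (p * x) : ℝ) : ℂ) = (ee p x + ee (-p) x) / 2 := by
  rw [ee_apply, ee_apply, Complex.ofReal_cos, Complex.cos]
  congr 2
  · push_cast; ring_nf
  · push_cast; ring_nf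

/-- the comb functional -/
noncomputable def comb (N : ℕ) (θ : ℝ) : (ℝ → ℂ) →ₗ[ℂ] ℂ where
  toFun F := (1 / (N : ℂ)) * ∑ k ∈ Finset.range N, F ((θ + 2 * Real.pi * k) / N)
  map_add' F G := by
    simp only [Pi.add_apply, Finset.sum_add_distrib, mul_add]
  map_smul' c F := by
    simp only [Pi.smul_apply, smul_eq_mul, RingHom.id_apply, ← Finset.mul_sum]
    ring

lemma comb_apply (N : ℕ) (θ : ℝ) (F : ℝ → ℂ) :
    comb N θ F = (1 / (N : ℂ)) * ∑ k ∈ Finset.range N, F ((θ + 2 * Real.pi * k) / N) := rfl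

lemma comb_ee_mul {N : ℕ} (hN : N ≠ 0) (θ : ℝ) (m : ℤ) : comb N θ (ee (N * m)) = ee m θ := by
  rw [comb_apply]
  have hN' : (N : ℂ) ≠ 0 := by exact_mod_cast hN
  have h : ∀ k ∈ Finset.range N, ee (N * m) ((θ + 2 * Real.pi * k) / N) = ee m θ := by
    intro k _
    rw [ee_apply, ee_apply]
    have h2 : (((N : ℤ) * m : ℤ) : ℂ) * (((θ + 2 * Real.pi * k) / N : ℝ) : ℂ) * I
        = (m : ℂ) * θ * I + ((m * k : ℤ) : ℂ) * (2 * Real.pi * I) := by
      push_cast
      field_simp
    rw [h2, Complex.exp_add, Complex.exp_int_mul_two_pi_mul_I, mul_one]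
  rw [Finset.sum_congr rfl h]
  simp only [Finset.sum_const, Finset.card_range, nsmul_eq_mul]
  field_simp

lemma comb_ee_not_dvd {N : ℕ} (hN : N ≠ 0) (θ : ℝ) {n : ℤ} (hn : ¬ (N : ℤ) ∣ n) :
    comb N θ (ee n) = 0 := by
  rw [comb_apply]
  have hN' : (N : ℂ) ≠ 0 := by exact_mod_cast hN
  set ζ : ℂ := Complex.exp ((n : ℂ) / N * (2 * Real.pi * I)) with hζ
  have h : ∀ k ∈ Finset.range N, ee n ((θ + 2 * Real.pi * k) / N) =
      Complex.exp ((n : ℂ) * θ / N * I) * ζ ^ k := by
    intro k _
    rw [ee_apply, hζ, ← Complex.exp_nat_mul, ← Complex.exp_add]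
    congr 1
    push_cast
    field_simp
  rw [Finset.sum_congr rfl h, ← Finset.mul_sum]
  have hζN : ζ ^ N = 1 := by
    rw [hζ, ← Complex.exp_nat_mul]
    have : (N : ℂ) * ((n : ℂ) / N * (2 * Real.pi * I)) = (n : ℂ) * (2 * Real.pi * I) := by
      field_simp
    rw [this]
    exact Complex.exp_int_mul_two_pi_mul_I n
  have hζ1 : ζ ≠ 1 := by
    intro h1
    rw [hζ, Complex.exp_eq_one_iff] at h1
    obtain ⟨m, hm⟩ := h1
    have h2pi : (2 * Real.pi * I : ℂ) ≠ 0 := Complex.two_pi_I_ne_zero
    have h3 := mul_right_cancel₀ h2pi hm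
    rw [div_eq_iff hN'] at h3
    apply hn
    refine ⟨m, ?_⟩
    have h4 : ((n : ℤ) : ℂ) = ((N * m : ℤ) : ℂ) := by rw [h3]; push_cast; ring
    exact_mod_cast h4
  have hsum : ∑ k ∈ Finset.range N, ζ ^ k = 0 := by
    have h5 := geom_sum_eq hζ1 N
    rw [h5, hζN, sub_self, zero_div]
  rw [hsum, mul_zero, mul_zero]

/-- in the window `|n| < N`, only `n = 0` survives -/
lemma comb_ee_small {N : ℕ} (θ : ℝ) {n : ℤ} (hn : |n| < N) :
    comb N θ (ee n) = if n = 0 then 1 else 0 := by
  have hN : N ≠ 0 := by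
    rintro rfl
    have := abs_nonneg n
    push_cast at hn
    omega
  split_ifs with h
  · subst h
    have := comb_ee_mul hN θ 0
    rw [mul_zero, ee_zero_apply] at this
    exact this
  · apply comb_ee_not_dvd hN
    intro hdvd
    exact h (Int.eq_zero_of_abs_lt_dvd hdvd hn)

/-- trigonometric polynomials of degree at most `D` -/
noncomputable def Trig (D : ℕ) : Submodule ℂ (ℝ → ℂ) :=
  Submodule.span ℂ (ee '' {l : ℤ | |l| ≤ D})

lemma ee_mem_Trig {D : ℕ} {l : ℤ} (h : |l| ≤ D) : ee l ∈ Trig D :=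
  Submodule.subset_span ⟨l, h, rfl⟩

lemma Trig_mono {D D' : ℕ} (h : D ≤ D') : Trig D ≤ Trig D' := by
  apply Submodule.span_mono
  apply Set.image_mono
  intro l hl
  simp only [Set.mem_ofPred_eq] at hl ⊢
  have : (D : ℤ) ≤ D' := by exact_mod_cast h
  linarith

lemma Trig_mul {D D' : ℕ} {F G : ℝ → ℂ} (hF : F ∈ Trig D) (hG : G ∈ Trig D') :
    F * G ∈ Trig (D + D') := by
  have h1 : F * G ∈ Trig D * Trig D' := Submodule.mul_mem_mul hF hG
  have h2 : Trig D * Trig D' ≤ Trig (D + D') := by
    unfold Trig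
    rw [Submodule.span_mul_span]
    apply Submodule.span_mono
    rintro _ ⟨_, ⟨l, hl, rfl⟩, _, ⟨l', hl', rfl⟩, rfl⟩
    refine ⟨l + l', ?_, ?_⟩
    · simp only [Set.mem_ofPred_eq] at hl hl' ⊢
      push_cast
      have := abs_add_le l l'
      linarith
    · rw [ee_add]
  exact h2 h1

lemma one_mem_Trig (D : ℕ) : (1 : ℝ → ℂ) ∈ Trig D := by
  rw [← ee_zero]
  exact ee_mem_Trig (by simp)

lemma const_mem_Trig (D : ℕ) (c : ℂ) : (fun _ => c : ℝ → ℂ) ∈ Trig D := by
  have h := (Trig D).smul_mem c (one_mem_Trig D)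
  convert h using 1
  funext x
  simp

lemma cos_mem_Trig {D p : ℕ} (h : p ≤ D) :
    (fun x : ℝ => ((Real.cos (p * x) : ℝ) : ℂ)) ∈ Trig D := by
  have h1 : (ee p + ee (-p)) ∈ Trig D := by
    apply (Trig D).add_mem <;> apply ee_mem_Trig
    · rw [abs_of_nonneg (by positivity)]; exact_mod_cast h
    · rw [abs_neg, abs_of_nonneg (by positivity)]; exact_mod_cast h
  have h2 := (Trig D).smul_mem (1 / 2 : ℂ) h1
  convert h2 using 1
  funext x
  rw [cos_eq_ee]
  simp only [Pi.smul_apply, Pi.add_apply, smul_eq_mul]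
  ring

/-- Fourier coefficient, computed with the `N`-comb -/
noncomputable def coef (N : ℕ) (l : ℤ) : (ℝ → ℂ) →ₗ[ℂ] ℂ where
  toFun F := comb N 0 (F * ee (-l))
  map_add' F G := by rw [add_mul, map_add]
  map_smul' c F := by
    rw [smul_mul_assoc, map_smul, RingHom.id_apply]

lemma coef_apply (N : ℕ) (l : ℤ) (F : ℝ → ℂ) : coef N l F = comb N 0 (F * ee (-l)) := rfl

lemma coef_ee {N : ℕ} {l m : ℤ} (h : |m - l| < N) :
    coef N l (ee m) = if m = l then 1 else 0 := by
  rw [coef_apply, ← ee_add, comb_ee_small 0 (by rwa [← sub_eq_add_neg])]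
  simp only [← sub_eq_add_neg, sub_eq_zero]

lemma coef_mul_ee (N : ℕ) (l m : ℤ) (F : ℝ → ℂ) : coef N l (F * ee m) = coef N (l - m) F := by
  rw [coef_apply, coef_apply, mul_assoc, ← ee_add]
  congr 3
  ring

lemma coef_eq_zero {N D : ℕ} {l : ℤ} {F : ℝ → ℂ} (hF : F ∈ Trig D) (hl : (D : ℤ) < |l|)
    (hN : |l| + D < N) : coef N l F = 0 := by
  unfold Trig at hF
  induction hF using Submodule.span_induction with
  | mem f hf =>
    obtain ⟨m, hm, rfl⟩ := hf
    simp only [Set.mem_ofPred_eq] at hm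
    rw [coef_ee]
    · rw [if_neg]
      rintro rfl
      linarith
    · have := abs_sub m l
      linarith
  | zero => simp
  | add f g _ _ hf hg => rw [map_add, hf, hg, add_zero]
  | smul c f _ hf => rw [map_smul, hf, smul_zero]

lemma norm_coef_le {N : ℕ} {l : ℤ} {F : ℝ → ℂ} {M : ℝ} (hM : ∀ x, ‖F x‖ ≤ M) :
    ‖coef N l F‖ ≤ M := by
  have hM0 : 0 ≤ M := (norm_nonneg _).trans (hM 0)
  rw [coef_apply, comb_apply, norm_mul]
  by_cases hN : N = 0
  · subst hN
    simp [hM0]
  have hN' : (0 : ℝ) < N := by positivity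
  have h1 : ‖∑ k ∈ Finset.range N, (F * ee (-l)) ((0 + 2 * Real.pi * k) / N)‖ ≤ N * M := by
    refine (norm_sum_le _ _).trans ?_
    have : ∀ k ∈ Finset.range N, ‖(F * ee (-l)) ((0 + 2 * Real.pi * k) / N)‖ ≤ M := by
      intro k _
      rw [Pi.mul_apply, norm_mul, norm_ee, mul_one]
      exact hM _
    refine (Finset.sum_le_sum this).trans ?_
    simp
  have h2 : ‖(1 / (N : ℂ))‖ = 1 / N := by simp
  rw [h2]
  calc 1 / (N : ℝ) * _ ≤ 1 / N * (N * M) := by gcongr
    _ = M := by field_simp

/-- real-valued functions have Hermitian coefficients -/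
lemma coef_neg_eq_conj {N : ℕ} {l : ℤ} {F : ℝ → ℂ} (hF : ∀ x, (F x).im = 0) :
    coef N (-l) F = (starRingEnd ℂ) (coef N l F) := by
  rw [coef_apply, coef_apply, comb_apply, comb_apply, map_mul, map_sum]
  congr 1
  · simp
  · apply Finset.sum_congr rfl
    intro k _
    rw [Pi.mul_apply, Pi.mul_apply, map_mul, conj_ee, neg_neg]
    congr 1
    exact (Complex.conj_eq_iff_im.mpr (hF _)).symm

/-- **the comb identity**: for `W = ∑_{p ≤ q} w_p cos(px)` and `F` of degree `D`, `2D < q`. -/
theorem comb_mul {q D N : ℕ} (hq : 2 * D < q) (hN : 2 * D < N) (w : ℕ → ℝ) (θ : ℝ) {F : ℝ → ℂ}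
    (hF : F ∈ Trig D) :
    comb q θ ((fun x => ((∑ p ∈ Finset.range (q + 1), w p * Real.cos (p * x) : ℝ) : ℂ)) * F) =
      ∑ i ∈ Finset.range (D + 1), ((w i : ℂ) / 2) * (coef N i F + coef N (-i) F) +
      ∑ i ∈ Finset.range (D + 1), ((w (q - i) : ℂ) / 2) *
        (ee 1 θ * coef N i F + ee (-1) θ * coef N (-i) F) := by
  have hq0 : q ≠ 0 := by omega
  have hW : (fun x => ((∑ p ∈ Finset.range (q + 1), w p * Real.cos (p * x) : ℝ) : ℂ)) =
      ∑ p ∈ Finset.range (q + 1), ((w p : ℂ) / 2) • (ee p + ee (-p)) := by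
    funext x
    rw [Finset.sum_apply, Complex.ofReal_sum]
    apply Finset.sum_congr rfl
    intro p _
    rw [Complex.ofReal_mul, cos_eq_ee]
    simp only [Pi.smul_apply, Pi.add_apply, smul_eq_mul]
    ring
  rw [hW]
  unfold Trig at hF
  induction hF using Submodule.span_induction with
  | zero => simp
  | add f g _ _ hf hg =>
    rw [mul_add, map_add, hf, hg]
    simp only [map_add, mul_add, Finset.sum_add_distrib]
    ring
  | smul c f _ hf =>
    rw [mul_smul_comm, map_smul, hf]
    simp only [map_smul, smul_eq_mul, mul_add, Finset.mul_sum, Finset.sum_add_distrib]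
    congr 1
    · congr 1 <;> (apply Finset.sum_congr rfl; intro i _; ring)
    · congr 1 <;> (apply Finset.sum_congr rfl; intro i _; ring)
  | mem f hf =>
    obtain ⟨l, hl, rfl⟩ := hf
    simp only [Set.mem_ofPred_eq] at hl
    rw [Finset.sum_mul, map_sum]
    have hterm : ∀ p ∈ Finset.range (q + 1),
        comb q θ (((w p : ℂ) / 2) • (ee p + ee (-p)) * ee l) =
        ((w p : ℂ) / 2) * (comb q θ (ee (p + l)) + comb q θ (ee (-p + l))) := by
      intro p _
      rw [smul_mul_assoc, map_smul, add_mul, map_add, ← ee_add, ← ee_add, smul_eq_mul]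
    rw [Finset.sum_congr rfl hterm]
    have habs := abs_le.mp hl
    -- the coefficients of ee l
    have hc1 : ∀ i ∈ Finset.range (D + 1), coef N (i : ℤ) (ee l) = if l = i then 1 else 0 := by
      intro i hi
      rw [Finset.mem_range] at hi
      apply coef_ee
      rw [abs_lt]
      constructor <;> omega
    have hc2 : ∀ i ∈ Finset.range (D + 1), coef N (-(i : ℤ)) (ee l) = if l = -i then 1 else 0 := by
      intro i hi
      rw [Finset.mem_range] at hi
      apply coef_ee
      rw [abs_lt]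
      constructor <;> omega
    have R1 : ∑ i ∈ Finset.range (D + 1),
        ((w i : ℂ) / 2) * (coef N (i:ℤ) (ee l) + coef N (-(i:ℤ)) (ee l)) =
        ∑ i ∈ Finset.range (D + 1), ((w i : ℂ) / 2) *
          ((if l = i then 1 else 0) + (if l = -(i:ℤ) then 1 else 0)) := by
      apply Finset.sum_congr rfl
      intro i hi
      rw [hc1 i hi, hc2 i hi]
    have R2 : ∑ i ∈ Finset.range (D + 1), ((w (q - i) : ℂ) / 2) *
        (ee 1 θ * coef N (i:ℤ) (ee l) + ee (-1) θ * coef N (-(i:ℤ)) (ee l)) =
        ∑ i ∈ Finset.range (D + 1), ((w (q - i) : ℂ) / 2) *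
          (ee 1 θ * (if l = i then 1 else 0) + ee (-1) θ * (if l = -(i:ℤ) then 1 else 0)) := by
      apply Finset.sum_congr rfl
      intro i hi
      rw [hc1 i hi, hc2 i hi]
    rw [R1, R2]
    -- evaluate the combs
    have hA : ∀ p ∈ Finset.range (q + 1), comb q θ (ee (p + l)) =
        (if l = -(p:ℤ) then 1 else 0) + ee 1 θ * (if l = q - (p:ℤ) then 1 else 0) := by
      intro p hp
      rw [Finset.mem_range] at hp
      by_cases h1 : l = -(p:ℤ)
      · rw [if_pos h1, if_neg (by omega)]
        rw [h1, add_neg_cancel]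
        have := comb_ee_mul hq0 θ 0
        rw [mul_zero, ee_zero_apply] at this
        rw [this, mul_zero, add_zero]
      · by_cases h2 : l = q - (p:ℤ)
        · rw [if_neg h1, if_pos h2]
          have := comb_ee_mul hq0 θ 1
          rw [mul_one] at this
          rw [h2, show (p:ℤ) + (q - p) = q by ring, this]
          ring
        · rw [if_neg h1, if_neg h2, mul_zero, add_zero]
          apply comb_ee_not_dvd hq0
          rintro ⟨m, hm⟩
          have hm1 : m < 2 := by
            by_contra hcon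
            push Not at hcon
            have : (q : ℤ) * 2 ≤ q * m := by
              apply mul_le_mul_of_nonneg_left hcon (by positivity)
            omega
          have hm2 : -1 < m := by
            by_contra hcon
            push Not at hcon
            have : (q : ℤ) * m ≤ q * (-1) := by
              apply mul_le_mul_of_nonneg_left hcon (by positivity)
            omega
          have : m = 0 ∨ m = 1 := by omega
          rcases this with rfl | rfl <;> omega
    have hB : ∀ p ∈ Finset.range (q + 1), comb q θ (ee (-p + l)) =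
        (if l = (p:ℤ) then 1 else 0) + ee (-1) θ * (if l = (p:ℤ) - q then 1 else 0) := by
      intro p hp
      rw [Finset.mem_range] at hp
      by_cases h1 : l = (p:ℤ)
      · rw [if_pos h1, if_neg (by omega)]
        rw [h1, neg_add_cancel]
        have := comb_ee_mul hq0 θ 0
        rw [mul_zero, ee_zero_apply] at this
        rw [this, mul_zero, add_zero]
      · by_cases h2 : l = (p:ℤ) - q
        · rw [if_neg h1, if_pos h2]
          have := comb_ee_mul hq0 θ (-1)
          rw [h2, show -(p:ℤ) + (p - q) = q * (-1) by ring, this]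
          ring
        · rw [if_neg h1, if_neg h2, mul_zero, add_zero]
          apply comb_ee_not_dvd hq0
          rintro ⟨m, hm⟩
          have hm1 : m < 1 := by
            by_contra hcon
            push Not at hcon
            have : (q : ℤ) * 1 ≤ q * m := by
              apply mul_le_mul_of_nonneg_left hcon (by positivity)
            omega
          have hm2 : -2 < m := by
            by_contra hcon
            push Not at hcon
            have : (q : ℤ) * m ≤ q * (-2) := by
              apply mul_le_mul_of_nonneg_left hcon (by positivity)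
            omega
          have : m = 0 ∨ m = -1 := by omega
          rcases this with rfl | rfl <;> omega
    have L1 : ∑ p ∈ Finset.range (q + 1),
        ((w p : ℂ) / 2) * (comb q θ (ee (p + l)) + comb q θ (ee (-p + l))) =
        ∑ p ∈ Finset.range (q + 1), ((w p : ℂ) / 2) *
        (((if l = -(p:ℤ) then 1 else 0) + ee 1 θ * (if l = q - (p:ℤ) then 1 else 0)) +
        ((if l = (p:ℤ) then 1 else 0) + ee (-1) θ * (if l = (p:ℤ) - q then 1 else 0))) := by
      apply Finset.sum_congr rfl
      intro p hp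
      rw [hA p hp, hB p hp]
    rw [L1]
    simp only [mul_add, Finset.sum_add_distrib, mul_ite, mul_one, mul_zero]
    -- now evaluate each sum
    have s1 : ∑ p ∈ Finset.range (q + 1), (if l = -(p:ℤ) then ((w p : ℂ) / 2) else 0) =
        ∑ p ∈ Finset.range (D + 1), (if l = -(p:ℤ) then ((w p : ℂ) / 2) else 0) := by
      symm
      apply Finset.sum_subset
      · intro i hi; rw [Finset.mem_range] at hi ⊢; omega
      · intro i hi hi'
        rw [Finset.mem_range] at hi hi'
        rw [if_neg]; omega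
    have s2 : ∑ p ∈ Finset.range (q + 1), (if l = (p:ℤ) then ((w p : ℂ) / 2) else 0) =
        ∑ p ∈ Finset.range (D + 1), (if l = (p:ℤ) then ((w p : ℂ) / 2) else 0) := by
      symm
      apply Finset.sum_subset
      · intro i hi; rw [Finset.mem_range] at hi ⊢; omega
      · intro i hi hi'
        rw [Finset.mem_range] at hi hi'
        rw [if_neg]; omega
    have s3 : ∑ p ∈ Finset.range (q + 1),
        (if l = (q:ℤ) - (p:ℤ) then ((w p : ℂ) / 2 * ee 1 θ) else 0) =
        ∑ i ∈ Finset.range (D + 1), (if l = (i:ℤ) then ((w (q - i) : ℂ) / 2 * ee 1 θ) else 0) := by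
      rw [← Finset.sum_range_reflect]
      symm
      apply Finset.sum_subset_zero_on_sdiff
      · intro i hi; rw [Finset.mem_range] at hi ⊢; omega
      · intro i hi
        rw [Finset.mem_sdiff, Finset.mem_range, Finset.mem_range] at hi
        rw [if_neg]; omega
      · intro i hi
        rw [Finset.mem_range] at hi
        have h1 : q + 1 - 1 - i = q - i := by omega
        rw [h1]
        have h2 : ((q - i : ℕ) : ℤ) = q - i := by omega
        rw [h2]
        have h3 : (l = (q:ℤ) - (q - i)) ↔ l = i := by constructor <;> intro h <;> omega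
        simp only [h3]
    have s4 : ∑ p ∈ Finset.range (q + 1),
        (if l = (p:ℤ) - (q:ℤ) then ((w p : ℂ) / 2 * ee (-1) θ) else 0) =
        ∑ i ∈ Finset.range (D + 1),
          (if l = -(i:ℤ) then ((w (q - i) : ℂ) / 2 * ee (-1) θ) else 0) := by
      rw [← Finset.sum_range_reflect]
      symm
      apply Finset.sum_subset_zero_on_sdiff
      · intro i hi; rw [Finset.mem_range] at hi ⊢; omega
      · intro i hi
        rw [Finset.mem_sdiff, Finset.mem_range, Finset.mem_range] at hi
        rw [if_neg]; omega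
      · intro i hi
        rw [Finset.mem_range] at hi
        have h1 : q + 1 - 1 - i = q - i := by omega
        rw [h1]
        have h2 : ((q - i : ℕ) : ℤ) = q - i := by omega
        rw [h2]
        have h3 : (l = ((q:ℤ) - i) - q) ↔ l = -i := by constructor <;> intro h <;> omega
        simp only [h3]
    rw [s1, s2, s3, s4]
    ring

end Pool.Agent.Helper61.Nodal
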