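import Pool.Agent.Helper61.Nodal.Topo

/-!
The functions `A (cos qy ± cos qx)` have many nodal domains; invariance of the number of
nodal domains under the reflection exchanging the coordinates.
-/

namespace Pool.Agent.Helper61.Nodal

open Set Filter Topology

/-- homeomorphic spaces have equivalent sets of connected components -/
noncomputable def ccEquiv {X Y : Type*} [TopologicalSpace X] [TopologicalSpace Y] (e : X ≃ₜ Y) :
    ConnectedComponents X ≃ ConnectedComponents Y where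
  toFun := e.continuous.connectedComponentsMap
  invFun := e.symm.continuous.connectedComponentsMap
  left_inv x := by
    obtain ⟨y, rfl⟩ := ConnectedComponents.surjective_coe x
    rw [Continuous.connectedComponentsMap_mk, Continuous.connectedComponentsMap_mk,
      e.symm_apply_apply]
  right_inv x := by
    obtain ⟨y, rfl⟩ := ConnectedComponents.surjective_coe x
    rw [Continuous.connectedComponentsMap_mk, Continuous.connectedComponentsMap_mk,
      e.apply_symm_apply]

lemma Sqr_swap (z : ℝ × ℝ) : z.swap ∈ Sqr ↔ z ∈ Sqr := by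
  unfold Sqr
  simp only [Set.mem_prod, Prod.fst_swap, Prod.snd_swap]
  tauto

lemma Dom_swap (u : ℝ × ℝ → ℝ) (z : ℝ × ℝ) :
    z ∈ Dom u ↔ z.swap ∈ Dom (fun z => u z.swap) := by
  unfold Dom
  rw [Set.mem_sdiff, Set.mem_sdiff, Sqr_swap]
  have hcl : closure {z : ℝ × ℝ | z ∈ Sqr ∧ u z.swap = 0} =
      Prod.swap ⁻¹' closure {z : ℝ × ℝ | z ∈ Sqr ∧ u z = 0} := by
    have h1 : {z : ℝ × ℝ | z ∈ Sqr ∧ u z.swap = 0} =
        (Homeomorph.prodComm ℝ ℝ) ⁻¹' {z : ℝ × ℝ | z ∈ Sqr ∧ u z = 0} := by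
      ext w
      simp only [Set.mem_ofPred_eq, Set.mem_preimage]
      change _ ↔ w.swap ∈ Sqr ∧ u w.swap = 0
      rw [Sqr_swap]
    rw [h1, ← Homeomorph.preimage_closure]
    rfl
  rw [hcl, Set.mem_preimage, Prod.swap_swap]

/-- the swap homeomorphism between the domains -/
def domSwap (u : ℝ × ℝ → ℝ) : ↥(Dom u) ≃ₜ ↥(Dom (fun z => u z.swap)) :=
  (Homeomorph.prodComm ℝ ℝ).subtype (fun z => Dom_swap u z)

lemma card_swap (u : ℝ × ℝ → ℝ) :
    ENat.card (ConnectedComponents ↥(Dom (fun z => u z.swap))) =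
      ENat.card (ConnectedComponents ↥(Dom u)) :=
  (ENat.card_congr (ccEquiv (domSwap u))).symm

/-- strips -/
theorem strips {A σ : ℝ} (hA : A ≠ 0) {q δ C : ℕ} (hδ : δ ≤ 1) (hσ : (-1 : ℝ) ^ δ = σ)
    (hq : C + 2 ≤ q) {u : ℝ × ℝ → ℝ}
    (hu : ∀ z, u z = A * (Real.cos (q * z.2) + σ * Real.cos (q * z.1))) :
    (C : ℕ∞) ≤ ENat.card (ConnectedComponents ↥(Dom u)) := by
  have hpi := Real.pi_pos
  have hq0 : (0 : ℝ) < q := by
    have : 0 < q := by omega
    exact_mod_cast this
  have hucont : Continuous u := by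
    have : u = fun z => A * (Real.cos (q * z.2) + σ * Real.cos (q * z.1)) := funext hu
    rw [this]; fun_prop
  have hσ2 : σ * σ = 1 := by
    rw [← hσ, ← pow_add, ← two_mul, pow_mul]; norm_num
  have hσ0 : σ ≠ 0 := by rintro rfl; norm_num at hσ2
  set P : ℕ → ℝ × ℝ := fun k => ((k + 1 : ℕ) * Real.pi / q, (k + 1 + δ : ℕ) * Real.pi / q) with hP
  have hcosn : ∀ n : ℕ, Real.cos (q * ((n : ℝ) * Real.pi / q)) = (-1) ^ n := by
    intro n
    rw [show (q : ℝ) * ((n : ℝ) * Real.pi / q) = n * Real.pi by field_simp, Real.cos_nat_mul_pi]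
  have hPne : ∀ k, u (P k) ≠ 0 := by
    intro k
    rw [hu]
    simp only [hP]
    rw [hcosn, hcosn, pow_add, hσ]
    have : (-1 : ℝ) ^ (k + 1) ≠ 0 := pow_ne_zero _ (by norm_num)
    have h2 : A * ((-1 : ℝ) ^ (k + 1) * σ + σ * (-1) ^ (k + 1)) =
        2 * (A * σ * (-1 : ℝ) ^ (k + 1)) := by ring
    rw [h2]
    exact mul_ne_zero two_ne_zero (mul_ne_zero (mul_ne_zero hA hσ0) this)
  have hPmem : ∀ k < C, P k ∈ Dom u := by
    intro k hk
    apply mem_Dom hucont _ (hPne k)
    have hk1 : ((k + 1 : ℕ) : ℝ) < q := by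
      have : k + 1 < q := by omega
      exact_mod_cast this
    have hk2 : ((k + 1 + δ : ℕ) : ℝ) < q := by
      have : k + 1 + δ < q := by omega
      exact_mod_cast this
    have hk3 : (0 : ℝ) < ((k + 1 : ℕ) : ℝ) := by positivity
    have hk4 : (0 : ℝ) < ((k + 1 + δ : ℕ) : ℝ) := by positivity
    simp only [hP]
    refine ⟨⟨by positivity, ?_⟩, ⟨by positivity, ?_⟩⟩
    · rw [div_lt_iff₀ hq0]; nlinarith
    · rw [div_lt_iff₀ hq0]; nlinarith
  -- the separating lines
  have hline : ∀ k : ℕ, ∀ z : ℝ × ℝ, z.1 + z.2 = (2 * k + 3 + δ : ℕ) * Real.pi / q → u z = 0 := by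
    intro k z hz
    rw [hu]
    have h1 : (q : ℝ) * z.2 = (2 * k + 3 + δ : ℕ) * Real.pi - q * z.1 := by
      have : z.2 = (2 * k + 3 + δ : ℕ) * Real.pi / q - z.1 := by linarith
      rw [this]
      field_simp
    rw [h1, Real.cos_nat_mul_pi_sub]
    have h2 : (-1 : ℝ) ^ (2 * k + 3 + δ) = -σ := by
      rw [pow_add, pow_add, pow_mul, hσ]; norm_num
    rw [h2]
    ring
  have hsep : ∀ k l : ℕ, ∀ (hk : k < C) (hl : l < C), k < l →
      ConnectedComponents.mk (⟨P k, hPmem k hk⟩ : ↥(Dom u)) ≠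
        ConnectedComponents.mk ⟨P l, hPmem l hl⟩ := by
    intro k l hk hl hkl heq
    rw [ConnectedComponents.coe_eq_coe'] at heq
    set K := connectedComponent (⟨P l, hPmem l hl⟩ : ↥(Dom u)) with hK
    have hKc : IsPreconnected K := isPreconnected_connectedComponent
    have hfc : Continuous (fun z : ↥(Dom u) => (z : ℝ × ℝ).1 + (z : ℝ × ℝ).2) := by fun_prop
    have himg := hKc.image _ hfc.continuousOn
    have hk' : ((P k).1 + (P k).2) ∈ (fun z : ↥(Dom u) => (z : ℝ × ℝ).1 + (z : ℝ × ℝ).2) '' K :=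
      ⟨_, heq, rfl⟩
    have hl' : ((P l).1 + (P l).2) ∈ (fun z : ↥(Dom u) => (z : ℝ × ℝ).1 + (z : ℝ × ℝ).2) '' K :=
      ⟨_, mem_connectedComponent, rfl⟩
    have hmid : ((2 * k + 3 + δ : ℕ) * Real.pi / q) ∈
        Icc ((P k).1 + (P k).2) ((P l).1 + (P l).2) := by
      have hkl' : (k : ℝ) + 1 ≤ l := by exact_mod_cast hkl
      simp only [hP]
      constructor
      · rw [← add_div, div_le_div_iff_of_pos_right hq0]
        push_cast
        nlinarith
      · rw [← add_div, div_le_div_iff_of_pos_right hq0]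
        push_cast
        nlinarith
    obtain ⟨w, _, hw⟩ := himg.Icc_subset hk' hl' hmid
    exact ne_zero_of_mem_Dom w.2 (hline k _ hw)
  -- injection
  have hinj : Function.Injective (fun i : Fin C =>
      ConnectedComponents.mk (⟨P i, hPmem i i.2⟩ : ↥(Dom u))) := by
    intro i i' h
    by_contra hne
    rcases lt_or_gt_of_ne hne with hlt | hgt
    · exact hsep i i' i.2 i'.2 hlt h
    · exact hsep i' i i'.2 i.2 hgt h.symm
  have h1 := ENat.card_le_card_of_injective hinj
  simpa using h1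

end Pool.Agent.Helper61.Nodal
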