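import Pool.Agent.Helper61.Nodal.Spectral
import Pool.Agent.Helper61.Nodal.Strips

/-!
Neumann eigenfunctions of the square: the number of nodal domains tends to infinity.
-/

namespace Pool.Agent.Helper61.Nodal

open Set Filter Topology

/-- the eigenspace -/
def Eig (lam : ℝ) : Submodule ℝ (ℝ × ℝ → ℝ) :=
  Submodule.span ℝ {f | ∃ p q : ℕ, (p : ℝ) ^ 2 + (q : ℝ) ^ 2 = lam ∧
    f = fun z => Real.cos (p * z.1) * Real.cos (q * z.2)}

/-- normal form of an eigenfunction -/
noncomputable def eigf (lam : ℕ) (a : ℕ → ℝ) (z : ℝ × ℝ) : ℝ :=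
  ∑ p ∈ Finset.range (lam + 1), a p * (Real.cos (p * z.1) * Real.cos (sq lam p * z.2))

lemma Eig_normal {lam : ℕ} {u : ℝ × ℝ → ℝ} (hu : u ∈ Eig lam) :
    ∃ a : ℕ → ℝ, (∀ p, ¬ InS lam p → a p = 0) ∧ u = eigf lam a := by
  classical
  unfold Eig at hu
  induction hu using Submodule.span_induction with
  | zero => exact ⟨fun _ => 0, fun _ _ => rfl, by funext z; simp [eigf]⟩
  | add f g _ _ hf hg =>
    obtain ⟨a, ha, rfl⟩ := hf
    obtain ⟨b, hb, rfl⟩ := hg
    refine ⟨fun p => a p + b p, fun p hp => by beta_reduce; rw [ha p hp, hb p hp, add_zero], ?_⟩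
    funext z
    simp only [eigf, Pi.add_apply, ← Finset.sum_add_distrib]
    apply Finset.sum_congr rfl
    intro p _
    ring
  | smul c f _ hf =>
    obtain ⟨a, ha, rfl⟩ := hf
    refine ⟨fun p => c * a p, fun p hp => by beta_reduce; rw [ha p hp, mul_zero], ?_⟩
    funext z
    simp only [eigf, Pi.smul_apply, smul_eq_mul, Finset.mul_sum]
    apply Finset.sum_congr rfl
    intro p _
    ring
  | mem f hf =>
    obtain ⟨p, q, hpq, rfl⟩ := hf
    have hpq' : p ^ 2 + q ^ 2 = lam := by exact_mod_cast hpq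
    refine ⟨fun p' => if p' = p then 1 else 0, ?_, ?_⟩
    · intro p' hp'
      simp only
      rw [if_neg]
      rintro rfl
      exact hp' ⟨q, hpq'⟩
    · funext z
      unfold eigf
      rw [Finset.sum_eq_single p]
      · beta_reduce
        rw [if_pos rfl, one_mul, sq_eq hpq']
      · intro p' _ hne
        beta_reduce
        rw [if_neg hne, zero_mul]
      · intro h
        exact absurd (Finset.mem_range.mpr (by nlinarith)) h

lemma continuous_eigf (lam : ℕ) (a : ℕ → ℝ) : Continuous (eigf lam a) := by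
  unfold eigf
  fun_prop

lemma eigf_bottom (lam : ℕ) (a : ℕ → ℝ) : (fun t => eigf lam a (t, 0)) = WW lam a := by
  funext t
  unfold eigf WW
  apply Finset.sum_congr rfl
  intro p _
  simp

lemma eigf_left (lam : ℕ) (a : ℕ → ℝ) (ha : ∀ p, ¬ InS lam p → a p = 0) :
    (fun t => eigf lam a ((t, 0) : ℝ × ℝ).swap) = WW lam (dual lam a) := by
  classical
  funext t
  unfold eigf WW
  have h1 : ∑ p ∈ Finset.range (lam + 1), a p *
      (Real.cos (p * ((t, 0) : ℝ × ℝ).swap.1) * Real.cos (sq lam p * ((t, 0) : ℝ × ℝ).swap.2)) =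
      ∑ p ∈ (Finset.range (lam + 1)).filter (InS lam), a p * Real.cos (sq lam p * t) := by
    rw [Finset.sum_filter]
    apply Finset.sum_congr rfl
    intro p _
    by_cases h : InS lam p
    · rw [if_pos h]; simp
    · rw [if_neg h, ha p h, zero_mul]
  have h2 : ∑ p ∈ Finset.range (lam + 1), dual lam a p * Real.cos (p * t) =
      ∑ p ∈ (Finset.range (lam + 1)).filter (InS lam), a (sq lam p) * Real.cos (p * t) := by
    rw [Finset.sum_filter]
    apply Finset.sum_congr rfl
    intro p _
    unfold dual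
    by_cases h : InS lam p
    · rw [if_pos h, if_pos h]
    · rw [if_neg h, if_neg h, zero_mul]
  rw [h1, h2]
  apply Finset.sum_nbij' (sq lam) (sq lam)
  · intro p hp
    rw [Finset.mem_filter, Finset.mem_range] at hp ⊢
    exact ⟨Nat.lt_succ_of_le (InS_le (InS_sq hp.2)), InS_sq hp.2⟩
  · intro p hp
    rw [Finset.mem_filter, Finset.mem_range] at hp ⊢
    exact ⟨Nat.lt_succ_of_le (InS_le (InS_sq hp.2)), InS_sq hp.2⟩
  · intro p hp
    rw [Finset.mem_filter] at hp
    exact sq_sq hp.2
  · intro p hp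
    rw [Finset.mem_filter] at hp
    exact sq_sq hp.2
  · intro p hp
    rw [Finset.mem_filter] at hp
    rw [sq_sq hp.2]

/-- **uniform lower bound** -/
theorem main (C : ℕ) : ∃ Λ : ℝ, ∀ lam : ℝ, Λ < lam → ∀ u ∈ Eig lam, u ≠ 0 →
    (C : ℕ∞) ≤ ENat.card (ConnectedComponents ↥(Dom u)) := by
  classical
  obtain ⟨lam0, hlam0⟩ := spectral (2 * C ^ 2 + 1)
  refine ⟨(lam0 : ℝ) + (C + 2) ^ 2 + 1, fun lamr hlamr u hu hne => ?_⟩
  -- the eigenvalue is a natural number
  obtain ⟨lam, rfl⟩ : ∃ lam : ℕ, lamr = lam := by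
    by_contra hcon
    push Not at hcon
    apply hne
    have hempty : {f : ℝ × ℝ → ℝ | ∃ p q : ℕ, (p : ℝ) ^ 2 + (q : ℝ) ^ 2 = lamr ∧
        f = fun z => Real.cos (p * z.1) * Real.cos (q * z.2)} = ∅ := by
      rw [Set.eq_empty_iff_forall_notMem]
      rintro f ⟨p, q, hpq, _⟩
      apply hcon (p ^ 2 + q ^ 2)
      rw [← hpq]
      push_cast
      ring
    unfold Eig at hu
    rw [hempty, Submodule.span_empty, Submodule.mem_bot] at hu
    exact hu
  have hlam1 : lam0 < lam := by
    have h1 : (0 : ℝ) ≤ (C + 2) ^ 2 := by positivity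
    have : (lam0 : ℝ) < lam := by linarith
    exact_mod_cast this
  have hlam2 : (C + 2) ^ 2 < lam := by
    have h1 : (0 : ℝ) ≤ lam0 := by positivity
    have : ((C : ℝ) + 2) ^ 2 < lam := by linarith
    exact_mod_cast this
  obtain ⟨a, ha, rfl⟩ := Eig_normal hu
  by_contra hcon
  push Not at hcon
  have hcard : ENat.card (ConnectedComponents ↥(Dom (eigf lam a))) ≤ C := hcon.le
  have hcard' : ENat.card (ConnectedComponents ↥(Dom (fun z => eigf lam a z.swap))) ≤ C := by
    rw [card_swap]; exact hcard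
  have hA1 := no_alt (continuous_eigf lam a) hcard 1
  have hA2 := no_alt ((continuous_eigf lam a).comp continuous_swap) hcard' 1
  rw [eigf_bottom] at hA1
  have hswap : (fun t => (eigf lam a ∘ Prod.swap) ((t, 0) : ℝ × ℝ)) = WW lam (dual lam a) :=
    eigf_left lam a ha
  rw [hswap] at hA2
  obtain ⟨φ, hφ⟩ := sign_factor (j := 2 * C ^ 2 + 1) hA1
  obtain ⟨φ', hφ'⟩ := sign_factor (j := 2 * C ^ 2 + 1) hA2
  rcases hlam0 lam a (-1) (-1) φ φ' hlam1 ha (by simp) (by simp) hφ hφ' with h | h
  · apply hne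
    funext z
    unfold eigf
    rw [Pi.zero_apply]
    exact Finset.sum_eq_zero (fun p _ => by rw [h p, zero_mul])
  · obtain ⟨q, hq, hsupp, habs⟩ := h
    have hqC : C + 2 < q := by
      by_contra hcon
      push Not at hcon
      have := Nat.pow_le_pow_left hcon 2
      omega
    have hq0 : q ≠ 0 := by omega
    have hsq0 : sq lam 0 = q := sq_eq (by rw [hq]; ring)
    have hsqq : sq lam q = 0 := sq_eq (by rw [hq]; ring)
    have hqlam : q ≤ lam := by rw [hq]; nlinarith
    -- explicit form
    have hform : ∀ z, eigf lam a z = a 0 * Real.cos (q * z.2) + a q * Real.cos (q * z.1) := by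
      intro z
      unfold eigf
      have hsub : ∑ p ∈ Finset.range (lam + 1), a p * (Real.cos (p * z.1) *
          Real.cos (sq lam p * z.2)) = ∑ p ∈ ({0, q} : Finset ℕ), a p * (Real.cos (p * z.1) *
          Real.cos (sq lam p * z.2)) := by
        symm
        apply Finset.sum_subset
        · intro p hp
          rw [Finset.mem_insert, Finset.mem_singleton] at hp
          rw [Finset.mem_range]
          omega
        · intro p _ hp
          rw [Finset.mem_insert, Finset.mem_singleton] at hp
          push Not at hp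
          rw [hsupp p hp.1 hp.2, zero_mul]
      rw [hsub, Finset.sum_pair (Ne.symm hq0), hsq0, hsqq]
      simp
    have ha0 : a 0 ≠ 0 := by
      intro h0
      apply hne
      have haq : a q = 0 := by
        rw [h0, abs_zero] at habs
        exact abs_eq_zero.mp habs.symm
      funext z
      rw [hform, h0, haq]
      simp
    rcases abs_eq_abs.mp habs with h | h
    · have := strips (A := a 0) (σ := 1) ha0 (q := q) (δ := 0) (C := C) (by norm_num) (by simp)
        (by omega) (u := eigf lam a) (by intro z; rw [hform, ← h]; ring)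
      exact absurd hcon (not_lt.mpr this)
    · have haq : a q = - a 0 := by rw [h]; ring
      have := strips (A := a 0) (σ := -1) ha0 (q := q) (δ := 1) (C := C) (by norm_num) (by simp)
        (by omega) (u := eigf lam a) (by intro z; rw [hform, haq]; ring)
      exact absurd hcon (not_lt.mpr this)

end Pool.Agent.Helper61.Nodal
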