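import Pool.Agent.Helper61.Nodal.SecondOrder

/-!
Rigidity: the extremal case.
-/

namespace Pool.Agent.Helper61.Nodal

open Complex Set Filter Topology

lemma comb_mul_ee {q j N : ℕ} (hN : 2 * q + 2 * j < N) {F : ℝ → ℂ} (hF : F ∈ Trig (q + j))
    {n : ℕ} (hn1 : j < n) (hn2 : n + j < q) (θ : ℝ) :
    comb q θ (F * ee (-n)) = coef N n F + ee (-1) θ * coef N ((n : ℤ) - q) F := by
  have hq0 : q ≠ 0 := by omega
  unfold Trig at hF
  induction hF using Submodule.span_induction with
  | zero => simp
  | add f g _ _ hf hg =>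
    rw [add_mul, map_add, hf, hg]
    simp only [map_add, mul_add]
    ring
  | smul c f _ hf =>
    rw [smul_mul_assoc, map_smul, hf]
    simp only [map_smul, smul_eq_mul]
    ring
  | mem f hf =>
    obtain ⟨l, hl, rfl⟩ := hf
    simp only [Set.mem_ofPred_eq] at hl
    have habs := abs_le.mp hl
    push_cast at habs
    rw [← ee_add, coef_ee (by rw [abs_lt]; constructor <;> omega),
      coef_ee (by rw [abs_lt]; constructor <;> omega)]
    by_cases h1 : l = n
    · rw [if_pos h1, if_neg (by omega), h1, add_neg_cancel]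
      have := comb_ee_mul hq0 θ 0
      rw [mul_zero, ee_zero_apply] at this
      rw [this]
      ring
    · by_cases h2 : l = (n : ℤ) - q
      · rw [if_neg h1, if_pos h2]
        have := comb_ee_mul hq0 θ (-1)
        rw [h2, show (n : ℤ) - q + -n = q * (-1) by ring, this]
        ring
      · rw [if_neg h1, if_neg h2, mul_zero, add_zero]
        apply comb_ee_not_dvd hq0
        rintro ⟨m, hm⟩
        have hm1 : m < 1 := by
          by_contra hcon
          push Not at hcon
          have : (q : ℤ) * 1 ≤ q * m := by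
            apply mul_le_mul_of_nonneg_left hcon (by positivity)
          omega
        have hm2 : -2 < m := by
          by_contra hcon
          push Not at hcon
          have : (q : ℤ) * m ≤ q * (-2) := by
            apply mul_le_mul_of_nonneg_left hcon (by positivity)
          omega
        have : m = 0 ∨ m = -1 := by omega
        rcases this with rfl | rfl <;> omega

lemma norm_comb_mul_ee_le {q : ℕ} {θ : ℝ} {f : ℝ → ℝ} (hf : ∀ x, 0 ≤ f x) (n : ℤ) :
    ‖comb q θ ((fun x => (f x : ℂ)) * ee n)‖ ≤ (comb q θ (fun x => (f x : ℂ))).re := by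
  rw [comb_apply, comb_apply, norm_mul]
  have h1 : (1 / (q : ℂ)) = ((1 / (q : ℝ) : ℝ) : ℂ) := by push_cast; rfl
  rw [h1, Complex.re_ofReal_mul, Complex.re_sum, Complex.norm_real, Real.norm_eq_abs,
    abs_of_nonneg (by positivity)]
  gcongr
  refine (norm_sum_le _ _).trans (le_of_eq ?_)
  apply Finset.sum_congr rfl
  intro k _
  rw [Pi.mul_apply, norm_mul, norm_ee, mul_one, Complex.norm_real, Complex.ofReal_re,
    Real.norm_eq_abs, abs_of_nonneg (hf _)]

theorem rigid {j q : ℕ} {w : ℕ → ℝ} {φ : ℕ → ℝ} (hq : 4 * j + 2 < q)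
    (hw : ∀ i, 1 ≤ i → i ≤ 2 * j + 1 → w i = 0) (hw' : ∀ i, 1 ≤ i → i ≤ 2 * j + 1 → w (q - i) = 0)
    (h0 : |w q| = |w 0|) (hpos : ∀ x, 0 ≤ WW q w x * QQ j φ x) :
    ∀ i, 1 ≤ i → i < q → w i = 0 := by
  by_cases hw0 : w 0 = 0
  · intro i _ h2
    apply zero_mean hpos _ i h2.le
    intro i hi
    by_cases h : i = 0
    · rw [h, hw0]
    · exact hw i (by omega) (by omega)
  -- sign
  obtain ⟨σ, hσ, hσq⟩ : ∃ σ : ℝ, σ * σ = 1 ∧ w q = σ * w 0 := by
    rcases abs_eq_abs.mp h0 with h | h
    · exact ⟨1, by norm_num, by rw [h, one_mul]⟩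
    · exact ⟨-1, by norm_num, by rw [h]; ring⟩
  obtain ⟨θ0, hθ0⟩ : ∃ θ0 : ℝ, ee 1 θ0 = ((-σ : ℝ) : ℂ) := by
    have : (σ - 1) * (σ + 1) = 0 := by linear_combination hσ
    rcases mul_eq_zero.mp this with h | h
    · refine ⟨Real.pi, ?_⟩
      have : σ = 1 := by linarith
      rw [this, ee_apply]; simp
    · refine ⟨0, ?_⟩
      have : σ = -1 := by linarith
      rw [this, ee_apply]; simp
  set N : ℕ := 4 * q + 4 * j + 2 with hN
  set T : ℝ → ℂ := fun x => ((WW q w x * QQ j φ x : ℝ) : ℂ) with hT
  have hTmem : T ∈ Trig (q + j) := by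
    have := Trig_mul (WW_mem_Trig q w) (QC_mem j φ)
    convert this using 1
    funext x
    rw [hT, Pi.mul_apply, QC, ← Complex.ofReal_mul]
  -- the comb average of T
  set a : ℝ := (coef N 0 (QC j φ)).re with ha
  have hcoef0 : coef N 0 (QC j φ) = (a : ℂ) := by
    have h1 := coef_neg_eq_conj (N := N) (l := 0) (F := QC j φ) (fun x => Complex.ofReal_im _)
    rw [neg_zero] at h1
    exact (Complex.conj_eq_iff_re.mp h1.symm).symm
  have hcomb : ∀ θ, (comb q θ T).re = w 0 * a + w q * (ee 1 θ).re * a := by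
    intro θ
    have h1 := comb_WW_re (q := q) (D := j) (N := N) (by omega) (by omega) w θ (QC_mem j φ)
    rw [hT, h1, Finset.sum_eq_single 0, Finset.sum_eq_single 0]
    · rw [Nat.sub_zero, Nat.cast_zero]
      change w 0 * (coef N 0 (QC j φ)).re + (ee 1 θ * ((w q : ℂ) * coef N 0 (QC j φ))).re = _
      rw [hcoef0, Complex.ofReal_re]
      have : ee 1 θ * ((w q : ℂ) * (a : ℂ)) = ((w q * a : ℝ) : ℂ) * ee 1 θ := by
        push_cast; ring
      rw [this, Complex.re_ofReal_mul]
      ring
    · intro i hi hi0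
      rw [Finset.mem_range] at hi
      rw [hw' i (by omega) (by omega)]
      simp
    · intro h
      exact absurd (Finset.mem_range.mpr (by omega)) h
    · intro i hi hi0
      rw [Finset.mem_range] at hi
      rw [hw i (by omega) (by omega)]
      simp
    · intro h
      exact absurd (Finset.mem_range.mpr (by omega)) h
  -- the coefficients of T vanish in the middle
  have hmid : ∀ n : ℕ, j < n → n + j < q → coef N n T = 0 := by
    intro n hn1 hn2
    set B : ℝ := w 0 * a with hB
    have hineq : ∀ h : ℝ, ‖coef N n T - σ * ee (-1) h * coef N ((n : ℤ) - q) T‖ ≤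
        B * (1 - Real.cos h) := by
      intro h
      have h1 := norm_comb_mul_ee_le (q := q) (θ := θ0 + h) hpos (-n)
      change ‖comb q (θ0 + h) (T * ee (-n))‖ ≤ (comb q (θ0 + h) T).re at h1
      rw [comb_mul_ee (N := N) (by omega) hTmem hn1 hn2, hcomb, ee_add_arg, ee_add_arg, hθ0] at h1
      have h2 : ee (-1) θ0 = ((-σ : ℝ) : ℂ) := by
        rw [← conj_ee, hθ0, Complex.conj_ofReal]
      rw [h2, Complex.re_ofReal_mul] at h1
      have h3 : (ee 1 h).re = Real.cos h := by
        rw [ee_apply]
        have : ((1 : ℤ) : ℂ) * (h : ℂ) * I = (h : ℂ) * I := by push_cast; ring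
        rw [this, Complex.exp_ofReal_mul_I_re]
      rw [h3, hσq] at h1
      have h4 : w 0 * a + σ * w 0 * (-σ * Real.cos h) * a = B * (1 - Real.cos h) := by
        rw [hB]
        linear_combination (-(w 0) * Real.cos h * a) * hσ
      rw [h4] at h1
      convert h1 using 2
      push_cast
      ring
    have h5 := hineq 0
    rw [Real.cos_zero, sub_self, mul_zero] at h5
    have h6 : ee (-1) 0 = 1 := by rw [ee_apply]; simp
    rw [h6, mul_one] at h5
    have h7 : coef N n T = σ * coef N ((n : ℤ) - q) T := by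
      have := norm_le_zero_iff.mp h5
      exact sub_eq_zero.mp this
    set s := ‖coef N n T‖ with hs
    have h8 : ∀ δ : ℝ, 0 < δ → δ ≤ 1 → 2 * s ^ 2 ≤ B ^ 2 * δ := by
      intro δ hδ hδ1
      have h9 := hineq (Real.arccos (1 - δ))
      rw [Real.cos_arccos (by linarith) (by linarith)] at h9
      have h10 : coef N n T - σ * ee (-1) (Real.arccos (1 - δ)) * coef N ((n : ℤ) - q) T =
          coef N n T * (1 - ee (-1) (Real.arccos (1 - δ))) := by
        have : (σ : ℂ) * coef N ((n : ℤ) - q) T = coef N n T := h7.symm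
        linear_combination (-ee (-1) (Real.arccos (1 - δ))) * this
      rw [h10, norm_mul] at h9
      have h11 : ‖1 - ee (-1) (Real.arccos (1 - δ))‖ ^ 2 = 2 * δ := by
        rw [← Complex.normSq_eq_norm_sq, Complex.normSq_apply]
        have h12 : ee (-1) (Real.arccos (1 - δ)) =
            Complex.exp (((-(Real.arccos (1 - δ)) : ℝ) : ℂ) * I) := by
          rw [ee_apply]
          congr 1
          push_cast
          ring
        rw [h12, Complex.sub_re, Complex.sub_im, Complex.exp_ofReal_mul_I_re,
          Complex.exp_ofReal_mul_I_im, Complex.one_re, Complex.one_im, Real.cos_neg, Real.sin_neg]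
        have h13 := Real.sin_sq_add_cos_sq (Real.arccos (1 - δ))
        rw [Real.cos_arccos (by linarith) (by linarith)] at h13 ⊢
        nlinarith
      have h14 : (s * ‖1 - ee (-1) (Real.arccos (1 - δ))‖) ^ 2 ≤ (B * (1 - (1 - δ))) ^ 2 :=
        pow_le_pow_left₀ (by positivity) h9 2
      rw [mul_pow, h11] at h14
      have h15 : (B * (1 - (1 - δ))) ^ 2 = B ^ 2 * δ * δ := by ring
      rw [h15] at h14
      have h16 : 2 * s ^ 2 * δ ≤ B ^ 2 * δ * δ := by linarith
      exact le_of_mul_le_mul_right h16 hδ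
    have hs0 : s = 0 := by
      by_contra hne
      have hs1 : 0 < s := lt_of_le_of_ne (norm_nonneg _) (Ne.symm hne)
      have h17 := h8 (min 1 (s ^ 2 / (B ^ 2 + 1))) (by positivity) (min_le_left _ _)
      have h18 : B ^ 2 * min 1 (s ^ 2 / (B ^ 2 + 1)) ≤ B ^ 2 * (s ^ 2 / (B ^ 2 + 1)) := by
        gcongr; exact min_le_right _ _
      have h19 : B ^ 2 * (s ^ 2 / (B ^ 2 + 1)) ≤ s ^ 2 := by
        rw [← mul_div_assoc, div_le_iff₀ (by positivity)]
        nlinarith [sq_nonneg B, sq_nonneg s]
      have h20 : 0 < s ^ 2 := by positivity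
      linarith
    exact norm_eq_zero.mp hs0
  -- the middle part
  set wm : ℕ → ℝ := fun p => if p = 0 ∨ p = q then 0 else w p with hwm
  have hwm0 : ∀ p, p ≤ 2 * j + 1 → wm p = 0 := by
    intro p hp
    simp only [hwm]
    by_cases h : p = 0 ∨ p = q
    · rw [if_pos h]
    · rw [if_neg h]; exact hw p (by omega) hp
  have hwmq : ∀ p, p ≤ q → q ≤ p + (2 * j + 1) → wm p = 0 := by
    intro p hp1 hp2
    simp only [hwm]
    by_cases h : p = 0 ∨ p = q
    · rw [if_pos h]
    · rw [if_neg h]
      have := hw' (q - p) (by omega) (by omega)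
      rwa [show q - (q - p) = p by omega] at this
  set Tm : ℝ → ℂ := (fun x => ((WW q wm x : ℝ) : ℂ)) * QC j φ with hTm
  have hcoefTm : ∀ n : ℕ, n ≤ q + j → coef N n Tm = 0 := by
    intro n hn
    by_cases h : j < n ∧ n + j < q
    · have h1 := hmid n h.1 h.2
      have h2 : T = (fun x => ((WW q w x : ℝ) : ℂ)) * QC j φ := by
        funext x
        rw [hT, Pi.mul_apply, QC, ← Complex.ofReal_mul]
      rw [h2, coef_WW_mul] at h1
      rw [hTm, coef_WW_mul, ← h1]
      apply Finset.sum_congr rfl
      intro p hp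
      rw [Finset.mem_range] at hp
      by_cases hp' : p = 0 ∨ p = q
      · rcases hp' with rfl | rfl
        · rw [coef_eq_zero (l := (n : ℤ) - (0 : ℕ)) (QC_mem j φ),
            coef_eq_zero (l := (n : ℤ) + (0 : ℕ)) (QC_mem j φ)]
          · simp
          · rw [lt_abs]; left; omega
          · rw [abs_of_nonneg (by positivity)]; omega
          · rw [lt_abs]; left; omega
          · rw [show (n : ℤ) - (0 : ℕ) = n by simp, abs_of_nonneg (by positivity)]; omega
        · rw [coef_eq_zero (l := (n : ℤ) - (p : ℕ)) (QC_mem j φ),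
            coef_eq_zero (l := (n : ℤ) + (p : ℕ)) (QC_mem j φ)]
          · simp
          · rw [lt_abs]; left; omega
          · rw [abs_of_nonneg (by positivity)]; omega
          · rw [lt_abs]; right; omega
          · have : |(n : ℤ) - p| ≤ p := by rw [abs_le]; constructor <;> omega
            omega
      · simp only [hwm]
        rw [if_neg hp']
    · rw [hTm, coef_WW_mul]
      apply Finset.sum_eq_zero
      intro p hp
      rw [Finset.mem_range] at hp
      by_cases hp1 : p ≤ 2 * j + 1
      · rw [hwm0 p hp1]; simp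
      by_cases hp2 : q ≤ p + (2 * j + 1)
      · rw [hwmq p (by omega) hp2]; simp
      rw [coef_eq_zero (l := (n : ℤ) - (p : ℕ)) (QC_mem j φ),
        coef_eq_zero (l := (n : ℤ) + (p : ℕ)) (QC_mem j φ)]
      · simp
      · rw [lt_abs]; left; omega
      · rw [abs_of_nonneg (by positivity)]; omega
      · rw [lt_abs]
        by_cases h3 : n ≤ j
        · right; omega
        · left; omega
      · have : |(n : ℤ) - p| ≤ q + j := by rw [abs_le]; constructor <;> omega
        omega
  have hTmmem : Tm ∈ Trig (q + j) := Trig_mul (WW_mem_Trig q wm) (QC_mem j φ)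
  have hTm0 : ∀ x, Tm x = 0 := by
    intro x
    rw [Trig_expand (N := N) (D := q + j) (by omega) hTmmem x]
    apply Finset.sum_eq_zero
    intro n hn
    rw [Finset.mem_Icc] at hn
    have h1 : coef N n Tm = 0 := by
      by_cases h : 0 ≤ n
      · obtain ⟨k, rfl⟩ := Int.eq_ofNat_of_zero_le h
        exact hcoefTm k (by omega)
      · have h2 := hcoefTm (-n).toNat (by omega)
        rw [Int.toNat_of_nonneg (by omega)] at h2
        have h3 := coef_neg_eq_conj (N := N) (l := -n) (F := Tm) (fun x => by
          rw [hTm, Pi.mul_apply, QC, ← Complex.ofReal_mul, Complex.ofReal_im])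
        rw [neg_neg, h2, map_zero] at h3
        exact h3
    rw [h1, zero_mul]
  have hfin := WW_eq_zero (WW_zero_of_mul (q := q) (j := j) (w := wm) (φ := φ) (by
    intro x
    have := hTm0 x
    rw [hTm, Pi.mul_apply, QC, ← Complex.ofReal_mul] at this
    exact_mod_cast this))
  intro i hi1 hi2
  have := hfin i hi2.le
  simp only [hwm] at this
  rwa [if_neg (by omega)] at this

end Pool.Agent.Helper61.Nodal
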