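import Pool.Agent.Helper61.Nodal.ZeroMean
import Pool.Agent.Helper61.Nodal.Arith

/-!
Second order analysis for `λ = q²`.
-/

namespace Pool.Agent.Helper61.Nodal

open Complex Set Filter Topology

/-- the functional `Λ_c` -/
noncomputable def Lam (N D : ℕ) (c : ℕ → ℝ) (f : ℝ → ℝ) : ℝ :=
  ∑ i ∈ Finset.range (D + 1), c i * (coef N i (fun x => (f x : ℂ))).re

lemma Lam_add (N D : ℕ) (c : ℕ → ℝ) (f g : ℝ → ℝ) :
    Lam N D c (fun x => f x + g x) = Lam N D c f + Lam N D c g := by
  unfold Lam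
  rw [← Finset.sum_add_distrib]
  apply Finset.sum_congr rfl
  intro i _
  have : (fun x => ((f x + g x : ℝ) : ℂ)) = (fun x => (f x : ℂ)) + (fun x => (g x : ℂ)) := by
    funext x; simp
  rw [this, map_add, Complex.add_re]
  ring

lemma Lam_smul (N D : ℕ) (c : ℕ → ℝ) (a : ℝ) (f : ℝ → ℝ) :
    Lam N D c (fun x => a * f x) = a * Lam N D c f := by
  unfold Lam
  rw [Finset.mul_sum]
  apply Finset.sum_congr rfl
  intro i _
  have : (fun x => ((a * f x : ℝ) : ℂ)) = (a : ℂ) • (fun x => (f x : ℂ)) := by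
    funext x; simp
  rw [this, map_smul, smul_eq_mul, Complex.re_ofReal_mul]
  ring

lemma Lam_abs_le (N D : ℕ) (c : ℕ → ℝ) {f : ℝ → ℝ} {M : ℝ} (hM : ∀ x, |f x| ≤ M) :
    |Lam N D c f| ≤ (∑ i ∈ Finset.range (D + 1), |c i|) * M := by
  unfold Lam
  refine (Finset.abs_sum_le_sum_abs _ _).trans ?_
  rw [Finset.sum_mul]
  apply Finset.sum_le_sum
  intro i _
  rw [abs_mul]
  apply mul_le_mul_of_nonneg_left _ (abs_nonneg _)
  refine (Complex.abs_re_le_norm _).trans (norm_coef_le ?_)
  intro x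
  rw [Complex.norm_real]
  exact hM x

lemma coef_mul_cos (N : ℕ) (n : ℤ) (l : ℕ) (f : ℝ → ℝ) :
    coef N n (fun x => ((f x * Real.cos (l * x) : ℝ) : ℂ)) =
      (coef N (n - l) (fun x => (f x : ℂ)) + coef N (n + l) (fun x => (f x : ℂ))) / 2 := by
  have h : (fun x => ((f x * Real.cos (l * x) : ℝ) : ℂ)) =
      (1 / 2 : ℂ) • ((fun x => (f x : ℂ)) * ee l + (fun x => (f x : ℂ)) * ee (-l)) := by
    funext x
    rw [Complex.ofReal_mul, cos_eq_ee]
    simp only [Pi.smul_apply, Pi.add_apply, Pi.mul_apply, smul_eq_mul]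
    ring
  rw [h, map_smul, map_add, coef_mul_ee, coef_mul_ee, sub_neg_eq_add, smul_eq_mul]
  ring

lemma coef_const_mul (N : ℕ) (n : ℤ) (a : ℝ) (f : ℝ → ℝ) :
    coef N n (fun x => ((a * f x : ℝ) : ℂ)) = a * coef N n (fun x => (f x : ℂ)) := by
  have : (fun x => ((a * f x : ℝ) : ℂ)) = (a : ℂ) • (fun x => (f x : ℂ)) := by
    funext x; simp
  rw [this, map_smul, smul_eq_mul]

/-- **growth bound** -/
lemma growth {j D N : ℕ} (hjD : j ≤ D) (hN : 2 * D + 2 * j + 1 < N) {c : ℕ → ℝ} {φ : ℕ → ℝ}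
    {τ : ℝ} (hτ : |τ| = 1) {κ : ℝ} (hκ : ∀ i ≤ j, |c i| ≤ κ)
    (hpos : ∀ l : ℕ, l + j ≤ D → ∀ s : ℝ, |s| ≤ 1 →
      0 ≤ Lam N D c (fun x => τ * QQ j φ x * (1 + s * Real.cos (l * x)))) :
    ∀ n ≤ D + 1, ∑ i ∈ Finset.range n, |c i| ≤ (j + 1) * (1 + 4 ^ (j + 1)) ^ n * κ := by
  have hκ0 : 0 ≤ κ := (abs_nonneg _).trans (hκ 0 (Nat.zero_le _))
  -- the coefficient estimate
  have key : ∀ i, j < i → i ≤ D → |c i| ≤ 4 ^ (j + 1) * ∑ i' ∈ Finset.range i, |c i'| := by
    intro i hji hiD
    obtain ⟨l, rfl⟩ : ∃ l, i = l + j := ⟨i - j, by omega⟩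
    have hl1 : 1 ≤ l := by omega
    set S := ∑ i' ∈ Finset.range (l + j), |c i'| with hS
    have hsplit : ∀ s : ℝ, Lam N D c (fun x => τ * QQ j φ x * (1 + s * Real.cos (l * x))) =
        Lam N D c (fun x => τ * QQ j φ x) + s * Lam N D c (fun x => τ * (QQ j φ x * Real.cos (l * x))) := by
      intro s
      rw [← Lam_smul, ← Lam_add]
      congr 1
      funext x
      ring
    have h1 := hpos l hiD 1 (by simp)
    have h2 := hpos l hiD (-1) (by simp)
    rw [hsplit] at h1 h2
    set A := Lam N D c (fun x => τ * QQ j φ x) with hA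
    set B := Lam N D c (fun x => τ * (QQ j φ x * Real.cos (l * x))) with hB
    have hBA : |B| ≤ A := by rw [abs_le]; constructor <;> linarith
    have hτc : ∀ z : ℂ, |((τ : ℂ) * z).re| ≤ ‖z‖ := by
      intro z
      rw [Complex.re_ofReal_mul, abs_mul, hτ, one_mul]
      exact Complex.abs_re_le_norm z
    -- bound on A
    have hAS : A ≤ 2 ^ j * S := by
      rw [hA, Lam]
      have : ∑ i ∈ Finset.range (D + 1), c i * (coef N i (fun x => ((τ * QQ j φ x : ℝ) : ℂ))).re =
          ∑ i ∈ Finset.range (l + j), c i * (coef N i (fun x => ((τ * QQ j φ x : ℝ) : ℂ))).re := by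
        symm
        apply Finset.sum_subset
        · intro i hi; rw [Finset.mem_range] at hi ⊢; omega
        · intro i hi hi'
          rw [Finset.mem_range] at hi hi'
          rw [coef_const_mul]
          change c i * ((τ : ℂ) * coef N i (QC j φ)).re = 0
          rw [coef_eq_zero (QC_mem j φ)]
          · simp
          · rw [lt_abs]; left; omega
          · rw [abs_of_nonneg (by positivity)]; omega
      rw [this, hS, Finset.mul_sum]
      apply Finset.sum_le_sum
      intro i _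
      refine (le_abs_self _).trans ?_
      rw [abs_mul, mul_comm, coef_const_mul]
      apply mul_le_mul_of_nonneg_right _ (abs_nonneg _)
      exact (hτc _).trans (norm_coef_le (norm_QC_le j φ))
    -- B isolates c (l+j)
    have hBeq : B = c (l + j) * (τ * (1 / 2) ^ j / 2) +
        ∑ i ∈ Finset.range (l + j), c i *
          (coef N i (fun x => ((τ * (QQ j φ x * Real.cos (l * x)) : ℝ) : ℂ))).re := by
      rw [hB, Lam]
      have h3 : ∑ i ∈ Finset.range (D + 1), c i *
          (coef N i (fun x => ((τ * (QQ j φ x * Real.cos (l * x)) : ℝ) : ℂ))).re =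
          ∑ i ∈ Finset.range (l + j + 1), c i *
          (coef N i (fun x => ((τ * (QQ j φ x * Real.cos (l * x)) : ℝ) : ℂ))).re := by
        symm
        apply Finset.sum_subset
        · intro i hi; rw [Finset.mem_range] at hi ⊢; omega
        · intro i hi hi'
          rw [Finset.mem_range] at hi hi'
          rw [coef_const_mul, coef_mul_cos]
          change c i * ((τ : ℂ) * ((coef N (i - l) (QC j φ) + coef N (i + l) (QC j φ)) / 2)).re = 0
          rw [coef_eq_zero (l := (i : ℤ) - l) (QC_mem j φ), coef_eq_zero (l := (i : ℤ) + l) (QC_mem j φ)]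
          · simp
          · rw [lt_abs]; left; omega
          · rw [abs_of_nonneg (by positivity)]; omega
          · rw [lt_abs]; left; omega
          · have : |(i : ℤ) - l| ≤ D := by rw [abs_le]; constructor <;> omega
            omega
      rw [h3, Finset.sum_range_succ, add_comm]
      congr 1
      rw [coef_const_mul, coef_mul_cos]
      change c (l + j) * ((τ : ℂ) * ((coef N (((l + j : ℕ) : ℤ) - l) (QC j φ) +
        coef N (((l + j : ℕ) : ℤ) + l) (QC j φ)) / 2)).re = _
      rw [show (((l + j : ℕ) : ℤ) - l) = (j : ℤ) by push_cast; ring, coef_QC_top (by omega),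
        coef_eq_zero (l := ((l + j : ℕ) : ℤ) + l) (QC_mem j φ)]
      · rw [add_zero]
        congr 1
        have : (τ : ℂ) * ((1 / 2) ^ j / 2) = ((τ * (1 / 2) ^ j / 2 : ℝ) : ℂ) := by
          push_cast; ring
        rw [this, Complex.ofReal_re]
      · rw [lt_abs]; left; push_cast; omega
      · rw [abs_of_nonneg (by positivity)]; push_cast; omega
    have hrest : |∑ i ∈ Finset.range (l + j), c i *
          (coef N i (fun x => ((τ * (QQ j φ x * Real.cos (l * x)) : ℝ) : ℂ))).re| ≤ 2 ^ j * S := by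
      refine (Finset.abs_sum_le_sum_abs _ _).trans ?_
      rw [hS, Finset.mul_sum]
      apply Finset.sum_le_sum
      intro i _
      rw [abs_mul, mul_comm, coef_const_mul]
      apply mul_le_mul_of_nonneg_right _ (abs_nonneg _)
      refine (hτc _).trans (norm_coef_le ?_)
      intro x
      rw [Complex.norm_real, Real.norm_eq_abs, abs_mul]
      have h4 := QQ_abs_le j φ x
      have h5 := Real.abs_cos_le_one (l * x)
      calc |QQ j φ x| * |Real.cos (l * x)| ≤ 2 ^ j * 1 := by gcongr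
        _ = 2 ^ j := mul_one _
    have h6 : |c (l + j)| * ((1 / 2) ^ j / 2) ≤ 2 ^ j * S + 2 ^ j * S := by
      have h7 : c (l + j) * (τ * (1 / 2) ^ j / 2) = B - ∑ i ∈ Finset.range (l + j), c i *
          (coef N i (fun x => ((τ * (QQ j φ x * Real.cos (l * x)) : ℝ) : ℂ))).re := by
        rw [hBeq]; ring
      have h8 : |c (l + j)| * ((1 / 2) ^ j / 2) = |c (l + j) * (τ * (1 / 2) ^ j / 2)| := by
        rw [abs_mul, abs_div, abs_mul, hτ, abs_pow]
        norm_num
      rw [h8, h7]
      refine (abs_sub _ _).trans ?_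
      linarith
    have h2j : ((1 : ℝ) / 2) ^ j * 2 ^ j = 1 := by rw [← mul_pow]; norm_num
    have h9 : |c (l + j)| = (|c (l + j)| * ((1 / 2) ^ j / 2)) * (2 * 2 ^ j) := by
      calc |c (l + j)| = |c (l + j)| * ((1 / 2) ^ j * 2 ^ j) := by rw [h2j, mul_one]
        _ = _ := by ring
    rw [h9]
    calc (|c (l + j)| * ((1 / 2) ^ j / 2)) * (2 * 2 ^ j)
        ≤ (2 ^ j * S + 2 ^ j * S) * (2 * 2 ^ j) := by gcongr
      _ = 4 * (2 ^ j * 2 ^ j) * S := by ring
      _ = 4 ^ (j + 1) * S := by
          have : (2 : ℝ) ^ j * 2 ^ j = 4 ^ j := by rw [← mul_pow]; norm_num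
          rw [this, pow_succ]; ring
  intro n
  induction n with
  | zero => intro _; simp; positivity
  | succ n ih =>
    intro hn
    have ih' := ih (by omega)
    rw [Finset.sum_range_succ]
    by_cases hnj : n ≤ j
    · -- small n: crude bound
      have h1 : ∑ i ∈ Finset.range n, |c i| + |c n| ≤ (n + 1) * κ := by
        rw [← Finset.sum_range_succ]
        calc ∑ i ∈ Finset.range (n + 1), |c i| ≤ ∑ i ∈ Finset.range (n + 1), κ := by
              apply Finset.sum_le_sum
              intro i hi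
              rw [Finset.mem_range] at hi
              exact hκ i (by omega)
          _ = (n + 1) * κ := by simp
      refine h1.trans ?_
      have h2 : (1 : ℝ) ≤ (1 + 4 ^ (j + 1)) ^ (n + 1) := by
        apply one_le_pow₀
        have : (0 : ℝ) ≤ 4 ^ (j + 1) := by positivity
        linarith
      have h3 : (n : ℝ) + 1 ≤ j + 1 := by
        have : (n : ℝ) ≤ j := by exact_mod_cast hnj
        linarith
      calc ((n : ℝ) + 1) * κ ≤ (j + 1) * κ := by gcongr
        _ = (j + 1) * 1 * κ := by ring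
        _ ≤ _ := by gcongr
    · push Not at hnj
      have h1 := key n hnj (by omega)
      calc ∑ i ∈ Finset.range n, |c i| + |c n|
          ≤ ∑ i ∈ Finset.range n, |c i| + 4 ^ (j + 1) * ∑ i ∈ Finset.range n, |c i| := by linarith
        _ = (1 + 4 ^ (j + 1)) * ∑ i ∈ Finset.range n, |c i| := by ring
        _ ≤ (1 + 4 ^ (j + 1)) * ((j + 1) * (1 + 4 ^ (j + 1)) ^ n * κ) := by gcongr
        _ = _ := by rw [pow_succ]; ring

/-- divided difference of `cos (m ·)` -/
lemma exists_divdiff (φ : ℝ) (m : ℕ) : ∃ R : ℝ → ℝ,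
    (∀ x, Real.cos (m * x) - Real.cos (m * φ) = (Real.cos x - Real.cos φ) * R x) ∧
    (fun x => (R x : ℂ)) ∈ Trig m ∧ ∀ x, |R x| ≤ 4 ^ m := by
  induction m using Nat.twoStepInduction with
  | zero =>
    refine ⟨fun _ => 0, fun x => by simp, ?_, fun x => by simp⟩
    have : (fun x : ℝ => ((0 : ℝ) : ℂ)) = 0 := by funext x; simp
    rw [this]
    exact Submodule.zero_mem _
  | one =>
    refine ⟨fun _ => 1, fun x => by simp, ?_, fun x => by norm_num⟩
    have : (fun x : ℝ => ((1 : ℝ) : ℂ)) = 1 := by funext x; simp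
    rw [this]
    exact one_mem_Trig _
  | more m ih0 ih1 =>
    obtain ⟨R0, h0, t0, b0⟩ := ih0
    obtain ⟨R1, h1, t1, b1⟩ := ih1
    refine ⟨fun x => 2 * Real.cos x * R1 x + 2 * Real.cos ((m + 1 : ℕ) * φ) - R0 x, ?_, ?_, ?_⟩
    · intro x
      have hrec : ∀ y : ℝ, Real.cos ((m + 2 : ℕ) * y) =
          2 * Real.cos y * Real.cos ((m + 1 : ℕ) * y) - Real.cos (m * y) := by
        intro y
        have e1 : ((m + 2 : ℕ) : ℝ) * y = (m + 1 : ℕ) * y + y := by push_cast; ring
        have e2 : (m : ℝ) * y = (m + 1 : ℕ) * y - y := by push_cast; ring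
        rw [e1, e2, Real.cos_add, Real.cos_sub]
        ring
      rw [hrec x, hrec φ]
      have := h0 x
      have := h1 x
      linear_combination (2 * Real.cos x) * h1 x - h0 x
    · have hc : (fun x : ℝ => ((Real.cos x : ℝ) : ℂ)) ∈ Trig 1 := by
        have := cos_mem_Trig (le_refl 1)
        simpa using this
      have a1 : (fun x : ℝ => ((Real.cos x : ℝ) : ℂ)) * (fun x => (R1 x : ℂ)) ∈ Trig (m + 2) := by
        have := Trig_mul hc t1
        exact Trig_mono (by omega) this
      have a2 := const_mem_Trig (m + 2) ((2 * Real.cos ((m + 1 : ℕ) * φ) : ℝ) : ℂ)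
      have a3 := Trig_mono (show m ≤ m + 2 by omega) t0
      have a4 := (Trig (m + 2)).sub_mem ((Trig (m + 2)).add_mem
        ((Trig (m + 2)).smul_mem (2 : ℂ) a1) a2) a3
      convert a4 using 1
      funext x
      simp only [Pi.sub_apply, Pi.add_apply, Pi.smul_apply, Pi.mul_apply, smul_eq_mul]
      push_cast
      ring
    · intro x
      have c1 := Real.abs_cos_le_one x
      have c2 := Real.abs_cos_le_one ((m + 1 : ℕ) * φ)
      have b0x := b0 x
      have b1x := b1 x
      have h4 : |2 * Real.cos x * R1 x| ≤ 2 * 4 ^ (m + 1) := by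
        rw [abs_mul, abs_mul, abs_two]
        calc 2 * |Real.cos x| * |R1 x| ≤ 2 * 1 * 4 ^ (m + 1) := by gcongr
          _ = _ := by ring
      have h5 : |2 * Real.cos ((m + 1 : ℕ) * φ)| ≤ 2 := by
        rw [abs_mul, abs_two]; linarith
      have h6 : (1 : ℝ) ≤ 4 ^ m := one_le_pow₀ (by norm_num)
      calc |2 * Real.cos x * R1 x + 2 * Real.cos ((m + 1 : ℕ) * φ) - R0 x|
          ≤ |2 * Real.cos x * R1 x + 2 * Real.cos ((m + 1 : ℕ) * φ)| + |R0 x| := abs_sub _ _
        _ ≤ |2 * Real.cos x * R1 x| + |2 * Real.cos ((m + 1 : ℕ) * φ)| + |R0 x| := by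
            gcongr; exact abs_add_le _ _
        _ ≤ 2 * 4 ^ (m + 1) + 2 + 4 ^ m := by linarith
        _ ≤ 4 ^ (m + 2) := by
            have e1 : (4 : ℝ) ^ (m + 2) = 16 * 4 ^ m := by ring
            have e2 : (4 : ℝ) ^ (m + 1) = 4 * 4 ^ m := by ring
            rw [e1, e2]
            linarith

lemma prod_mem_Trig {j m : ℕ} {R : ℕ → ℝ → ℝ} (h : ∀ r, (fun x => (R r x : ℂ)) ∈ Trig m) :
    (fun x => ((∏ r ∈ Finset.range j, R r x : ℝ) : ℂ)) ∈ Trig (j * m) := by
  induction j with
  | zero =>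
    have : (fun x => ((∏ r ∈ Finset.range 0, R r x : ℝ) : ℂ)) = 1 := by funext x; simp
    rw [this]
    exact one_mem_Trig _
  | succ j ih =>
    have h1 : (fun x => ((∏ r ∈ Finset.range (j + 1), R r x : ℝ) : ℂ)) =
        (fun x => ((∏ r ∈ Finset.range j, R r x : ℝ) : ℂ)) * (fun x => (R j x : ℂ)) := by
      funext x
      rw [Finset.prod_range_succ, Complex.ofReal_mul, Pi.mul_apply]
    rw [h1]
    have := Trig_mul ih (h j)
    rwa [show j * m + m = (j + 1) * m by ring] at this

/-- the multiplier turning `Q(x)` into a function of `m x` -/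
lemma exists_mult (j m : ℕ) (φ : ℕ → ℝ) : ∃ X : ℝ → ℝ,
    (∀ x, QQ j φ x * X x = QQ j (fun r => m * φ r) (m * x)) ∧
    (fun x => (X x : ℂ)) ∈ Trig (j * m) ∧ ∀ x, |X x| ≤ (4 ^ m) ^ j := by
  choose R hR1 hR2 hR3 using fun r => exists_divdiff (φ r) m
  refine ⟨fun x => ∏ r ∈ Finset.range j, R r x, ?_, prod_mem_Trig hR2, ?_⟩
  · intro x
    unfold QQ
    rw [← Finset.prod_mul_distrib]
    apply Finset.prod_congr rfl
    intro r _
    rw [hR1 r x]
  · intro x
    rw [Finset.abs_prod]
    calc ∏ r ∈ Finset.range j, |R r x| ≤ ∏ r ∈ Finset.range j, (4 : ℝ) ^ m := by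
          apply Finset.prod_le_prod
          · intro i _; exact abs_nonneg _
          · intro i _; exact hR3 i x
      _ = _ := by simp

/-- coefficients of `F(m x)` -/
lemma coef_scale {D m N N' : ℕ} (hN' : 2 * D < N') {F : ℝ → ℂ} (hF : F ∈ Trig D) {n : ℤ}
    (hn : |n| + m * D < N) :
    coef N n (fun x => F (m * x)) = ∑ l ∈ Finset.Icc (-(D : ℤ)) D,
      coef N' l F * (if m * l = n then 1 else 0) := by
  have h1 : (fun x : ℝ => F (m * x)) = ∑ l ∈ Finset.Icc (-(D : ℤ)) D, coef N' l F • ee (m * l) := by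
    funext x
    rw [Trig_expand hN' hF (m * x), Finset.sum_apply]
    apply Finset.sum_congr rfl
    intro l _
    rw [Pi.smul_apply, smul_eq_mul]
    congr 1
    rw [ee_apply, ee_apply]
    congr 1
    push_cast
    ring
  rw [h1, map_sum]
  apply Finset.sum_congr rfl
  intro l hl
  rw [Finset.mem_Icc] at hl
  rw [map_smul, smul_eq_mul, coef_ee]
  have h2 : |(m : ℤ) * l| ≤ m * D := by
    rw [abs_mul, abs_of_nonneg (show (0 : ℤ) ≤ m by positivity)]
    apply mul_le_mul_of_nonneg_left _ (by positivity)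
    rw [abs_le]; exact hl
  have h3 := abs_sub (↑m * l) n
  linarith

lemma coef_scale_zero {D m N N' : ℕ} (hm : m ≠ 0) (hN' : 2 * D < N') {F : ℝ → ℂ}
    (hF : F ∈ Trig D) (hN : m * D < N) : coef N 0 (fun x => F (m * x)) = coef N' 0 F := by
  rw [coef_scale (n := 0) hN' hF (by simpa using by exact_mod_cast hN),
    Finset.sum_eq_single 0]
  · simp
  · intro l _ hl
    rw [if_neg, mul_zero]
    intro h
    rcases mul_eq_zero.mp h with h | h
    · exact hm (by exact_mod_cast h)
    · exact hl h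
  · intro h
    exact absurd (Finset.mem_Icc.mpr (by omega)) h

lemma coef_scale_ne {D m N N' : ℕ} (hN' : 2 * D < N') {F : ℝ → ℂ}
    (hF : F ∈ Trig D) {n : ℤ} (hn : |n| + m * D < N) (h : ∀ l : ℤ, |l| ≤ D → m * l ≠ n) :
    coef N n (fun x => F (m * x)) = 0 := by
  rw [coef_scale hN' hF hn]
  apply Finset.sum_eq_zero
  intro l hl
  rw [Finset.mem_Icc] at hl
  rw [if_neg (h l (abs_le.mpr hl)), mul_zero]

/-- mean square of `Q` is at least `4^{-j}` -/
lemma coef_QQ_sq {j N : ℕ} (hN : 2 * j + 1 < N) (φ : ℕ → ℝ) :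
    ∃ a : ℝ, (1 / 4) ^ j ≤ a ∧ coef N 0 (fun x => ((QQ j φ x ^ 2 : ℝ) : ℂ)) = a := by
  refine ⟨ravg N (fun x => QQ j φ x ^ 2), ?_, ?_⟩
  · have h1 : ‖coef N j (QC j φ)‖ ≤ ravg N (fun x => |QQ j φ x|) := by
      rw [coef_apply]
      refine (norm_comb_le _ _).trans (ravg_mono ?_)
      intro x
      rw [Pi.mul_apply, norm_mul, norm_ee, mul_one, QC, Complex.norm_real]
      exact le_rfl
    rw [coef_QC_top hN] at h1
    have h2 : ‖((1 : ℂ) / 2) ^ j‖ = (1 / 2) ^ j := by simp
    rw [h2] at h1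
    have h3 := ravg_sq_le (N := N) (fun x => |QQ j φ x|)
    simp only [sq_abs] at h3
    have h4 : ((1 : ℝ) / 4) ^ j = ((1 / 2) ^ j) ^ 2 := by rw [← pow_mul, mul_comm, pow_mul]; norm_num
    rw [h4]
    refine le_trans ?_ h3
    apply pow_le_pow_left₀ (by positivity) h1
  · rw [coef_apply, neg_zero, ee_zero, mul_one, comb_ofReal]

/-- the key second order inequality in case (B) -/
lemma second_B {j m D N : ℕ} (hjm : 2 * j < m) (hD : 3 * j + 2 * (j * m) ≤ D)
    (hN : 2 * D + 2 * (j * m) + 2 * j + 1 < N) {c : ℕ → ℝ} {φ : ℕ → ℝ} {τ ε : ℝ} (hτ : |τ| = 1)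
    (hε : 0 ≤ ε) {S : ℝ} (hS : ∑ i ∈ Finset.range (D + 1), |c i| ≤ S)
    (hlow : ∀ x, -ε ≤ τ * QQ j φ x)
    (hpos : ∀ G : ℝ → ℝ, (∀ x, 0 ≤ G x) → (fun x => (G x : ℂ)) ∈ Trig (D - j) →
      0 ≤ Lam N D c (fun x => τ * QQ j φ x * G x))
    (hc : ∀ l : ℕ, 1 ≤ l → l ≤ 2 * j → ∀ e : ℤ, -(j : ℤ) ≤ e → e ≤ j → ∀ n : ℕ,
      (n : ℤ) = m * l + e → c n = 0) {i0 : ℕ} (hi0 : 1 ≤ i0) (hi0j : i0 ≤ j) :
    |c i0| / 2 ≤ c 0 + ε * (4 ^ j * (S * (2 ^ j * ((4 ^ m) ^ j) ^ 2 * 2))) := by
  obtain ⟨X, hX1, hX2, hX3⟩ := exists_mult j m φ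
  set ψ : ℕ → ℝ := fun r => m * φ r with hψ
  have hτ2 : τ ^ 2 = 1 := by rw [← sq_abs, hτ]; norm_num
  have hm0 : m ≠ 0 := by omega
  -- F(y) = (QQ ψ y)^2
  set F : ℝ → ℂ := fun y => ((QQ j ψ y ^ 2 : ℝ) : ℂ) with hF
  have hFmem : F ∈ Trig (2 * j) := by
    have h1 := Trig_mul (QC_mem j ψ) (QC_mem j ψ)
    rw [← two_mul] at h1
    convert h1 using 1
    funext x
    rw [hF, Pi.mul_apply, QC]
    push_cast
    ring
  obtain ⟨a, ha, haF⟩ := coef_QQ_sq (j := j) (N := 4 * j + 2) (by omega) ψ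
  have ha0 : 0 < a := lt_of_lt_of_le (by positivity) ha
  have hjjm : (2 * j : ℤ) * m = 2 * (j * m) := by ring
  -- Lam of F(m x)
  have hL1 : Lam N D c (fun x => QQ j ψ (m * x) ^ 2) = c 0 * a := by
    unfold Lam
    rw [Finset.sum_eq_single 0]
    · have h1 := coef_scale_zero (N := N) hm0 (N' := 4 * j + 2) (by omega) hFmem
        (by nlinarith)
      simp only [hF] at h1
      rw [Nat.cast_zero, h1, haF, Complex.ofReal_re]
    · intro i hi hi0'
      rw [Finset.mem_range] at hi
      by_cases h : ∃ l : ℤ, |l| ≤ (2 * j : ℕ) ∧ m * l = i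
      · obtain ⟨l, hl, hml⟩ := h
        have hl0 : 1 ≤ l := by
          by_contra hcon
          push Not at hcon
          have : (m : ℤ) * l ≤ 0 := by
            apply mul_nonpos_of_nonneg_of_nonpos (by positivity) (by omega)
          omega
        rw [abs_le] at hl
        rw [hc l.toNat (by omega) (by omega) 0 (by omega) (by omega) i (by
          rw [add_zero, Int.toNat_of_nonneg (by omega)]; exact hml.symm), zero_mul]
      · push Not at h
        have h1 := coef_scale_ne (N := N) (N' := 4 * j + 2) (m := m) (by omega) hFmem (n := i)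
          (by rw [abs_of_nonneg (by positivity)]; push_cast; nlinarith) h
        simp only [hF] at h1
        rw [h1]
        simp
    · intro h
      exact absurd (Finset.mem_range.mpr (by omega)) h
  -- Lam of F(m x) cos (i0 x)
  have hL2 : Lam N D c (fun x => QQ j ψ (m * x) ^ 2 * Real.cos (i0 * x)) = c i0 * (a / 2) := by
    unfold Lam
    rw [Finset.sum_eq_single i0]
    · rw [coef_mul_cos]
      have h1 := coef_scale_zero (N := N) hm0 (N' := 4 * j + 2) (by omega) hFmem
        (by nlinarith)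
      have h2 := coef_scale_ne (N := N) (N' := 4 * j + 2) (m := m) (by omega) hFmem
        (n := i0 + i0)
        (by rw [abs_of_nonneg (by positivity)]; push_cast; nlinarith) (by
          intro l hl hml
          by_cases hl0 : 1 ≤ l
          · have : (m : ℤ) * 1 ≤ m * l := mul_le_mul_of_nonneg_left hl0 (by positivity)
            omega
          · have : (m : ℤ) * l ≤ 0 := by
              apply mul_nonpos_of_nonneg_of_nonpos (by positivity) (by omega)
            omega)
      simp only [hF] at h1 h2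
      rw [sub_self, h1, h2, haF, add_zero]
      have : (a : ℂ) / 2 = ((a / 2 : ℝ) : ℂ) := by push_cast; rfl
      rw [this, Complex.ofReal_re]
    · intro i hi hii0
      rw [Finset.mem_range] at hi
      by_cases h : ∃ l : ℤ, |l| ≤ (2 * j : ℕ) ∧ (m * l = i - i0 ∨ m * l = i + i0)
      · obtain ⟨l, hl, hml⟩ := h
        have hl0 : 1 ≤ l := by
          by_contra hcon
          push Not at hcon
          have h3 : (m : ℤ) * l ≤ 0 := by
            apply mul_nonpos_of_nonneg_of_nonpos (by positivity) (by omega)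
          rcases hml with h4 | h4
          · by_cases hl1 : l = 0
            · rw [hl1, mul_zero] at h4
              omega
            · have : (m : ℤ) * l ≤ m * (-1) := mul_le_mul_of_nonneg_left (by omega) (by positivity)
              omega
          · omega
        rw [abs_le] at hl
        rcases hml with h4 | h4
        · rw [hc l.toNat (by omega) (by omega) i0 (by omega) (by omega) i (by
            rw [Int.toNat_of_nonneg (by omega)]; omega), zero_mul]
        · rw [hc l.toNat (by omega) (by omega) (-i0) (by omega) (by omega) i (by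
            rw [Int.toNat_of_nonneg (by omega)]; omega), zero_mul]
      · push Not at h
        rw [coef_mul_cos]
        have h1 := coef_scale_ne (N := N) (N' := 4 * j + 2) (m := m) (by omega) hFmem
          (n := (i : ℤ) - i0)
          (by
            have : |(i : ℤ) - i0| ≤ D + j := by rw [abs_le]; constructor <;> omega
            push_cast
            nlinarith) (fun l hl => (h l hl).1)
        have h2 := coef_scale_ne (N := N) (N' := 4 * j + 2) (m := m) (by omega) hFmem
          (n := (i : ℤ) + i0)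
          (by rw [abs_of_nonneg (by positivity)]; push_cast; nlinarith) (fun l hl => (h l hl).2)
        simp only [hF] at h1 h2
        rw [h1, h2]
        simp
    · intro h
      exact absurd (Finset.mem_range.mpr (by omega)) h
  -- membership of the multiplier
  have hXX : (fun x => (X x : ℂ)) * (fun x => (X x : ℂ)) ∈ Trig (2 * (j * m)) := by
    have := Trig_mul hX2 hX2
    rwa [← two_mul] at this
  have hGmem : ∀ s : ℝ, (fun x => (((τ * QQ j φ x + ε) * (X x ^ 2) *
      (1 + s * Real.cos (i0 * x)) : ℝ) : ℂ)) ∈ Trig (D - j) := by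
    intro s
    have h1 : (τ : ℂ) • QC j φ + (fun _ => (ε : ℂ)) ∈ Trig j :=
      Submodule.add_mem _ (Submodule.smul_mem _ _ (QC_mem j φ)) (const_mem_Trig j _)
    have h2 : (1 : ℝ → ℂ) + (s : ℂ) • (fun x : ℝ => ((Real.cos (i0 * x) : ℝ) : ℂ)) ∈ Trig j :=
      Submodule.add_mem _ (one_mem_Trig j) (Submodule.smul_mem _ _ (cos_mem_Trig hi0j))
    have h3 := Trig_mono (show j + 2 * (j * m) + j ≤ D - j by omega)
      (Trig_mul (Trig_mul h1 hXX) h2)
    convert h3 using 1
    funext x
    simp only [Pi.mul_apply, Pi.add_apply, Pi.smul_apply, smul_eq_mul, QC, Pi.one_apply]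
    push_cast
    ring
  have hG0 : ∀ s : ℝ, |s| ≤ 1 → ∀ x, 0 ≤ (τ * QQ j φ x + ε) * (X x ^ 2) *
      (1 + s * Real.cos (i0 * x)) := by
    intro s hs x
    have h1 : 0 ≤ τ * QQ j φ x + ε := by linarith [hlow x]
    have h2 : |s * Real.cos (i0 * x)| ≤ 1 := by
      rw [abs_mul]
      have := Real.abs_cos_le_one (i0 * x)
      have := abs_nonneg s
      have := abs_nonneg (Real.cos (i0 * x))
      nlinarith
    have h3 := (abs_le.mp h2).1
    have h4 : 0 ≤ 1 + s * Real.cos (i0 * x) := by linarith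
    positivity
  -- the inequality for each sign
  have hineq : ∀ s : ℝ, |s| ≤ 1 →
      0 ≤ c 0 * a + s * (c i0 * (a / 2)) + ε * (S * (2 ^ j * ((4 ^ m) ^ j) ^ 2 * 2)) := by
    intro s hs
    have h1 := hpos _ (hG0 s hs) (hGmem s)
    have h2 : (fun x => τ * QQ j φ x * ((τ * QQ j φ x + ε) * (X x ^ 2) *
        (1 + s * Real.cos (i0 * x)))) = (fun x => (QQ j ψ (m * x) ^ 2 +
        s * (QQ j ψ (m * x) ^ 2 * Real.cos (i0 * x))) +
        ε * (τ * QQ j φ x * X x ^ 2 * (1 + s * Real.cos (i0 * x)))) := by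
      funext x
      rw [← hX1 x]
      linear_combination (QQ j φ x) ^ 2 * (X x) ^ 2 * (1 + s * Real.cos (i0 * x)) * hτ2
    rw [h2, Lam_add, Lam_add, Lam_smul, Lam_smul, hL1, hL2] at h1
    have h3 : |Lam N D c (fun x => τ * QQ j φ x * X x ^ 2 * (1 + s * Real.cos (i0 * x)))| ≤
        S * (2 ^ j * ((4 ^ m) ^ j) ^ 2 * 2) := by
      refine (Lam_abs_le N D c (M := 2 ^ j * ((4 ^ m) ^ j) ^ 2 * 2) ?_).trans ?_
      · intro x
        rw [abs_mul, abs_mul, abs_mul, hτ, one_mul, abs_pow]
        have h4 := QQ_abs_le j φ x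
        have h5 := hX3 x
        have h6 : |1 + s * Real.cos (i0 * x)| ≤ 2 := by
          have h7 : |s * Real.cos (i0 * x)| ≤ 1 := by
            rw [abs_mul]
            have := Real.abs_cos_le_one (i0 * x)
            have := abs_nonneg s
            have := abs_nonneg (Real.cos (i0 * x))
            nlinarith
          rw [abs_le] at h7 ⊢
          constructor <;> linarith
        gcongr
      · gcongr
    have h4 := (abs_le.mp h3).2
    have h5 := mul_le_mul_of_nonneg_left h4 hε
    linarith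
  have hp := hineq 1 (by simp)
  have hn := hineq (-1) (by simp)
  set B := S * (2 ^ j * ((4 ^ m) ^ j) ^ 2 * 2) with hB
  have hS0 : 0 ≤ S := (Finset.sum_nonneg (fun i _ => abs_nonneg (c i))).trans hS
  have hB0 : 0 ≤ B := by positivity
  have h10 : |c i0| / 2 * a ≤ c 0 * a + ε * B := by
    rcases abs_cases (c i0) with ⟨h, _⟩ | ⟨h, _⟩ <;> rw [h] <;> nlinarith
  -- divide by a
  have h11 : ε * B ≤ ε * (4 ^ j * B) * a := by
    have h12 : (1 : ℝ) ≤ 4 ^ j * a := by
      calc (1 : ℝ) = 4 ^ j * (1 / 4) ^ j := by rw [← mul_pow]; norm_num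
        _ ≤ 4 ^ j * a := by gcongr
    have h13 : 0 ≤ ε * B := by positivity
    nlinarith
  have h14 : |c i0| / 2 * a ≤ (c 0 + ε * (4 ^ j * B)) * a := by
    rw [add_mul]; linarith
  exact le_of_mul_le_mul_right h14 ha0

end Pool.Agent.Helper61.Nodal
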