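import Pool.Agent.Helper61.Nodal.Second

/-!
Second order analysis for `λ = q²`: the two boundary traces together.
-/

namespace Pool.Agent.Helper61.Nodal

open Complex Set Filter Topology

lemma WW_smul (q : ℕ) (a : ℝ) (w : ℕ → ℝ) (x : ℝ) :
    WW q (fun i => a * w i) x = a * WW q w x := by
  unfold WW
  rw [Finset.mul_sum]
  apply Finset.sum_congr rfl
  intro i _
  ring

lemma one_side {j L D N q : ℕ} {w : ℕ → ℝ} {φ : ℕ → ℝ} {ε : ℝ} (hL : L ≠ 0) (hjL : j ≤ L)
    (hjD : j ≤ D)
    (hε : (2 * j + 1) * j * 2 ^ j / L ≤ ε) (hqD : 2 * D < q) (hqL : 2 * (j + L) < q)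
    (hND : 2 * D < N) (hNL : 2 * (j + L) < N)
    (hw : ∀ i, 1 ≤ i → i ≤ max D (j + L) → w i = 0)
    (h0 : w 0 ≠ 0) (hpos : ∀ x, 0 ≤ WW q w x * QQ j φ x) :
    ∃ (τ : ℝ) (c : ℕ → ℝ), |τ| = 1 ∧ c 0 = |w 0| - |w q| ∧ (∀ i, 1 ≤ i → |c i| = |w (q - i)|) ∧
      (∀ x, -ε ≤ τ * QQ j φ x) ∧
      (∀ G : ℝ → ℝ, (∀ x, 0 ≤ G x) → (fun x => (G x : ℂ)) ∈ Trig (D - j) →
        0 ≤ Lam N D c (fun x => τ * QQ j φ x * G x)) := by
  set τ : ℝ := if 0 < w 0 then 1 else -1 with hτ
  have hτabs : |τ| = 1 := by rw [hτ]; split_ifs <;> simp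
  have hτsq : τ * τ = 1 := by rw [hτ]; split_ifs <;> norm_num
  set v : ℕ → ℝ := fun i => τ * w i with hv
  have hv0 : v 0 = |w 0| := by
    simp only [hv, hτ]
    split_ifs with h
    · rw [abs_of_pos h, one_mul]
    · rw [abs_of_nonpos (not_lt.mp h)]; ring
  have hv0' : 0 < v 0 := by rw [hv0]; exact abs_pos.mpr h0
  set σ : ℝ := if 0 < v q then 1 else -1 with hσ
  have hσabs : |σ| = 1 := by rw [hσ]; split_ifs <;> simp
  have hσq : σ * v q = |w q| := by
    have h1 : |v q| = |w q| := by simp only [hv]; rw [abs_mul, hτabs, one_mul]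
    rw [← h1, hσ]
    split_ifs with h
    · rw [abs_of_pos h, one_mul]
    · rw [abs_of_nonpos (not_lt.mp h)]; ring
  have hWv : ∀ x, WW q v x = τ * WW q w x := fun x => WW_smul q τ w x
  refine ⟨τ, fun i => if i = 0 then v 0 - σ * v q else -(σ * v (q - i)), hτabs, ?_, ?_, ?_, ?_⟩
  · simp only [if_true]
    rw [hσq, hv0]
  · intro i hi
    simp only
    rw [if_neg (by omega), abs_neg, abs_mul, hσabs, one_mul]
    simp only [hv]
    rw [abs_mul, hτabs, one_mul]
  · intro x0
    have hmem : (fun x => ((τ * (QQ j φ x * fejR L (x - x0)) : ℝ) : ℂ)) ∈ Trig (j + L) := by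
      have h1 := (Trig (j + L)).smul_mem (τ : ℂ) (tst_mem j φ hL x0)
      convert h1 using 1
      funext x
      rw [Pi.smul_apply, tst, smul_eq_mul]
      push_cast
      ring
    have h1 := pos_ineq (N := N) (w := v) hqL hNL hmem (by
      intro x
      rw [hWv]
      have h2 : τ * WW q w x * (τ * (QQ j φ x * fejR L (x - x0))) =
          (τ * τ) * ((WW q w x * QQ j φ x) * fejR L (x - x0)) := by ring
      rw [h2, hτsq, one_mul]
      exact mul_nonneg (hpos x) (fejR_nonneg L _))
    have h2 := (norm_nonneg _).trans h1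
    rw [Finset.sum_eq_single 0] at h2
    rotate_left
    · intro i hi hi0
      rw [Finset.mem_range] at hi
      simp only [hv]
      rw [hw i (by omega) (by omega)]
      simp
    · intro h
      exact absurd (Finset.mem_range.mpr (by omega)) h
    have h3 := nonneg_of_mul_nonneg_right h2 hv0'
    rw [coef_const_mul, Complex.re_ofReal_mul] at h3
    have h4 := coef_tst_approx j φ hL x0 (N := N) 0 (by omega) (by omega)
    have h5 := (Complex.abs_re_le_norm _).trans h4
    rw [Complex.sub_re] at h5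
    have h6 : (ee (-((0 : ℕ) : ℤ)) x0 * QC j φ x0).re = QQ j φ x0 := by
      rw [Nat.cast_zero, neg_zero, ee_zero_apply, one_mul, QC, Complex.ofReal_re]
    rw [h6] at h5
    have h7 : |τ * ((coef N ((0 : ℕ) : ℤ) (tst j φ L x0)).re - QQ j φ x0)| ≤ ε := by
      rw [abs_mul, hτabs, one_mul]
      refine h5.trans (le_trans (le_of_eq ?_) hε)
      push_cast
      ring
    have h8 := (abs_le.mp h7).2
    change 0 ≤ τ * (coef N ((0 : ℕ) : ℤ) (tst j φ L x0)).re at h3
    rw [mul_sub] at h8
    linarith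
  · intro G hG0 hG
    set f : ℝ → ℝ := fun x => τ * QQ j φ x * G x with hf
    have hmem : (fun x => (f x : ℂ)) ∈ Trig D := by
      have h1 := Trig_mul ((Trig j).smul_mem (τ : ℂ) (QC_mem j φ)) hG
      have h2 := Trig_mono (show j + (D - j) ≤ D by omega) h1
      convert h2 using 1
      funext x
      rw [Pi.mul_apply, Pi.smul_apply, QC, smul_eq_mul]
      simp only [hf]
      push_cast
      ring
    have hposf : ∀ x, 0 ≤ WW q v x * f x := by
      intro x
      rw [hWv]
      simp only [hf]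
      have h2 : τ * WW q w x * (τ * QQ j φ x * G x) =
          (τ * τ) * ((WW q w x * QQ j φ x) * G x) := by ring
      rw [h2, hτsq, one_mul]
      exact mul_nonneg (hpos x) (hG0 x)
    set θ : ℝ := if 0 < v q then Real.pi else 0 with hθ
    have heθ : ee 1 θ = ((-σ : ℝ) : ℂ) := by
      rw [hθ, hσ, ee_apply]
      split_ifs with h
      · simp
      · simp
    have h1 := comb_WW_re hqD hND v θ hmem
    have h2 : 0 ≤ (comb q θ (fun x => ((WW q v x * f x : ℝ) : ℂ))).re :=
      comb_re_nonneg (fun x => by rw [Complex.ofReal_re]; exact hposf x)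
    rw [h1, heθ, Complex.re_ofReal_mul, Complex.re_sum, Finset.mul_sum,
      ← Finset.sum_add_distrib] at h2
    unfold Lam
    convert h2 using 1
    apply Finset.sum_congr rfl
    intro i hi
    rw [Finset.mem_range] at hi
    rw [Complex.re_ofReal_mul]
    beta_reduce
    by_cases h : i = 0
    · subst h
      rw [if_pos rfl, Nat.sub_zero]
      ring
    · rw [if_neg h]
      have : v i = 0 := by
        simp only [hv]
        rw [hw i (by omega) (by omega), mul_zero]
      rw [this]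
      ring

lemma mean_pos {j N : ℕ} (hN : 2 * j + 1 < N) {φ : ℕ → ℝ} {τ ε : ℝ} (hτ : |τ| = 1) (hε : 0 ≤ ε)
    (hε2 : 2 * ε < (1 / 2) ^ j) (hlow : ∀ x, -ε ≤ τ * QQ j φ x) :
    0 < τ * (coef N 0 (QC j φ)).re := by
  have h1 : ‖coef N j (QC j φ)‖ ≤ ravg N (fun x => |QQ j φ x|) := by
    rw [coef_apply]
    refine (norm_comb_le _ _).trans (ravg_mono ?_)
    intro x
    rw [Pi.mul_apply, norm_mul, norm_ee, mul_one, QC, Complex.norm_real]
    exact le_rfl
  rw [coef_QC_top hN] at h1
  have h2 : ‖((1 : ℂ) / 2) ^ j‖ = (1 / 2) ^ j := by simp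
  rw [h2] at h1
  have h3 : ravg N (fun x => |QQ j φ x|) ≤ ravg N (fun x => τ * QQ j φ x + 2 * ε) := by
    apply ravg_mono
    intro x
    have h4 : |QQ j φ x| = |τ * QQ j φ x| := by rw [abs_mul, hτ, one_mul]
    rw [h4]
    have h5 := hlow x
    rcases abs_cases (τ * QQ j φ x) with ⟨h, _⟩ | ⟨h, _⟩ <;> rw [h] <;> linarith
  rw [ravg_add, ravg_const_mul, ravg_const (by omega)] at h3
  have h6 : (coef N 0 (QC j φ)).re = ravg N (QQ j φ) := by
    rw [coef_apply, neg_zero, ee_zero, mul_one]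
    have h7 : comb N 0 (QC j φ) = (ravg N (QQ j φ) : ℂ) := comb_ofReal N (QQ j φ)
    rw [h7, Complex.ofReal_re]
  rw [h6]
  have : ravg N (fun x => QQ j φ x) = ravg N (QQ j φ) := rfl
  rw [this] at h3
  linarith

theorem second_order (j : ℕ) : ∃ D0 : ℕ, 2 * j + 1 ≤ D0 ∧
    ∀ (q : ℕ) (w w' : ℕ → ℝ) (φ φ' : ℕ → ℝ), 2 * D0 < q →
    (∀ i, 1 ≤ i → i ≤ D0 → w i = 0 ∧ w' i = 0) → |w 0| = |w' q| → |w q| = |w' 0| →
    (∀ i, 1 ≤ i → i ≤ D0 → ¬ InI q i → w (q - i) = 0 ∧ w' (q - i) = 0) →
    (∀ x, 0 ≤ WW q w x * QQ j φ x) → (∀ x, 0 ≤ WW q w' x * QQ j φ' x) →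
    (∀ i, 1 ≤ i → i ≤ 2 * j + 1 → w (q - i) = 0) ∧ |w q| = |w 0| := by
  obtain ⟨m, hm, harith⟩ := arith (2 * j)
  set D : ℕ := 3 * j + 2 * (j * m) + 2 * j + 1 with hD
  set K1 : ℝ := ((j : ℝ) + 1) * (1 + 4 ^ (j + 1)) ^ (D + 1) with hK1
  have hK1pos : 0 < K1 := by positivity
  set CB : ℝ := 4 ^ j * (K1 * (2 ^ j * ((4 ^ m) ^ j) ^ 2 * 2)) with hCB
  have hCBpos : 0 < CB := by positivity
  set ε : ℝ := 1 / (16 * (j + 1) * (CB + 1) * 4 ^ j) with hε
  have hεpos : 0 < ε := by positivity
  obtain ⟨L0, hL0⟩ := exists_nat_ge ((2 * j + 1) * j * 2 ^ j / ε)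
  set L : ℕ := L0 + j + 1 with hL
  have hLne : L ≠ 0 := by omega
  have hLε : (2 * j + 1) * j * 2 ^ j / (L : ℝ) ≤ ε := by
    have hLpos : (0 : ℝ) < L := by positivity
    rw [div_le_iff₀ hLpos]
    rw [div_le_iff₀ hεpos] at hL0
    have : (L0 : ℝ) ≤ L := by
      rw [hL]; push_cast; linarith
    calc (2 * (j : ℝ) + 1) * j * 2 ^ j ≤ L0 * ε := hL0
      _ ≤ L * ε := by gcongr
      _ = ε * L := by ring
  refine ⟨D + j + L, by omega, fun q w w' φ φ' hq hw h0q hq0 hI hpos hpos' => ?_⟩
  by_cases hw0 : w 0 = 0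
  · have hz := zero_mean hpos (fun i hi => by
      by_cases h : i = 0
      · rw [h]; exact hw0
      · exact (hw i (by omega) (by omega)).1)
    refine ⟨fun i _ _ => hz _ (by omega), ?_⟩
    rw [hz q le_rfl, hz 0 (by omega)]
  by_cases hwq : w' 0 = 0
  · have hz := zero_mean hpos' (fun i hi => by
      by_cases h : i = 0
      · rw [h]; exact hwq
      · exact (hw i (by omega) (by omega)).2)
    exfalso
    apply hw0
    rw [← abs_eq_zero, h0q, hz q le_rfl, abs_zero]
  set N : ℕ := 2 * D + 2 * (j * m) + 2 * j + 2 * (j + L) + 2 with hN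
  obtain ⟨τ, c, hτ, hc0, hci, hlow, hposc⟩ := one_side (N := N) (D := D) hLne (by omega) (by omega)
    hLε (by omega) (by omega) (by omega) (by omega) (fun i h1 h2 => (hw i h1 (by omega)).1) hw0 hpos
  obtain ⟨τ', c', hτ', hc0', hci', hlow', hposc'⟩ := one_side (N := N) (D := D) hLne (by omega)
    (by omega)
    hLε (by omega) (by omega) (by omega) (by omega) (fun i h1 h2 => (hw i h1 (by omega)).2) hwq hpos'
  have hcc' : c' 0 = - c 0 := by rw [hc0, hc0', h0q, hq0]; ring
  -- the growth bound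
  have hgrow : ∀ {c : ℕ → ℝ} {φ : ℕ → ℝ} {τ : ℝ}, |τ| = 1 →
      (∀ G : ℝ → ℝ, (∀ x, 0 ≤ G x) → (fun x => (G x : ℂ)) ∈ Trig (D - j) →
        0 ≤ Lam N D c (fun x => τ * QQ j φ x * G x)) → ∀ κ : ℝ, (∀ i ≤ j, |c i| ≤ κ) →
      ∑ i ∈ Finset.range (D + 1), |c i| ≤ K1 * κ := by
    intro c φ τ hτ hp κ hκ
    have h1 := growth (N := N) (D := D) (c := c) (φ := φ) (τ := τ) (by omega) (by omega) hτ hκ
      (fun l hl s hs => hp _ (by
        intro x
        have h2 : |s * Real.cos (l * x)| ≤ 1 := by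
          rw [abs_mul]
          have := Real.abs_cos_le_one (l * x)
          have := abs_nonneg s
          have := abs_nonneg (Real.cos (l * x))
          nlinarith
        have h3 := (abs_le.mp h2).1
        linarith) (by
        have h2 : (1 : ℝ → ℂ) + (s : ℂ) • (fun x : ℝ => ((Real.cos (l * x) : ℝ) : ℂ)) ∈
            Trig (D - j) :=
          Submodule.add_mem _ (one_mem_Trig _) (Submodule.smul_mem _ _
            (cos_mem_Trig (by omega)))
        convert h2 using 1
        funext x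
        simp only [Pi.add_apply, Pi.smul_apply, smul_eq_mul, Pi.one_apply]
        push_cast
        ring))
    exact h1 (D + 1) le_rfl
  -- it suffices to show that c vanishes up to j
  suffices hmain : ∀ i ≤ j, |c i| ≤ 0 by
    have h1 := hgrow hτ hposc 0 hmain
    rw [mul_zero] at h1
    have h2 : ∀ i ∈ Finset.range (D + 1), |c i| = 0 := by
      have h3 := le_antisymm h1 (Finset.sum_nonneg (fun i _ => abs_nonneg (c i)))
      exact (Finset.sum_eq_zero_iff_of_nonneg (fun i _ => abs_nonneg (c i))).mp h3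
    constructor
    · intro i hi1 hi2
      have h3 := h2 i (Finset.mem_range.mpr (by omega))
      rw [hci i hi1] at h3
      exact abs_eq_zero.mp h3
    · have h3 := h2 0 (Finset.mem_range.mpr (by omega))
      rw [abs_eq_zero, hc0] at h3
      linarith
  have h4j : (1 : ℝ) ≤ 4 ^ j := one_le_pow₀ (by norm_num)
  have hAB : (∀ i, 1 ≤ i → i ≤ j → ¬ InI q i) ∨ (1 ≤ j ∧
      (∀ l : ℕ, 1 ≤ l → l ≤ 2 * j → ∀ e : ℤ, -((2 * j : ℕ) : ℤ) ≤ e → e ≤ (2 * j : ℕ) →
        ∀ n : ℕ, (n : ℤ) = m * l + e → ¬ InI q n)) := by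
    by_cases hj : j = 0
    · left; intro i h1 h2; omega
    · rcases harith q (by omega) with hA | hB
      · left; intro i h1 h2; exact hA i h1 (by omega)
      · right; exact ⟨by omega, hB⟩
  rcases hAB with hA | ⟨hj1, hB⟩
  · -- case (A)
    have hcz : ∀ i, 1 ≤ i → i ≤ j → c i = 0 := by
      intro i h1 h2
      rw [← abs_eq_zero, hci i h1, abs_eq_zero]
      exact (hI i h1 (by omega) (hA i h1 h2)).1
    have hcz' : ∀ i, 1 ≤ i → i ≤ j → c' i = 0 := by
      intro i h1 h2
      rw [← abs_eq_zero, hci' i h1, abs_eq_zero]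
      exact (hI i h1 (by omega) (hA i h1 h2)).2
    have hε2 : 2 * ε < (1 / 2) ^ j := by
      have h1 : ((1 : ℝ) / 2) ^ j = 1 / 2 ^ j := by rw [one_div_pow]
      rw [h1, hε, ← mul_div_assoc, div_lt_div_iff₀ (by positivity) (by positivity)]
      have h2 : (2 : ℝ) ^ j ≤ 4 ^ j := pow_le_pow_left₀ (by norm_num) (by norm_num) j
      have h3 : (1 : ℝ) ≤ (j + 1) * (CB + 1) := by
        have : (0 : ℝ) ≤ j := by positivity
        nlinarith
      have h4 : (0 : ℝ) < 4 ^ j := by positivity
      nlinarith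
    have hgen : ∀ {c : ℕ → ℝ} {φ : ℕ → ℝ} {τ : ℝ}, |τ| = 1 → (∀ x, -ε ≤ τ * QQ j φ x) →
        (∀ G : ℝ → ℝ, (∀ x, 0 ≤ G x) → (fun x => (G x : ℂ)) ∈ Trig (D - j) →
          0 ≤ Lam N D c (fun x => τ * QQ j φ x * G x)) → (∀ i, 1 ≤ i → i ≤ j → c i = 0) →
        0 ≤ c 0 := by
      intro c φ τ hτ hl hp hz
      have h1 := hp (fun _ => 1) (fun _ => zero_le_one) (by
        have := one_mem_Trig (D - j)
        convert this using 1
        funext x
        simp)
      have h2 : Lam N D c (fun x => τ * QQ j φ x * 1) = c 0 * (τ * (coef N 0 (QC j φ)).re) := by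
        unfold Lam
        simp only [mul_one]
        rw [Finset.sum_eq_single 0]
        · rw [coef_const_mul, Complex.re_ofReal_mul]
          rfl
        · intro i hi hi0
          rw [Finset.mem_range] at hi
          by_cases hij : i ≤ j
          · rw [hz i (by omega) hij, zero_mul]
          · rw [coef_const_mul]
            change c i * ((τ : ℂ) * coef N i (QC j φ)).re = 0
            rw [coef_eq_zero (QC_mem j φ)]
            · simp
            · rw [lt_abs]; left; omega
            · rw [abs_of_nonneg (by positivity)]; omega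
        · intro h
          exact absurd (Finset.mem_range.mpr (by omega)) h
      rw [h2] at h1
      exact nonneg_of_mul_nonneg_left h1 (mean_pos (by omega) hτ hεpos.le hε2 hl)
    have g1 := hgen hτ hlow hposc hcz
    have g2 := hgen hτ' hlow' hposc' hcz'
    rw [hcc'] at g2
    intro i hi
    by_cases h : i = 0
    · subst h
      have : c 0 = 0 := by linarith
      rw [this, abs_zero]
    · rw [hcz i (by omega) hi, abs_zero]
  · -- case (B)
    have hcB : ∀ l : ℕ, 1 ≤ l → l ≤ 2 * j → ∀ e : ℤ, -(j : ℤ) ≤ e → e ≤ j → ∀ n : ℕ,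
        (n : ℤ) = m * l + e → (1 ≤ n ∧ n ≤ D ∧ ¬ InI q n) := by
      intro l hl1 hl2 e he1 he2 n hn
      have h1 : (m : ℤ) * 1 ≤ m * l := by
        apply mul_le_mul_of_nonneg_left _ (by positivity)
        exact_mod_cast hl1
      have h2 : (m : ℤ) * l ≤ m * (2 * j) := by
        apply mul_le_mul_of_nonneg_left _ (by positivity)
        exact_mod_cast hl2
      have h3 : (m : ℤ) * (2 * j) = 2 * (j * m) := by ring
      refine ⟨by omega, ?_, hB l hl1 hl2 e (by push_cast; omega) (by push_cast; omega) n hn⟩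
      have h4 : (n : ℤ) ≤ D := by
        rw [hD]; push_cast; nlinarith
      exact_mod_cast h4
    set κ : ℝ := ∑ i ∈ Finset.range (j + 1), (|c i| + |c' i|) with hκ
    have hκc : ∀ i ≤ j, |c i| ≤ κ := by
      intro i hi
      have h1 : |c i| + |c' i| ≤ κ := Finset.single_le_sum (f := fun i => |c i| + |c' i|)
        (fun i _ => add_nonneg (abs_nonneg (c i)) (abs_nonneg (c' i)))
        (Finset.mem_range.mpr (show i < j + 1 by omega))
      have h2 := abs_nonneg (c' i)
      linarith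
    have hκc' : ∀ i ≤ j, |c' i| ≤ κ := by
      intro i hi
      have h1 : |c i| + |c' i| ≤ κ := Finset.single_le_sum (f := fun i => |c i| + |c' i|)
        (fun i _ => add_nonneg (abs_nonneg (c i)) (abs_nonneg (c' i)))
        (Finset.mem_range.mpr (show i < j + 1 by omega))
      have h2 := abs_nonneg (c i)
      linarith
    have hκ0 : 0 ≤ κ := (abs_nonneg _).trans (hκc 0 (Nat.zero_le _))
    have hS := hgrow hτ hposc κ hκc
    have hS' := hgrow hτ' hposc' κ hκc'
    have hB1 : ∀ i0, 1 ≤ i0 → i0 ≤ j → |c i0| / 2 ≤ c 0 + ε * (CB * κ) := by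
      intro i0 h1 h2
      have h3 := second_B (N := N) (D := D) (by omega) (by omega) (by omega) hτ hεpos.le hS hlow
        hposc (by
          intro l hl1 hl2 e he1 he2 n hn
          obtain ⟨a1, a2, a3⟩ := hcB l hl1 hl2 e he1 he2 n hn
          rw [← abs_eq_zero, hci n a1, abs_eq_zero]
          exact (hI n a1 (by omega) a3).1) h1 h2
      refine h3.trans (le_of_eq ?_)
      rw [hCB]; ring
    have hB2 : ∀ i0, 1 ≤ i0 → i0 ≤ j → |c' i0| / 2 ≤ c' 0 + ε * (CB * κ) := by
      intro i0 h1 h2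
      have h3 := second_B (N := N) (D := D) (by omega) (by omega) (by omega) hτ' hεpos.le hS' hlow'
        hposc' (by
          intro l hl1 hl2 e he1 he2 n hn
          obtain ⟨a1, a2, a3⟩ := hcB l hl1 hl2 e he1 he2 n hn
          rw [← abs_eq_zero, hci' n a1, abs_eq_zero]
          exact (hI n a1 (by omega) a3).2) h1 h2
      refine h3.trans (le_of_eq ?_)
      rw [hCB]; ring
    set η : ℝ := ε * (CB * κ) with hη
    have hη0 : 0 ≤ η := by positivity
    have b1 := hB1 1 le_rfl hj1
    have b2 := hB2 1 le_rfl hj1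
    rw [hcc'] at b2
    have b3 := abs_nonneg (c 1)
    have b4 := abs_nonneg (c' 1)
    have hc0le : |c 0| ≤ η := by rw [abs_le]; constructor <;> linarith
    have hc0le' : |c' 0| ≤ η := by rw [hcc', abs_neg]; exact hc0le
    have hall : ∀ i ≤ j, |c i| ≤ 4 * η := by
      intro i hi
      by_cases h : i = 0
      · subst h; linarith
      · have := hB1 i (by omega) hi
        have := (abs_le.mp hc0le).2
        linarith
    have hall' : ∀ i ≤ j, |c' i| ≤ 4 * η := by
      intro i hi
      by_cases h : i = 0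
      · subst h; linarith
      · have := hB2 i (by omega) hi
        have := (abs_le.mp hc0le').2
        linarith
    have hκle : κ ≤ (j + 1) * (8 * η) := by
      calc κ ≤ ∑ i ∈ Finset.range (j + 1), (8 * η) := by
            apply Finset.sum_le_sum
            intro i hi
            rw [Finset.mem_range] at hi
            have := hall i (by omega)
            have := hall' i (by omega)
            linarith
        _ = (j + 1) * (8 * η) := by simp
    have hκhalf : (j + 1) * (8 * η) ≤ κ / 2 := by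
      have h1 : ((j : ℝ) + 1) * (8 * η) = (8 * (j + 1) * CB * κ) * ε := by rw [hη]; ring
      rw [h1, hε, mul_one_div, div_le_iff₀ (by positivity)]
      have h2 : (0 : ℝ) ≤ 8 * (j + 1) * κ := by positivity
      have h3 : CB ≤ (CB + 1) * 4 ^ j := by nlinarith
      have h4 := mul_le_mul_of_nonneg_left h3 h2
      nlinarith
    have hκz : κ ≤ 0 := by linarith
    intro i hi
    exact (hκc i hi).trans hκz

end Pool.Agent.Helper61.Nodal
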