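import Pool.Agent.Helper61.Nodal.ZeroMean

/-!
A function with few sign changes becomes nonnegative after multiplication with a polynomial
of the form `∏ (cos x - cos φ_i)`.
-/

namespace Pool.Agent.Helper61.Nodal

open Set Filter Topology

/-- `U` has an alternating sequence of length `n` in `(a,b)` starting with sign `σ` -/
def Alt (U : ℝ → ℝ) (a b : ℝ) (n : ℕ) (σ : ℝ) : Prop :=
  ∃ t : ℕ → ℝ, (∀ i < n, t i ∈ Ioo a b) ∧ (∀ i, i + 1 < n → t i < t (i + 1)) ∧
    ∀ i < n, 0 < σ * (-1) ^ i * U (t i)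

lemma sign_factor_aux (U : ℝ → ℝ) (j : ℕ) : ∀ (a b σ : ℝ), a < b → ¬ Alt U a b (j + 1) σ →
    ∃ z : ℕ → ℝ, (∀ i, z i ∈ Icc a b) ∧
      ∀ x ∈ Ioo a b, 0 ≤ -σ * U x * ∏ i ∈ Finset.range j, (z i - x) := by
  induction j with
  | zero =>
    intro a b σ hab h
    refine ⟨fun _ => a, fun _ => ⟨le_rfl, hab.le⟩, fun x hx => ?_⟩
    rw [Finset.prod_range_zero, mul_one]
    by_contra hcon
    apply h
    refine ⟨fun _ => x, fun _ _ => hx, fun i hi => by omega, fun i hi => ?_⟩
    have : i = 0 := by omega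
    subst this
    simp only [pow_zero, mul_one]
    linarith
  | succ j ih =>
    intro a b σ hab h
    set P : Set ℝ := {x | x ∈ Ioo a b ∧ 0 < σ * U x} with hP
    by_cases hne : P.Nonempty
    swap
    · refine ⟨fun _ => b, fun _ => ⟨hab.le, le_rfl⟩, fun x hx => ?_⟩
      have h1 : σ * U x ≤ 0 := by
        by_contra hcon
        push Not at hcon
        exact hne ⟨x, hx, hcon⟩
      apply mul_nonneg (by linarith)
      apply Finset.prod_nonneg
      intro i _
      linarith [hx.2]
    set z0 := sInf P with hz0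
    have hbdd : BddBelow P := ⟨a, fun x hx => hx.1.1.le⟩
    have haz : a ≤ z0 := le_csInf hne (fun x hx => hx.1.1.le)
    have hzb : z0 < b := by
      obtain ⟨x, hx⟩ := hne
      exact lt_of_le_of_lt (csInf_le hbdd hx) hx.1.2
    have hAlt : ¬ Alt U z0 b (j + 1) (-σ) := by
      rintro ⟨t, ht1, ht2, ht3⟩
      obtain ⟨x, hxP, hxt⟩ := exists_lt_of_csInf_lt hne (ht1 0 (by omega)).1
      apply h
      refine ⟨fun i => if i = 0 then x else t (i - 1), ?_, ?_, ?_⟩
      · intro i hi
        by_cases h0 : i = 0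
        · simp only [h0, if_true]; exact hxP.1
        · simp only [h0, if_false]
          have := ht1 (i - 1) (by omega)
          exact ⟨lt_of_le_of_lt haz this.1, this.2⟩
      · intro i hi
        by_cases h0 : i = 0
        · simp only [h0, if_true]
          simpa using hxt
        · simp only [h0, if_false]
          rw [if_neg (by omega)]
          have := ht2 (i - 1) (by omega)
          rwa [show i - 1 + 1 = i by omega] at this
      · intro i hi
        by_cases h0 : i = 0
        · simp only [h0, if_true, pow_zero, mul_one]; exact hxP.2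
        · simp only [h0, if_false]
          have := ht3 (i - 1) (by omega)
          have h2 : σ * (-1) ^ i = -σ * (-1) ^ (i - 1) := by
            obtain ⟨k, rfl⟩ : ∃ k, i = k + 1 := ⟨i - 1, by omega⟩
            rw [Nat.add_sub_cancel, pow_succ]; ring
          rw [h2]
          exact this
    obtain ⟨z', hz'1, hz'2⟩ := ih z0 b (-σ) hzb hAlt
    refine ⟨fun i => if i = 0 then z0 else z' (i - 1), ?_, ?_⟩
    · intro i
      by_cases h0 : i = 0
      · simp only [h0, if_true]; exact ⟨haz, hzb.le⟩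
      · simp only [h0, if_false]
        exact ⟨haz.trans (hz'1 _).1, (hz'1 _).2⟩
    · intro x hx
      rw [Finset.prod_range_succ']
      simp only [Nat.add_eq_zero_iff, one_ne_zero, and_false, if_false, Nat.add_sub_cancel,
        if_true]
      rcases lt_trichotomy x z0 with hlt | heq | hgt
      · have h1 : σ * U x ≤ 0 := by
          by_contra hcon
          push Not at hcon
          have := csInf_le hbdd (show x ∈ P from ⟨hx, hcon⟩)
          linarith
        apply mul_nonneg (by linarith)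
        apply mul_nonneg _ (by linarith)
        apply Finset.prod_nonneg
        intro i _
        linarith [(hz'1 i).1]
      · rw [heq]; simp
      · have h1 := hz'2 x ⟨hgt, hx.2⟩
        have h2 : -σ * U x * ((∏ i ∈ Finset.range j, (z' i - x)) * (z0 - x)) =
            (- -σ * U x * ∏ i ∈ Finset.range j, (z' i - x)) * (x - z0) := by ring
        rw [h2]
        exact mul_nonneg h1 (by linarith)

lemma cos_sub_factor {x z : ℝ} (hx : x ∈ Icc 0 Real.pi) (hz : z ∈ Icc 0 Real.pi) :
    ∃ r : ℝ, 0 ≤ r ∧ Real.cos x - Real.cos z = r * (z - x) := by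
  by_cases h : z = x
  · exact ⟨0, le_rfl, by rw [h]; ring⟩
  · have h1 : z - x ≠ 0 := sub_ne_zero.mpr h
    refine ⟨(Real.cos x - Real.cos z) / (z - x), ?_, by field_simp⟩
    rcases lt_or_gt_of_ne h with hlt | hgt
    · have := Real.strictAntiOn_cos hz hx hlt
      apply div_nonneg_of_nonpos <;> linarith
    · have := Real.strictAntiOn_cos hx hz hgt
      apply div_nonneg <;> linarith

lemma prod_cos_factor {x : ℝ} (hx : x ∈ Icc 0 Real.pi) {z : ℕ → ℝ} (hz : ∀ i, z i ∈ Icc 0 Real.pi)
    (j : ℕ) : ∃ r : ℝ, 0 ≤ r ∧ QQ j z x = r * ∏ i ∈ Finset.range j, (z i - x) := by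
  choose r hr1 hr2 using fun i => cos_sub_factor hx (hz i)
  refine ⟨∏ i ∈ Finset.range j, r i, Finset.prod_nonneg (fun i _ => hr1 i), ?_⟩
  unfold QQ
  rw [← Finset.prod_mul_distrib]
  exact Finset.prod_congr rfl (fun i _ => hr2 i)

lemma WW_arccos (q : ℕ) (w : ℕ → ℝ) (x : ℝ) :
    WW q w x = WW q w (Real.arccos (Real.cos x)) := by
  unfold WW
  apply Finset.sum_congr rfl
  intro p _
  congr 1
  have h1 := Polynomial.Chebyshev.T_real_cos x p
  have h2 := Polynomial.Chebyshev.T_real_cos (Real.arccos (Real.cos x)) p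
  rw [Real.cos_arccos (Real.neg_one_le_cos x) (Real.cos_le_one x), h1] at h2
  simpa using h2

lemma QQ_arccos (j : ℕ) (φ : ℕ → ℝ) (x : ℝ) :
    QQ j φ x = QQ j φ (Real.arccos (Real.cos x)) := by
  unfold QQ
  rw [Real.cos_arccos (Real.neg_one_le_cos x) (Real.cos_le_one x)]

theorem sign_factor {q j : ℕ} {w : ℕ → ℝ} {σ : ℝ} (h : ¬ Alt (WW q w) 0 Real.pi (j + 1) σ) :
    ∃ φ : ℕ → ℝ, ∀ x, 0 ≤ -σ * WW q w x * QQ j φ x := by
  obtain ⟨z, hz1, hz2⟩ := sign_factor_aux (WW q w) j 0 Real.pi σ Real.pi_pos h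
  refine ⟨z, ?_⟩
  have h1 : ∀ x ∈ Ioo 0 Real.pi, 0 ≤ -σ * WW q w x * QQ j z x := by
    intro x hx
    obtain ⟨r, hr1, hr2⟩ := prod_cos_factor (Ioo_subset_Icc_self hx) hz1 j
    rw [hr2]
    have := mul_nonneg hr1 (hz2 x hx)
    linarith
  have hcont : Continuous (fun x => -σ * WW q w x * QQ j z x) :=
    (continuous_const.mul (continuous_WW q w)).mul (continuous_QQ j z)
  have h2 : ∀ x ∈ Icc 0 Real.pi, 0 ≤ -σ * WW q w x * QQ j z x := by
    intro x hx
    have hcl : x ∈ closure (Ioo 0 Real.pi) := by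
      rw [closure_Ioo Real.pi_pos.ne]; exact hx
    have hclosed : IsClosed {x | 0 ≤ -σ * WW q w x * QQ j z x} :=
      isClosed_le continuous_const hcont
    exact closure_minimal (fun y hy => h1 y hy) hclosed hcl
  intro x
  rw [WW_arccos, QQ_arccos]
  exact h2 _ ⟨Real.arccos_nonneg _, Real.arccos_le_pi _⟩

end Pool.Agent.Helper61.Nodal
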