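import Pool.Agent.Helper61.Nodal.Rigid

/-!
Assembly of the Fourier analytic part.
-/

namespace Pool.Agent.Helper61.Nodal

open Complex Set Filter Topology

/-- `p` is a leg for `lam` : `lam - p²` is a square -/
def InS (lam p : ℕ) : Prop := ∃ s : ℕ, p ^ 2 + s ^ 2 = lam

/-- the partner of `p` -/
def sq (lam p : ℕ) : ℕ := Nat.sqrt (lam - p ^ 2)

lemma sq_eq {lam p s : ℕ} (h : p ^ 2 + s ^ 2 = lam) : sq lam p = s := by
  unfold sq
  rw [← h, Nat.add_sub_cancel_left, Nat.sqrt_eq' s]

lemma sq_spec {lam p : ℕ} (h : InS lam p) : p ^ 2 + (sq lam p) ^ 2 = lam := by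
  obtain ⟨s, hs⟩ := h
  rw [sq_eq hs, hs]

lemma InS_sq {lam p : ℕ} (h : InS lam p) : InS lam (sq lam p) :=
  ⟨p, by rw [add_comm]; exact sq_spec h⟩

lemma sq_sq {lam p : ℕ} (h : InS lam p) : sq lam (sq lam p) = p :=
  sq_eq (by rw [add_comm]; exact sq_spec h)

lemma InS_le {lam p : ℕ} (h : InS lam p) : p ≤ lam := by
  obtain ⟨s, hs⟩ := h
  nlinarith

open Classical in
/-- the coefficients of the other trace -/
noncomputable def dual (lam : ℕ) (a : ℕ → ℝ) (p : ℕ) : ℝ := if InS lam p then a (sq lam p) else 0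

lemma WW_congr_of_zero {q q' : ℕ} (h : q ≤ q') {w : ℕ → ℝ} (hw : ∀ p, q < p → w p = 0) (x : ℝ) :
    WW q' w x = WW q w x := by
  unfold WW
  symm
  apply Finset.sum_subset
  · intro i hi; rw [Finset.mem_range] at hi ⊢; omega
  · intro i hi hi'
    rw [Finset.mem_range] at hi hi'
    rw [hw i (by omega), zero_mul]

/-- for large `lam`, at most one small element -/
lemma unique_small (B : ℕ) {lam : ℕ} (hlam : B ^ 2 + (B ^ 2) ^ 2 < lam) {p p' : ℕ}
    (hp : InS lam p) (hp' : InS lam p') (h : p ≤ B) (h' : p' ≤ B) : p = p' := by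
  by_contra hne
  wlog hlt : p < p' generalizing p p' with H
  · exact H hp' hp h' h (Ne.symm hne) (by omega)
  have e1 := sq_spec hp
  have e2 := sq_spec hp'
  set s := sq lam p
  set s' := sq lam p'
  have h1 : s' < s := by
    by_contra hcon
    push Not at hcon
    nlinarith
  have h2 : p' ^ 2 ≤ B ^ 2 := Nat.pow_le_pow_left h' 2
  have h3 : B ^ 2 < s' := by
    by_contra hcon
    push Not at hcon
    have h4 : s' ^ 2 ≤ (B ^ 2) ^ 2 := Nat.pow_le_pow_left hcon 2
    omega
  -- s² - s'² = p'² - p² ≤ B² but ≥ s + s' > B²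
  obtain ⟨k, hk⟩ := Nat.exists_eq_add_of_lt h1
  rw [hk] at e1
  nlinarith

theorem spectral (j : ℕ) : ∃ lam0 : ℕ, ∀ (lam : ℕ) (a : ℕ → ℝ) (s s' : ℝ) (φ φ' : ℕ → ℝ),
    lam0 < lam → (∀ p, ¬ InS lam p → a p = 0) → |s| = 1 → |s'| = 1 →
    (∀ x, 0 ≤ s * WW lam a x * QQ j φ x) → (∀ x, 0 ≤ s' * WW lam (dual lam a) x * QQ j φ' x) →
    (∀ p, a p = 0) ∨ ∃ q, lam = q ^ 2 ∧ (∀ p, p ≠ 0 → p ≠ q → a p = 0) ∧ |a 0| = |a q| := by
  classical
  obtain ⟨D1, hD1⟩ := first_order j
  obtain ⟨D2, hD2j, hD2⟩ := second_order j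
  set B : ℕ := D1 + D2 + j + 1 with hB
  refine ⟨B ^ 2 + (B ^ 2) ^ 2 + 2 * (2 * B + 4 * j + 4) ^ 2, ?_⟩
  intro lam a s s' φ φ' hlam ha hs hs' hpos hpos'
  have hlamB : B ^ 2 + (B ^ 2) ^ 2 < lam := by
    have : 0 ≤ 2 * (2 * B + 4 * j + 4) ^ 2 := by positivity
    omega
  by_cases hS : ∃ p, InS lam p
  swap
  · left
    intro p
    exact ha p (fun h => hS ⟨p, h⟩)
  -- the smallest element
  set p1 := Nat.find hS with hp1
  have hp1S : InS lam p1 := Nat.find_spec hS
  have hp1min : ∀ p, InS lam p → p1 ≤ p := fun p hp => Nat.find_min' hS hp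
  set q := sq lam p1 with hq
  have hqS : InS lam q := InS_sq hp1S
  have hspec : p1 ^ 2 + q ^ 2 = lam := sq_spec hp1S
  have hqmax : ∀ p, InS lam p → p ≤ q := by
    intro p hp
    have h1 := hp1min _ (InS_sq hp)
    have h2 := sq_spec hp
    by_contra hcon
    push Not at hcon
    nlinarith
  have hqlarge : 2 * B + 4 * j + 4 < q := by
    have h1 : p1 ≤ q := hp1min q hqS
    by_contra hcon
    push Not at hcon
    have h2 : q ^ 2 ≤ (2 * B + 4 * j + 4) ^ 2 := Nat.pow_le_pow_left hcon 2
    have h3 : p1 ^ 2 ≤ (2 * B + 4 * j + 4) ^ 2 := Nat.pow_le_pow_left (h1.trans hcon) 2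
    have h4 : 0 ≤ B ^ 2 + (B ^ 2) ^ 2 := by positivity
    omega
  have hqlam : q ≤ lam := InS_le hqS
  have haq : ∀ p, q < p → a p = 0 := fun p hp => ha p (fun h => by have := hqmax p h; omega)
  have hdS : ∀ p, ¬ InS lam p → dual lam a p = 0 := fun p hp => by
    unfold dual; rw [if_neg hp]
  have hdq : ∀ p, q < p → dual lam a p = 0 :=
    fun p hp => hdS p (fun h => by have := hqmax p h; omega)
  set w : ℕ → ℝ := fun p => s * a p with hw
  set w' : ℕ → ℝ := fun p => s' * dual lam a p with hw'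
  have hWpos : ∀ x, 0 ≤ WW q w x * QQ j φ x := by
    intro x
    rw [hw, WW_smul, ← WW_congr_of_zero hqlam haq]
    exact hpos x
  have hWpos' : ∀ x, 0 ≤ WW q w' x * QQ j φ' x := by
    intro x
    rw [hw', WW_smul, ← WW_congr_of_zero hqlam hdq]
    exact hpos' x
  have hs0 : s ≠ 0 := by
    rintro rfl; simp at hs
  have hzero : (∀ p ≤ q, w p = 0) → ∀ p, a p = 0 := by
    intro h p
    by_cases hp : p ≤ q
    · have := h p hp
      simp only [hw] at this
      exact (mul_eq_zero.mp this).resolve_left hs0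
    · exact haq p (by omega)
  have hwabs : ∀ p, |w p| = |a p| := fun p => by simp only [hw]; rw [abs_mul, hs, one_mul]
  have hwabs' : ∀ p, |w' p| = |dual lam a p| := fun p => by
    simp only [hw']; rw [abs_mul, hs', one_mul]
  have hdualq : dual lam a q = a p1 := by
    unfold dual
    rw [if_pos hqS, hq, sq_sq hp1S]
  have hdualp : dual lam a p1 = a q := by
    unfold dual
    rw [if_pos hp1S]
  -- elements ≤ B are p1
  have hsmall : ∀ i ≤ B, i ≠ p1 → ¬ InS lam i := by
    intro i hi hne hiS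
    exact hne (unique_small B hlamB hiS hp1S hi ((hp1min i hiS).trans hi))
  by_cases hp1j : j < p1
  · left
    apply hzero
    apply zero_mean hWpos
    intro i hi
    simp only [hw]
    rw [ha i (fun h => by have := hp1min i h; omega), mul_zero]
  push Not at hp1j
  by_cases hp10 : p1 = 0
  · right
    refine ⟨q, ?_, ?_, ?_⟩
    · rw [← hspec, hp10]; ring
    all_goals
      rw [hp10] at hdualq hdualp
      have hlamq : lam = q ^ 2 := by rw [← hspec, hp10]; ring
      have hsecond := hD2 q w w' φ φ' (by omega) (by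
        intro i hi1 hi2
        have := hsmall i (by omega) (by omega)
        constructor
        · simp only [hw]; rw [ha i this, mul_zero]
        · simp only [hw']; rw [hdS i this, mul_zero]) (by rw [hwabs, hwabs', hdualq])
        (by rw [hwabs, hwabs', hdualp]) (by
        intro i hi1 hi2 hI
        have hnS : ¬ InS lam (q - i) := by
          rintro ⟨t, ht⟩
          apply hI
          refine ⟨t, ?_⟩
          obtain ⟨k, hk⟩ : ∃ k, q = k + i := ⟨q - i, by omega⟩
          have hki : q - i = k := by omega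
          rw [hki, hlamq, hk] at ht
          rw [hk]
          nlinarith
        constructor
        · simp only [hw]; rw [ha _ hnS, mul_zero]
        · simp only [hw']; rw [hdS _ hnS, mul_zero]) hWpos hWpos'
    · intro p hp0 hpq
      by_cases hp : p < q
      · have h1 := rigid (j := j) (q := q) (w := w) (φ := φ) (by omega) (by
          intro i hi1 hi2
          have := hsmall i (by omega) (by omega)
          simp only [hw]; rw [ha i this, mul_zero]) (fun i hi1 hi2 => hsecond.1 i hi1 (by omega))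
          hsecond.2 hWpos p (by omega) hp
        simp only [hw] at h1
        exact (mul_eq_zero.mp h1).resolve_left hs0
      · exact haq p (by omega)
    · rw [← hwabs 0, ← hwabs q]
      exact hsecond.2.symm
  · left
    have h1 := hD1 q w p1 φ (by omega) (by omega) hp1j (by
      intro i hi hne
      simp only [hw]; rw [ha i (hsmall i (by omega) hne), mul_zero]) hWpos
    have h2 := hD1 q w' p1 φ' (by omega) (by omega) hp1j (by
      intro i hi hne
      simp only [hw']; rw [hdS i (hsmall i (by omega) hne), mul_zero]) hWpos'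
    rw [hwabs, hwabs] at h1
    rw [hwabs', hwabs', hdualq, hdualp] at h2
    have h3 : |a p1| = 0 := by
      have := abs_nonneg (a p1)
      have := abs_nonneg (a q)
      linarith
    apply hzero
    apply zero_mean hWpos
    intro i hi
    simp only [hw]
    by_cases h : i = p1
    · rw [h, abs_eq_zero.mp h3, mul_zero]
    · rw [ha i (hsmall i (by omega) h), mul_zero]

end Pool.Agent.Helper61.Nodal
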