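import Pool.Agent.Helper61.Nodal.Crossing
import Pool.Agent.Helper61.Nodal.SignFactor

/-!
Few nodal domains imply few sign changes along an edge of the square.
-/

namespace Pool.Agent.Helper61.Nodal

open Set Filter Topology

/-- the open square `(0,π)²` -/
def Sqr : Set (ℝ × ℝ) := Ioo 0 Real.pi ×ˢ Ioo 0 Real.pi

/-- the complement in the open square of the nodal set (closure of the zero set) -/
def Dom (u : ℝ × ℝ → ℝ) : Set (ℝ × ℝ) := Sqr \ closure {z | z ∈ Sqr ∧ u z = 0}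

lemma isOpen_Sqr : IsOpen Sqr := isOpen_Ioo.prod isOpen_Ioo

lemma isOpen_Dom (u : ℝ × ℝ → ℝ) : IsOpen (Dom u) := isOpen_Sqr.sdiff isClosed_closure

lemma ne_zero_of_mem_Dom {u : ℝ × ℝ → ℝ} {z : ℝ × ℝ} (h : z ∈ Dom u) : u z ≠ 0 := by
  intro h0
  exact h.2 (subset_closure ⟨h.1, h0⟩)

lemma mem_Dom {u : ℝ × ℝ → ℝ} (hu : Continuous u) {z : ℝ × ℝ} (hz : z ∈ Sqr) (h : u z ≠ 0) :
    z ∈ Dom u := by
  refine ⟨hz, fun hcl => h ?_⟩
  have h1 : closure {z | z ∈ Sqr ∧ u z = 0} ⊆ {z | u z = 0} :=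
    closure_minimal (fun y hy => hy.2) (isClosed_eq hu continuous_const)
  exact h1 hcl

/-- the region where `ρ u > 0` in the closed upper half plane -/
def Reg (u : ℝ × ℝ → ℝ) (ρ : ℝ) : Set (ℝ × ℝ) := {z | 0 ≤ z.2 ∧ 0 < ρ * u z}

lemma exists_vertical {u : ℝ × ℝ → ℝ} (hu : Continuous u) {ρ t : ℝ} (ht : t ∈ Ioo 0 Real.pi)
    (h : 0 < ρ * u (t, 0)) : ∃ z ∈ Dom u, 0 < ρ * u z ∧ JoinedIn (Reg u ρ) (t, 0) z := by
  have hpi := Real.pi_pos
  have hc : Continuous (fun y : ℝ => ρ * u (t, y)) := by fun_prop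
  have h1 : ∀ᶠ y in 𝓝 (0 : ℝ), 0 < ρ * u (t, y) := hc.continuousAt.eventually (lt_mem_nhds h)
  rw [Metric.eventually_nhds_iff] at h1
  obtain ⟨ε, hε, h2⟩ := h1
  set y := min (ε / 2) 1 with hy
  have hy0 : 0 < y := by positivity
  have hyε : y < ε := lt_of_le_of_lt (min_le_left _ _) (by linarith)
  have hypi : y < Real.pi := lt_of_le_of_lt (min_le_right _ _) (by linarith [Real.pi_gt_three])
  have h3 : ∀ y' ∈ Icc 0 y, 0 < ρ * u (t, y') := by
    intro y' hy'
    apply h2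
    rw [Real.dist_eq, sub_zero, abs_of_nonneg hy'.1]
    linarith [hy'.2]
  have hpos := h3 y ⟨hy0.le, le_rfl⟩
  refine ⟨(t, y), mem_Dom hu ⟨ht, hy0, hypi⟩ ?_, hpos, ?_⟩
  · intro h0
    rw [h0, mul_zero] at hpos
    exact lt_irrefl _ hpos
  · apply JoinedIn.ofLine (f := fun s => (t, s * y))
    · fun_prop
    · simp
    · simp
    · rintro _ ⟨s, hs, rfl⟩
      refine ⟨mul_nonneg hs.1 hy0.le, h3 _ ⟨mul_nonneg hs.1 hy0.le, ?_⟩⟩
      have := mul_le_mul_of_nonneg_right hs.2 hy0.le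
      linarith

lemma joined_of_component {u : ℝ × ℝ → ℝ} (hu : Continuous u) {ρ : ℝ} {z z' : ℝ × ℝ}
    (hz : z ∈ Dom u) (hz' : z' ∈ Dom u) (hρ : 0 < ρ * u z)
    (h : (ConnectedComponents.mk (⟨z, hz⟩ : ↥(Dom u))) = ConnectedComponents.mk ⟨z', hz'⟩) :
    JoinedIn (Reg u ρ) z z' := by
  have : LocallyPathConnectedSpace ↥(Dom u) := (isOpen_Dom u).locallyPathConnectedSpace
  rw [ConnectedComponents.coe_eq_coe', ← pathComponent_eq_connectedComponent] at h
  have h1 : Joined (⟨z', hz'⟩ : ↥(Dom u)) ⟨z, hz⟩ := h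
  obtain ⟨γ⟩ := h1.symm
  refine ⟨γ.map continuous_subtype_val, fun s => ?_⟩
  have hval : (γ.map continuous_subtype_val) s = ((γ s : ↥(Dom u)) : ℝ × ℝ) := rfl
  rw [hval]
  refine ⟨(γ s).2.1.2.1.le, ?_⟩
  by_contra hcon
  push Not at hcon
  have hcont : Continuous (fun s : unitInterval => ρ * u ((γ s : ↥(Dom u)) : ℝ × ℝ)) :=
    continuous_const.mul (hu.comp (continuous_subtype_val.comp γ.continuous))
  obtain ⟨s', hs'⟩ := mem_range_of_exists_le_of_exists_ge hcont (c := 0) ⟨s, hcon⟩ ⟨0, by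
    simp only [Path.source]
    exact hρ.le⟩
  have h2 : ρ ≠ 0 := by rintro rfl; simp at hρ
  have h3 := (mul_eq_zero.mp hs').resolve_left h2
  exact ne_zero_of_mem_Dom (γ s').2 h3

/-- two interlacing pairs of boundary points cannot be joined in regions of different sign -/
lemma no_crossing {u : ℝ × ℝ → ℝ} {ρ : ℝ} {t1 t2 t3 t4 : ℝ} (h12 : t1 < t2) (h23 : t2 < t3)
    (h34 : t3 < t4) (h1 : JoinedIn (Reg u ρ) (t1, 0) (t3, 0))
    (h2 : JoinedIn (Reg u (-ρ)) (t2, 0) (t4, 0)) : False := by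
  obtain ⟨γ, hγ⟩ := h1
  obtain ⟨δ, hδ⟩ := h2
  have hγm : ∀ s ∈ Icc (0 : ℝ) 1, γ.extend s ∈ Reg u ρ := fun s hs => by
    rw [Path.extend_apply γ hs]; exact hγ _
  have hδm : ∀ s ∈ Icc (0 : ℝ) 1, δ.extend s ∈ Reg u (-ρ) := fun s hs => by
    rw [Path.extend_apply δ hs]; exact hδ _
  set c : ℝ × ℝ → ℂ := fun z => (z.1 : ℂ) + z.2 * Complex.I with hc
  have hcc : Continuous c := by fun_prop
  have hcinj : ∀ z z', c z = c z' → z = z' := by
    intro z z' h
    have e1 := congrArg Complex.re h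
    have e2 := congrArg Complex.im h
    simp [hc] at e1 e2
    exact Prod.ext e1 e2
  obtain ⟨s, hs, t, ht, hst⟩ := crossing (γ := fun s => c (γ.extend s))
    (δ := fun s => c (δ.extend s))
    (hcc.comp γ.continuous_extend).continuousOn (hcc.comp δ.continuous_extend).continuousOn
    (fun s hs => by simpa [hc] using (hγm s hs).1) (fun s hs => by simpa [hc] using (hδm s hs).1)
    h12 h23 h34 (by simp [hc]) (by simp [hc]) (by simp [hc]) (by simp [hc])
  have h3 := hcinj _ _ hst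
  have h4 := (hγm s hs).2
  have h5 := (hδm t ht).2
  rw [← h3] at h5
  linarith

theorem no_alt {u : ℝ × ℝ → ℝ} (hu : Continuous u) {c : ℕ}
    (hcard : ENat.card (ConnectedComponents ↥(Dom u)) ≤ c) (σ : ℝ) :
    ¬ Alt (fun t => u (t, 0)) 0 Real.pi (2 * c ^ 2 + 2) σ := by
  rintro ⟨t, ht1, ht2, ht3⟩
  have hfin : Finite (ConnectedComponents ↥(Dom u)) :=
    ENat.card_lt_top.mp (lt_of_le_of_lt hcard (ENat.natCast_lt_top c))
  have : Fintype (ConnectedComponents ↥(Dom u)) := Fintype.ofFinite _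
  rw [ENat.card_eq_coe_fintype_card] at hcard
  have hcard' : Fintype.card (ConnectedComponents ↥(Dom u)) ≤ c := by exact_mod_cast hcard
  -- choose points
  have hE : ∀ i : Fin (c ^ 2 + 1), ∃ z ∈ Dom u, 0 < σ * u z ∧
      JoinedIn (Reg u σ) (t (2 * i), 0) z := by
    intro i
    apply exists_vertical hu (ht1 _ (by omega))
    have := ht3 (2 * i) (by omega)
    rwa [pow_mul, neg_one_sq, one_pow, mul_one] at this
  have hO : ∀ i : Fin (c ^ 2 + 1), ∃ z ∈ Dom u, 0 < -σ * u z ∧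
      JoinedIn (Reg u (-σ)) (t (2 * i + 1), 0) z := by
    intro i
    apply exists_vertical hu (ht1 _ (by omega))
    have := ht3 (2 * i + 1) (by omega)
    rw [pow_succ, pow_mul, neg_one_sq, one_pow, one_mul, mul_neg_one] at this
    exact this
  choose zE hzE1 hzE2 hzE3 using hE
  choose zO hzO1 hzO2 hzO3 using hO
  set f : Fin (c ^ 2 + 1) → ConnectedComponents ↥(Dom u) × ConnectedComponents ↥(Dom u) :=
    fun i => (ConnectedComponents.mk ⟨zE i, hzE1 i⟩, ConnectedComponents.mk ⟨zO i, hzO1 i⟩) with hf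
  have hlt : Fintype.card (ConnectedComponents ↥(Dom u) × ConnectedComponents ↥(Dom u)) <
      Fintype.card (Fin (c ^ 2 + 1)) := by
    rw [Fintype.card_prod, Fintype.card_fin]
    have := Nat.mul_le_mul hcard' hcard'
    nlinarith
  obtain ⟨i, i', hne, hii'⟩ := Fintype.exists_ne_map_eq_of_card_lt f hlt
  wlog hlt' : i < i' generalizing i i' with H
  · exact H i' i (Ne.symm hne) hii'.symm (lt_of_le_of_ne (not_lt.mp hlt') (Ne.symm hne))
  rw [hf] at hii'
  simp only [Prod.mk.injEq] at hii'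
  have hmono : ∀ k l : ℕ, k < l → l < 2 * c ^ 2 + 2 → t k < t l := by
    intro k l hkl hl
    induction l with
    | zero => omega
    | succ l ih =>
      by_cases h : k = l
      · rw [h]; exact ht2 l hl
      · exact (ih (by omega) (by omega)).trans (ht2 l hl)
  have j1 : JoinedIn (Reg u σ) (t (2 * i), 0) (t (2 * i'), 0) :=
    ((hzE3 i).trans (joined_of_component hu (hzE1 i) (hzE1 i') (hzE2 i) hii'.1)).trans
      (hzE3 i').symm
  have j2 : JoinedIn (Reg u (-σ)) (t (2 * i + 1), 0) (t (2 * i' + 1), 0) :=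
    ((hzO3 i).trans (joined_of_component hu (hzO1 i) (hzO1 i') (hzO2 i) hii'.2)).trans
      (hzO3 i').symm
  have hlt'' : (i : ℕ) < i' := hlt'
  have hi' : (i' : ℕ) < c ^ 2 + 1 := i'.2
  exact no_crossing (hmono _ _ (by omega) (by omega)) (hmono _ _ (by omega) (by omega))
    (hmono _ _ (by omega) (by omega)) j1 j2

end Pool.Agent.Helper61.Nodal
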