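import Pool.Agent.Helper61.Nodal.FirstOrder

/-!
Zero mean implies zero.
-/

namespace Pool.Agent.Helper61.Nodal

open Complex Set Filter Topology

lemma continuous_WW (q : ℕ) (w : ℕ → ℝ) : Continuous (WW q w) := by
  unfold WW
  fun_prop

lemma continuous_QQ (j : ℕ) (φ : ℕ → ℝ) : Continuous (QQ j φ) := by
  unfold QQ
  fun_prop

lemma WW_complex (q : ℕ) (w : ℕ → ℝ) :
    (fun x => ((WW q w x : ℝ) : ℂ)) =
      ∑ p ∈ Finset.range (q + 1), ((w p : ℂ) / 2) • (ee p + ee (-p)) := by
  funext x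
  rw [WW, Finset.sum_apply, Complex.ofReal_sum]
  apply Finset.sum_congr rfl
  intro p _
  rw [Complex.ofReal_mul, cos_eq_ee]
  simp only [Pi.smul_apply, Pi.add_apply, smul_eq_mul]
  ring

lemma coef_WW_mul (q : ℕ) (w : ℕ → ℝ) (N : ℕ) (n : ℤ) (F : ℝ → ℂ) :
    coef N n ((fun x => ((WW q w x : ℝ) : ℂ)) * F) =
      ∑ p ∈ Finset.range (q + 1), ((w p : ℂ) / 2) * (coef N (n - p) F + coef N (n + p) F) := by
  rw [WW_complex, Finset.sum_mul, map_sum]
  apply Finset.sum_congr rfl
  intro p _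
  rw [smul_mul_assoc, map_smul, smul_eq_mul, add_mul, map_add, mul_comm (ee (p : ℤ)) F,
    mul_comm (ee (-(p : ℤ))) F, coef_mul_ee, coef_mul_ee, sub_neg_eq_add]

lemma WW_mem_Trig (q : ℕ) (w : ℕ → ℝ) : (fun x => ((WW q w x : ℝ) : ℂ)) ∈ Trig q := by
  rw [WW_complex]
  apply Submodule.sum_mem
  intro p hp
  rw [Finset.mem_range] at hp
  apply Submodule.smul_mem
  apply Submodule.add_mem <;> apply ee_mem_Trig <;> rw [abs_le] <;> constructor <;> omega

lemma WW_eq_zero {q : ℕ} {w : ℕ → ℝ} (h : ∀ x, WW q w x = 0) : ∀ p ≤ q, w p = 0 := by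
  intro i hi
  set N := 2 * q + 1 with hN
  have h1 : coef N i (fun x => ((WW q w x : ℝ) : ℂ)) = 0 := by
    have : (fun x => ((WW q w x : ℝ) : ℂ)) = 0 := by
      funext x; rw [h x]; simp
    rw [this, map_zero]
  rw [WW_complex, map_sum] at h1
  have h2 : ∀ p ∈ Finset.range (q + 1), coef N i (((w p : ℂ) / 2) • (ee p + ee (-p))) =
      if p = i then (if i = 0 then (w i : ℂ) else (w i : ℂ) / 2) else 0 := by
    intro p hp
    rw [Finset.mem_range] at hp
    rw [map_smul, map_add, coef_ee (by rw [abs_lt]; constructor <;> omega),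
      coef_ee (by rw [abs_lt]; constructor <;> omega), smul_eq_mul]
    by_cases hpi : p = i
    · subst hpi
      rw [if_pos rfl, if_pos rfl]
      by_cases h0 : p = 0
      · subst h0; simp; ring
      · rw [if_neg (by omega), if_neg h0]; ring
    · rw [if_neg (by omega), if_neg (by omega), if_neg hpi]
      ring
  rw [Finset.sum_congr rfl h2, Finset.sum_ite_eq' (Finset.range (q + 1)) i,
    if_pos (Finset.mem_range.mpr (by omega))] at h1
  split_ifs at h1 with h0
  · exact_mod_cast h1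
  · have h3 : (w i : ℂ) = 0 := by
      have := h1
      field_simp at this
      simpa using this
    exact_mod_cast h3

lemma countable_QQ_zero (j : ℕ) (φ : ℕ → ℝ) : {x | QQ j φ x = 0}.Countable := by
  have hsub : {x | QQ j φ x = 0} ⊆ ⋃ i ∈ Finset.range j, ⋃ k : ℤ,
      {φ i - 2 * k * Real.pi, 2 * k * Real.pi - φ i} := by
    intro x hx
    rw [Set.mem_ofPred_eq, QQ, Finset.prod_eq_zero_iff] at hx
    obtain ⟨i, hi, h⟩ := hx
    rw [sub_eq_zero, Real.cos_eq_cos_iff] at h
    obtain ⟨k, hk⟩ := h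
    simp only [Set.mem_iUnion, Set.mem_insert_iff, Set.mem_singleton_iff]
    refine ⟨i, hi, k, ?_⟩
    rcases hk with h | h
    · left; linarith
    · right; linarith
  refine Set.Countable.mono hsub ?_
  refine Set.Countable.biUnion (Finset.countable_toSet _) (fun i _ => ?_)
  exact Set.countable_iUnion (fun k => (Set.toFinite _).countable)

lemma WW_zero_of_mul {q j : ℕ} {w : ℕ → ℝ} {φ : ℕ → ℝ}
    (h : ∀ x, WW q w x * QQ j φ x = 0) : ∀ x, WW q w x = 0 := by
  have hd : Dense {x | QQ j φ x = 0}ᶜ := (countable_QQ_zero j φ).dense_compl ℝ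
  have heq : Set.EqOn (WW q w) (fun _ => 0) {x | QQ j φ x = 0}ᶜ := by
    intro x hx
    have h1 : QQ j φ x ≠ 0 := hx
    rcases mul_eq_zero.mp (h x) with h2 | h2
    · exact h2
    · exact absurd h2 h1
  have := Continuous.ext_on hd (continuous_WW q w) continuous_const heq
  intro x
  rw [this]

/-- a nonnegative function with vanishing comb averages is zero -/
lemma eq_zero_of_comb {N : ℕ} (hN : N ≠ 0) {θ : ℝ} {f : ℝ → ℝ} (hf : ∀ x, 0 ≤ f x)
    (h : (comb N θ (fun x => (f x : ℂ))).re = 0) :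
    ∀ k < N, f ((θ + 2 * Real.pi * k) / N) = 0 := by
  rw [comb_apply] at h
  have h1 : (1 / (N : ℂ)) = ((1 / (N : ℝ) : ℝ) : ℂ) := by push_cast; rfl
  rw [h1, Complex.re_ofReal_mul, Complex.re_sum] at h
  have hN' : (0 : ℝ) < N := by positivity
  have h2 : ∑ k ∈ Finset.range N, f ((θ + 2 * Real.pi * k) / N) = 0 := by
    rcases mul_eq_zero.mp h with h3 | h3
    · have : (0 : ℝ) < 1 / N := by positivity
      linarith
    · simpa using h3
  rw [Finset.sum_eq_zero_iff_of_nonneg (fun k _ => hf _)] at h2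
  intro k hk
  exact h2 k (Finset.mem_range.mpr hk)

theorem zero_mean {q j : ℕ} {w : ℕ → ℝ} {φ : ℕ → ℝ} (hpos : ∀ x, 0 ≤ WW q w x * QQ j φ x)
    (hw : ∀ i ≤ j, w i = 0) : ∀ p ≤ q, w p = 0 := by
  set q' := q + 2 * j + 1 with hq'
  set w' : ℕ → ℝ := fun p => if p ≤ q then w p else 0 with hw'
  have hWW : ∀ x, WW q' w' x = WW q w x := by
    intro x
    unfold WW
    symm
    apply Finset.sum_subset_zero_on_sdiff
    · intro i hi; rw [Finset.mem_range] at hi ⊢; omega
    · intro i hi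
      rw [Finset.mem_sdiff, Finset.mem_range, Finset.mem_range] at hi
      simp only [hw']
      rw [if_neg (by omega), zero_mul]
    · intro i hi
      rw [Finset.mem_range] at hi
      simp only [hw']
      rw [if_pos (by omega)]
  apply WW_eq_zero
  apply WW_zero_of_mul (j := j) (φ := φ)
  intro x
  have h1 := comb_WW_re (q := q') (D := j) (N := 2 * j + 1) (by omega) (by omega) w' (q' * x)
    (QC_mem j φ)
  have h2 : ∑ i ∈ Finset.range (j + 1), w' i * (coef (2 * j + 1) i
      (fun x => ((QQ j φ x : ℝ) : ℂ))).re = 0 := by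
    apply Finset.sum_eq_zero
    intro i hi
    rw [Finset.mem_range] at hi
    simp only [hw']
    rw [hw i (by omega)]
    simp
  have h3 : ∑ i ∈ Finset.range (j + 1), (w' (q' - i) : ℂ) * coef (2 * j + 1) i
      (fun x => ((QQ j φ x : ℝ) : ℂ)) = 0 := by
    apply Finset.sum_eq_zero
    intro i hi
    rw [Finset.mem_range] at hi
    simp only [hw']
    rw [if_neg (by omega)]
    simp
  rw [h2, h3, mul_zero, Complex.zero_re, add_zero] at h1
  have h4 := eq_zero_of_comb (by omega) (fun x => by rw [hWW]; exact hpos x) h1 0 (by omega)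
  have h5 : ((q' : ℝ) * x + 2 * Real.pi * (0 : ℕ)) / q' = x := by
    have : (q' : ℝ) ≠ 0 := by positivity
    push_cast
    field_simp
    ring
  rw [h5, hWW] at h4
  exact h4

end Pool.Agent.Helper61.Nodal
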